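import Mathlib

/-!
# Total positivity relation between polynomials

Helper file for `MP_dbd06c_co`.
-/

open Polynomial Finset

namespace Pool.Agent.R825.Fib

/-- Nonnegative coefficients. -/
def NN (p : ℝ[X]) : Prop := ∀ k, 0 ≤ p.coeff k

/-- The two by two minors of the Toeplitz matrices of `b` (above) and `a` (below). -/
def R (b a : ℝ[X]) : Prop := ∀ w d e : ℕ,
  b.coeff (w + (d + 1) + (e + 1)) * a.coeff w ≤ b.coeff (w + (d + 1)) * a.coeff (w + (e + 1))

/-- Likelihood ratio order. -/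
def LR (b a : ℝ[X]) : Prop := ∀ s t : ℕ, s < t → b.coeff t * a.coeff s ≤ b.coeff s * a.coeff t

/-- Coefficients, extended by zero to the integers. -/
noncomputable def cz (c : ℝ[X]) (n : ℤ) : ℝ := if 0 ≤ n then c.coeff n.toNat else 0

lemma cz_nonneg {c : ℝ[X]} (hc : NN c) (n : ℤ) : 0 ≤ cz c n := by
  unfold cz; split_ifs
  · exact hc _
  · exact le_rfl

lemma LR_of_R {b a : ℝ[X]} (hb : NN b) (ha : NN a) (h : R b a) (d : ℕ) :
    LR b (X ^ (d + 1) * a) := by
  intro s t hst
  rw [coeff_X_pow_mul', coeff_X_pow_mul']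
  by_cases h1 : d + 1 ≤ s
  · rw [if_pos h1, if_pos (by omega)]
    have := h (s - (d + 1)) d (t - s - 1)
    rw [show s - (d + 1) + (d + 1) + (t - s - 1 + 1) = t by omega,
      show s - (d + 1) + (d + 1) = s by omega,
      show s - (d + 1) + (t - s - 1 + 1) = t - (d + 1) by omega] at this
    exact this
  · rw [if_neg h1, mul_zero]
    split_ifs
    · exact mul_nonneg (hb _) (ha _)
    · simp

lemma R_of_LR {b a : ℝ[X]} (h : ∀ d : ℕ, LR b (X ^ (d + 1) * a)) : R b a := by
  intro w d e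
  have := h d (w + (d + 1)) (w + (d + 1) + (e + 1)) (by omega)
  rw [coeff_X_pow_mul', coeff_X_pow_mul', if_pos (by omega), if_pos (by omega)] at this
  rw [show w + (d + 1) - (d + 1) = w by omega,
    show w + (d + 1) + (e + 1) - (d + 1) = w + (e + 1) by omega] at this
  exact this

lemma coeff_mul_cz (b c : ℝ[X]) {M : ℕ} (hM : b.natDegree < M) (u : ℕ) :
    (b * c).coeff u = ∑ s ∈ range M, b.coeff s * cz c ((u : ℤ) - s) := by
  conv_lhs => rw [as_sum_range' b M hM]
  rw [sum_mul, finset_sum_coeff]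
  refine sum_congr rfl fun s _ => ?_
  rw [← C_mul_X_pow_eq_monomial, mul_assoc, coeff_C_mul, coeff_X_pow_mul']
  congr 1
  unfold cz
  by_cases h : s ≤ u
  · rw [if_pos h, if_pos (by omega)]
    congr 1
    omega
  · rw [if_neg h, if_neg (by omega)]

lemma cz_R {c : ℝ[X]} (hc : NN c) (h : R c c) {x y e : ℤ} (hxy : x < y) (he : 0 < e) :
    cz c (y + e) * cz c x ≤ cz c y * cz c (x + e) := by
  by_cases hx : 0 ≤ x
  · unfold cz
    rw [if_pos hx, if_pos (by omega), if_pos (by omega), if_pos (by omega)]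
    have := h x.toNat (y - x - 1).toNat (e - 1).toNat
    rw [show x.toNat + ((y - x - 1).toNat + 1) + ((e - 1).toNat + 1) = (y + e).toNat by omega,
      show x.toNat + ((y - x - 1).toNat + 1) = y.toNat by omega,
      show x.toNat + ((e - 1).toNat + 1) = (x + e).toNat by omega] at this
    exact this
  · have : cz c x = 0 := by unfold cz; rw [if_neg hx]
    rw [this, mul_zero]
    exact mul_nonneg (cz_nonneg hc _) (cz_nonneg hc _)

/-- Cauchy–Binet. -/
lemma LR_mul {b a c : ℝ[X]} (h : LR b a) (hc : NN c) (hcc : R c c) : LR (b * c) (a * c) := by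
  intro u v huv
  set M := max b.natDegree a.natDegree + 1 with hM
  have hb : b.natDegree < M := by omega
  have ha : a.natDegree < M := by omega
  rw [coeff_mul_cz b c hb u, coeff_mul_cz b c hb v, coeff_mul_cz a c ha u, coeff_mul_cz a c ha v]
  set B : ℕ → ℕ → ℝ := fun s t => cz c ((u : ℤ) - s) * cz c ((v : ℤ) - t)
    - cz c ((v : ℤ) - s) * cz c ((u : ℤ) - t) with hB
  have hBanti : ∀ s t, B t s = - B s t := by intro s t; simp only [hB]; ring
  have hBpos : ∀ s t, s < t → 0 ≤ B s t := by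
    intro s t hst
    have := cz_R hc hcc (x := (u : ℤ) - t) (y := (u : ℤ) - s) (e := (v : ℤ) - u) (by omega)
      (by omega)
    rw [show (u : ℤ) - s + (v - u) = v - s by ring, show (u : ℤ) - t + (v - u) = v - t by ring]
      at this
    simp only [hB]
    linarith
  have key : (∑ s ∈ range M, b.coeff s * cz c ((u : ℤ) - s)) *
      (∑ t ∈ range M, a.coeff t * cz c ((v : ℤ) - t)) -
      (∑ s ∈ range M, b.coeff s * cz c ((v : ℤ) - s)) *
      (∑ t ∈ range M, a.coeff t * cz c ((u : ℤ) - t)) =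
      ∑ s ∈ range M, ∑ t ∈ range M, b.coeff s * a.coeff t * B s t := by
    rw [sum_mul_sum, sum_mul_sum, ← sum_sub_distrib]
    refine sum_congr rfl fun s _ => ?_
    rw [← sum_sub_distrib]
    refine sum_congr rfl fun t _ => ?_
    simp only [hB]; ring
  have swap : ∑ s ∈ range M, ∑ t ∈ range M, b.coeff s * a.coeff t * B s t =
      ∑ s ∈ range M, ∑ t ∈ range M, - (b.coeff t * a.coeff s * B s t) := by
    rw [sum_comm]
    refine sum_congr rfl fun s _ => sum_congr rfl fun t _ => ?_
    rw [hBanti s t]; ring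
  have hpos : 0 ≤ (∑ s ∈ range M, ∑ t ∈ range M, b.coeff s * a.coeff t * B s t) +
      ∑ s ∈ range M, ∑ t ∈ range M, b.coeff s * a.coeff t * B s t := by
    nth_rw 2 [swap]
    rw [← sum_add_distrib]
    refine sum_nonneg fun s _ => ?_
    rw [← sum_add_distrib]
    refine sum_nonneg fun t _ => ?_
    rcases lt_trichotomy s t with hst | hst | hst
    · have h1 := h s t hst
      have h2 := hBpos s t hst
      nlinarith
    · subst hst
      have : B s s = 0 := by have := hBanti s s; linarith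
      rw [this]; simp
    · have h1 := h t s hst
      have h2 := hBpos t s hst
      have h3 := hBanti t s
      nlinarith
  linarith

lemma NN.mul {b c : ℝ[X]} (hb : NN b) (hc : NN c) : NN (b * c) := by
  intro k
  rw [coeff_mul]
  exact sum_nonneg fun x _ => mul_nonneg (hb _) (hc _)

lemma R_mul {b a c : ℝ[X]} (hb : NN b) (ha : NN a) (h : R b a) (hc : NN c) (hcc : R c c) :
    R (b * c) (a * c) := by
  refine R_of_LR fun d => ?_
  rw [← mul_assoc]
  exact LR_mul (LR_of_R hb ha h d) hc hcc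

lemma NN_sum {ι : Type*} (s : Finset ι) (ω : ι → ℝ) (T : ι → ℝ[X]) (hω : ∀ i ∈ s, 0 ≤ ω i)
    (hT : ∀ i ∈ s, NN (T i)) : NN (∑ i ∈ s, C (ω i) * T i) := by
  intro k
  rw [finset_sum_coeff]
  refine sum_nonneg fun i hi => ?_
  rw [coeff_C_mul]
  exact mul_nonneg (hω i hi) (hT i hi k)

lemma R_sum {ι κ : Type*} (s : Finset ι) (s' : Finset κ) (ω : ι → ℝ) (ω' : κ → ℝ)
    (T : ι → ℝ[X]) (T' : κ → ℝ[X]) (hω : ∀ i ∈ s, 0 ≤ ω i) (hω' : ∀ i ∈ s', 0 ≤ ω' i)
    (h : ∀ i ∈ s, ∀ j ∈ s', R (T i) (T' j)) :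
    R (∑ i ∈ s, C (ω i) * T i) (∑ j ∈ s', C (ω' j) * T' j) := by
  intro w d e
  simp only [finset_sum_coeff, coeff_C_mul]
  rw [sum_mul_sum, sum_mul_sum]
  refine sum_le_sum fun i hi => sum_le_sum fun j hj => ?_
  have h1 := h i hi j hj w d e
  have h2 := mul_le_mul_of_nonneg_left h1 (mul_nonneg (hω i hi) (hω' j hj))
  nlinarith

/-- Unimodality from the relation. -/
lemma unimodal_of_R {a : ℝ[X]} (ha : NN a) (h : R a a) (h0 : a ≠ 0) :
    ∃ m, m ≤ a.natDegree ∧ (∀ i j, i ≤ j → j ≤ m → a.coeff i ≤ a.coeff j) ∧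
      (∀ i j, m ≤ i → i ≤ j → a.coeff j ≤ a.coeff i) := by
  obtain ⟨m, hm, hmax⟩ := exists_max_image (range (a.natDegree + 1)) (fun i => a.coeff i)
    ⟨0, by simp⟩
  have hmd : m ≤ a.natDegree := by simpa [Nat.lt_succ_iff] using hm
  have hmax' : ∀ i, a.coeff i ≤ a.coeff m := by
    intro i
    by_cases hi : i ≤ a.natDegree
    · exact hmax i (by simpa [Nat.lt_succ_iff] using hi)
    · rw [coeff_eq_zero_of_natDegree_lt (by omega)]
      exact ha m
  have hpos : 0 < a.coeff m := by
    refine lt_of_lt_of_le ?_ (hmax' a.natDegree)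
    have h1 : a.coeff a.natDegree ≠ 0 := by
      rw [coeff_natDegree]; exact leadingCoeff_ne_zero.2 h0
    exact lt_of_le_of_ne (ha _) h1.symm
  refine ⟨m, hmd, ?_, ?_⟩
  · intro i j hij hjm
    rcases eq_or_lt_of_le hjm with rfl | hjm
    · exact hmax' i
    rcases eq_or_lt_of_le hij with rfl | hij
    · exact le_rfl
    have h1 := h i (j - i - 1) (m - j - 1)
    rw [show i + (j - i - 1 + 1) + (m - j - 1 + 1) = m by omega,
      show i + (j - i - 1 + 1) = j by omega] at h1
    have h2 := hmax' (i + (m - j - 1 + 1))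
    have h3 := mul_le_mul_of_nonneg_left h2 (ha j)
    have h4 : a.coeff m * a.coeff i ≤ a.coeff m * a.coeff j := by linarith
    exact le_of_mul_le_mul_left h4 hpos
  · intro i j hmi hij
    rcases eq_or_lt_of_le hmi with rfl | hmi
    · exact hmax' j
    rcases eq_or_lt_of_le hij with rfl | hij
    · exact le_rfl
    have h1 := h m (i - m - 1) (j - i - 1)
    rw [show m + (i - m - 1 + 1) + (j - i - 1 + 1) = j by omega,
      show m + (i - m - 1 + 1) = i by omega] at h1
    have h2 := hmax' (m + (j - i - 1 + 1))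
    have h3 := mul_le_mul_of_nonneg_left h2 (ha i)
    have h4 : a.coeff m * a.coeff j ≤ a.coeff m * a.coeff i := by linarith
    exact le_of_mul_le_mul_left h4 hpos

/-! ### Explicit polynomials -/

/-- The polynomial with a given list of coefficients. -/
noncomputable def lp (l : List ℤ) : ℝ[X] :=
  ∑ i ∈ range l.length, C ((l.getD i 0 : ℤ) : ℝ) * X ^ i

lemma coeff_lp (l : List ℤ) (k : ℕ) : (lp l).coeff k = ((l.getD k 0 : ℤ) : ℝ) := by
  unfold lp
  rw [finset_sum_coeff]
  simp only [coeff_C_mul, coeff_X_pow, mul_ite, mul_one, mul_zero]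
  rw [sum_ite_eq]
  by_cases hk : k < l.length
  · rw [if_pos (by simpa using hk)]
  · rw [if_neg (by simpa using hk), List.getD_eq_default _ _ (by omega)]
    simp

/-- Nonnegativity check. -/
def nnc (l : List ℤ) : Bool := l.all (fun x => decide (0 ≤ x))

/-- The check of the relation. -/
def chk (n : ℕ) (l₁ l₂ : List ℤ) : Bool :=
  decide (l₁.length ≤ n) && decide (l₂.length ≤ n) &&
  (List.range n).all fun w => (List.range n).all fun d => (List.range n).all fun e =>
    decide (l₁.getD (w + (d + 1) + (e + 1)) 0 * l₂.getD w 0 ≤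
      l₁.getD (w + (d + 1)) 0 * l₂.getD (w + (e + 1)) 0)

lemma getD_nonneg {l : List ℤ} (h : nnc l = true) (k : ℕ) : 0 ≤ l.getD k 0 := by
  unfold nnc at h
  rw [List.all_eq_true] at h
  by_cases hk : k < l.length
  · rw [List.getD_eq_getElem _ _ hk]
    simpa using h _ (List.getElem_mem hk)
  · rw [List.getD_eq_default _ _ (by omega)]

lemma NN_lp {l : List ℤ} (h : nnc l = true) : NN (lp l) := by
  intro k
  rw [coeff_lp]
  exact_mod_cast getD_nonneg h k

lemma R_lp {n : ℕ} {l₁ l₂ : List ℤ} (h₁ : nnc l₁ = true) (h₂ : nnc l₂ = true)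
    (h : chk n l₁ l₂ = true) : R (lp l₁) (lp l₂) := by
  intro w d e
  simp only [coeff_lp]
  unfold chk at h
  simp only [Bool.and_eq_true, decide_eq_true_eq, List.all_eq_true, List.mem_range] at h
  obtain ⟨⟨hl1, hl2⟩, h⟩ := h
  have hcase : l₁.getD (w + (d + 1) + (e + 1)) 0 * l₂.getD w 0 ≤
      l₁.getD (w + (d + 1)) 0 * l₂.getD (w + (e + 1)) 0 := by
    by_cases hw : w < n
    · by_cases hd : d < n
      · by_cases he : e < n
        · exact h w hw d hd e he
        · rw [List.getD_eq_default _ _ (show l₁.length ≤ w + (d + 1) + (e + 1) by omega), zero_mul]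
          exact mul_nonneg (getD_nonneg h₁ _) (getD_nonneg h₂ _)
      · rw [List.getD_eq_default _ _ (show l₁.length ≤ w + (d + 1) + (e + 1) by omega), zero_mul]
        exact mul_nonneg (getD_nonneg h₁ _) (getD_nonneg h₂ _)
    · rw [List.getD_eq_default _ _ (show l₂.length ≤ w by omega), mul_zero]
      exact mul_nonneg (getD_nonneg h₁ _) (getD_nonneg h₂ _)
  exact_mod_cast hcase

end Pool.Agent.R825.Fib
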