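import Mathlib
import Pool.Agent.R825.FibUni

/-!
# Factorisation of the Fibonacci-type polynomials

Helper file for `MP_dbd06c_co`.
-/

open Polynomial Finset

namespace Pool.Agent.R825.Fib

/-- `V₀ = V₁ = 1`, `V_{n+2} = V_{n+1} + X V_n`. -/
noncomputable def V : ℕ → ℝ[X]
  | 0 => 1
  | 1 => 1
  | (n + 2) => V (n + 1) + X * V n

lemma V_trig (t : ℝ) (ht : Real.cos t ≠ 0) (n : ℕ) :
    (V n).eval (-1 / (4 * Real.cos t ^ 2)) * Real.sin t * (2 * Real.cos t) ^ n =
      Real.sin ((n + 1) * t) := by
  induction n using Nat.twoStepInduction with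
  | zero => simp [V]
  | one =>
    simp only [V, eval_one, one_mul, pow_one, Nat.cast_one]
    rw [show (1 + 1 : ℝ) * t = 2 * t by ring, Real.sin_two_mul]; ring
  | more n h0 h1 =>
    simp only [V, eval_add, eval_mul, eval_X]
    have e1 : Real.sin (((n + 2 : ℕ) + 1 : ℝ) * t) =
        2 * Real.cos t * Real.sin (((n + 1 : ℕ) + 1 : ℝ) * t) - Real.sin (((n : ℕ) + 1 : ℝ) * t) := by
      have a1 : (((n + 2 : ℕ) : ℝ) + 1) * t = (((n + 1 : ℕ) : ℝ) + 1) * t + t := by push_cast; ring
      have a2 : (((n : ℕ) : ℝ) + 1) * t = (((n + 1 : ℕ) : ℝ) + 1) * t - t := by push_cast; ring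
      rw [a1, a2, Real.sin_add, Real.sin_sub]; ring
    rw [e1, ← h0, ← h1]
    have e2 : (-1 / (4 * Real.cos t ^ 2)) * (2 * Real.cos t) ^ 2 = -1 := by
      field_simp
      ring
    rw [show n + 1 + 1 = n + 2 by ring, show (2 * Real.cos t) ^ (n + 2) =
      (2 * Real.cos t) ^ 2 * (2 * Real.cos t) ^ n by ring]
    have e3 : (2 * Real.cos t) ^ (n + 1) = (2 * Real.cos t) * (2 * Real.cos t) ^ n := by ring
    rw [e3]
    linear_combination ((V n).eval (-1 / (4 * Real.cos t ^ 2)) * Real.sin t *
      (2 * Real.cos t) ^ n) * e2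

lemma natDegree_V (n : ℕ) : (V n).natDegree ≤ n / 2 := by
  induction n using Nat.twoStepInduction with
  | zero => simp [V]
  | one => simp [V]
  | more n h0 h1 =>
    simp only [V]
    refine (natDegree_add_le _ _).trans (max_le (h1.trans (by omega)) ?_)
    refine natDegree_mul_le.trans ?_
    rw [natDegree_X]
    omega

lemma V_zero (n : ℕ) : (V n).eval 0 = 1 := by
  induction n using Nat.twoStepInduction with
  | zero => simp [V]
  | one => simp [V]
  | more n h0 h1 => simp [V, h1]

/-- The angles. -/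
noncomputable def ang (N i : ℕ) : ℝ := (i + 1) * Real.pi / (2 * N + 1)

/-- The numbers `c_i`. -/
noncomputable def cc (N i : ℕ) : ℝ := 4 * Real.cos (ang N i) ^ 2

lemma ang_pos (N i : ℕ) : 0 < ang N i := by
  unfold ang
  have := Real.pi_pos
  positivity

lemma ang_lt {N i : ℕ} (hi : i < N) : ang N i < Real.pi / 2 := by
  unfold ang
  have := Real.pi_pos
  rw [div_lt_div_iff₀ (by positivity) (by norm_num)]
  have h : (i : ℝ) + 1 ≤ N := by exact_mod_cast hi
  nlinarith

lemma cos_ang_pos {N i : ℕ} (hi : i < N) : 0 < Real.cos (ang N i) := by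
  apply Real.cos_pos_of_mem_Ioo
  constructor
  · have := ang_pos N i
    have := Real.pi_pos
    linarith
  · exact ang_lt hi

lemma sin_ang_pos {N i : ℕ} (hi : i < N) : 0 < Real.sin (ang N i) := by
  apply Real.sin_pos_of_pos_of_lt_pi (ang_pos N i)
  have := ang_lt hi
  have := Real.pi_pos
  linarith

lemma cc_pos {N i : ℕ} (hi : i < N) : 0 < cc N i := by
  unfold cc
  have := cos_ang_pos hi
  positivity

lemma cc_le (N i : ℕ) : cc N i ≤ 4 := by
  unfold cc
  have h1 := Real.sin_sq_add_cos_sq (ang N i)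
  nlinarith [sq_nonneg (Real.sin (ang N i))]

lemma cc_inj {N i j : ℕ} (hi : i < N) (hj : j < N) (h : cc N i = cc N j) : i = j := by
  unfold cc at h
  have h1 := cos_ang_pos hi
  have h2 := cos_ang_pos hj
  have h3 : Real.cos (ang N i) = Real.cos (ang N j) := by
    have : Real.cos (ang N i) ^ 2 = Real.cos (ang N j) ^ 2 := by linarith
    exact (pow_left_inj₀ h1.le h2.le (by norm_num)).1 this
  have h4 : ang N i = ang N j := by
    have hp := Real.pi_pos
    apply Real.injOn_cos ⟨(ang_pos N i).le, _⟩ ⟨(ang_pos N j).le, _⟩ h3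
    · have := ang_lt hi; linarith
    · have := ang_lt hj; linarith
  unfold ang at h4
  have hp := Real.pi_pos
  field_simp at h4
  have : (i : ℝ) = j := by linarith
  exact_mod_cast this

lemma V_root {N i : ℕ} (hi : i < N) : (V (2 * N)).eval (-1 / cc N i) = 0 := by
  have h := V_trig (ang N i) (cos_ang_pos hi).ne' (2 * N)
  have e : Real.sin (((2 * N : ℕ) + 1 : ℝ) * ang N i) = 0 := by
    have : (((2 * N : ℕ) : ℝ) + 1) * ang N i = ((i + 1 : ℕ) : ℝ) * Real.pi := by
      unfold ang
      push_cast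
      field_simp
    rw [this]
    exact Real.sin_nat_mul_pi _
  rw [e] at h
  have h1 := sin_ang_pos hi
  have h2 := cos_ang_pos hi
  have h3 : (2 * Real.cos (ang N i)) ^ (2 * N) ≠ 0 := by positivity
  unfold cc
  rcases mul_eq_zero.1 h with h | h
  · rcases mul_eq_zero.1 h with h | h
    · exact h
    · exact absurd h h1.ne'
  · exact absurd h h3

/-- The factorisation of `V_{2N}`. -/
lemma V_even (N : ℕ) : V (2 * N) = ∏ i ∈ range N, (1 + C (cc N i) * X) := by
  classical
  rw [← sub_eq_zero]
  have hinj : Set.InjOn (fun i => -1 / cc N i) (range N : Set ℕ) := by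
    intro i hi j hj hij
    have hi' : i < N := by simpa using hi
    have hj' : j < N := by simpa using hj
    have h1 := cc_pos hi'
    have h2 := cc_pos hj'
    apply cc_inj hi' hj'
    simp only at hij
    rw [div_eq_div_iff h1.ne' h2.ne'] at hij
    linarith
  have hprod : ∀ i ∈ range N, (1 + C (cc N i) * X : ℝ[X]).natDegree ≤ 1 := by
    intro i _
    refine (natDegree_add_le _ _).trans (max_le (by simp)
      ((natDegree_C_mul_le _ _).trans natDegree_X_le))
  refine eq_zero_of_natDegree_lt_card_of_eval_eq_zero' _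
    (insert 0 ((range N).image fun i => -1 / cc N i)) ?_ ?_
  · intro x hx
    rw [mem_insert] at hx
    rcases hx with rfl | hx
    · rw [eval_sub, V_zero, eval_prod]
      simp
    · rw [mem_image] at hx
      obtain ⟨i, hi, rfl⟩ := hx
      have hi' : i < N := by simpa using hi
      rw [eval_sub, V_root hi', eval_prod, prod_eq_zero hi]
      · simp
      · have := cc_pos hi'
        simp only [eval_add, eval_one, eval_mul, eval_C, eval_X]
        field_simp
        ring
  · rw [card_insert_of_notMem, card_image_of_injOn hinj, card_range]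
    · refine Nat.lt_succ_of_le ?_
      refine (natDegree_sub_le _ _).trans (max_le ?_ ?_)
      · exact (natDegree_V _).trans (by omega)
      · refine (natDegree_prod_le _ _).trans ?_
        refine (sum_le_sum hprod).trans (by simp)
    · rw [mem_image]
      rintro ⟨i, hi, h⟩
      have hi' : i < N := by simpa using hi
      have := cc_pos hi'
      have h2 : -1 / cc N i < 0 := by
        apply div_neg_of_neg_of_pos (by norm_num) this
      linarith

lemma V_deriv (n : ℕ) :
    ((n : ℝ[X]) + 2) * V n = 2 * ((n : ℝ[X]) + 1) * V (n + 1)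
      - (1 + 4 * X) * derivative (V (n + 1)) := by
  induction n using Nat.twoStepInduction with
  | zero => simp [V]
  | one =>
    simp only [V, Nat.cast_one, derivative_add, derivative_one, derivative_X,
      mul_one, zero_add]
    ring
  | more n h0 h1 =>
    have e1 : V (n + 2 + 1) = V (n + 2) + X * V (n + 1) := rfl
    have e2 : V (n + 2) = V (n + 1) + X * V n := rfl
    rw [show n + 1 + 1 = n + 2 by ring] at h1
    rw [e1]
    simp only [derivative_add, derivative_mul, derivative_X, one_mul]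
    push_cast at h1 ⊢
    linear_combination h1 + X * h0 + ((n : ℝ[X]) + 2) * e2

/-- The weights. -/
noncomputable def om (N i : ℕ) : ℝ := (4 - cc N i) / (2 * N + 1)

lemma om_nonneg (N i : ℕ) : 0 ≤ om N i := by
  unfold om
  have := cc_le N i
  apply div_nonneg (by linarith) (by positivity)

/-- The formula for `V_{2N-1}`. -/
lemma V_odd (M : ℕ) : V (2 * M + 1) = ∑ i ∈ range (M + 1), C (om (M + 1) i) *
    ∏ j ∈ (range (M + 1)).erase i, (1 + C (cc (M + 1) j) * X) := by
  classical
  have h := V_deriv (2 * M + 1)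
  have hV := V_even (M + 1)
  rw [show 2 * M + 1 + 1 = 2 * (M + 1) by ring, hV, derivative_prod_finset] at h
  have hc : (C ((2 : ℝ) * M + 3) : ℝ[X]) * V (2 * M + 1) = ∑ i ∈ range (M + 1),
      C (4 - cc (M + 1) i) * ∏ j ∈ (range (M + 1)).erase i, (1 + C (cc (M + 1) j) * X) := by
    have e1 : (C ((2 : ℝ) * M + 3) : ℝ[X]) = (((2 * M + 1 : ℕ) : ℝ[X]) + 2) := by
      simp only [map_add, map_mul, map_ofNat, map_natCast]
      push_cast; ring
    rw [e1, h]
    have e2 : 2 * (((2 * M + 1 : ℕ) : ℝ[X]) + 1) * ∏ i ∈ range (M + 1),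
        (1 + C (cc (M + 1) i) * X : ℝ[X]) = ∑ i ∈ range (M + 1), 4 * ((1 + C (cc (M + 1) i) * X) *
        ∏ j ∈ (range (M + 1)).erase i, (1 + C (cc (M + 1) j) * X)) := by
      have e4 : ∀ i ∈ range (M + 1), (4 : ℝ[X]) * ((1 + C (cc (M + 1) i) * X) *
          ∏ j ∈ (range (M + 1)).erase i, (1 + C (cc (M + 1) j) * X)) =
          4 * ∏ j ∈ range (M + 1), (1 + C (cc (M + 1) j) * X) := by
        intro i hi
        rw [mul_prod_erase _ (fun j => (1 + C (cc (M + 1) j) * X : ℝ[X])) hi]
      rw [sum_congr rfl e4, sum_const, card_range, nsmul_eq_mul]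
      push_cast
      ring
    rw [e2, mul_sum, ← sum_sub_distrib]
    refine sum_congr rfl fun i _ => ?_
    simp only [derivative_add, derivative_one, derivative_mul, derivative_C, derivative_X,
      zero_mul, zero_add, mul_one, map_sub, map_ofNat]
    ring
  have h3 : ((2 : ℝ) * M + 3) ≠ 0 := by positivity
  have e3 : V (2 * M + 1) = C (((2 : ℝ) * M + 3)⁻¹) * (C ((2 : ℝ) * M + 3) * V (2 * M + 1)) := by
    rw [← mul_assoc, ← C_mul, inv_mul_cancel₀ h3, C_1, one_mul]
  rw [e3, hc, mul_sum]
  refine sum_congr rfl fun i _ => ?_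
  rw [← mul_assoc, ← C_mul]
  congr 2
  unfold om
  push_cast
  rw [show (2 : ℝ) * (M + 1) + 1 = 2 * M + 3 by ring]
  field_simp

lemma om_sum (M : ℕ) : ∑ i ∈ range (M + 1), om (M + 1) i = 1 := by
  have h := congrArg (eval 0) (V_odd M)
  rw [V_zero, eval_finsetSum] at h
  rw [h]
  refine sum_congr rfl fun i _ => ?_
  rw [eval_mul, eval_C, eval_prod]
  simp

/-! ### Passing to the variable `q` -/

/-- `P = 1 + q + 2 q²`. -/
noncomputable def P : ℝ[X] := 1 + X + 2 * X ^ 2

/-- `Q_c = P² + c q³`. -/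
noncomputable def Q (c : ℝ) : ℝ[X] := P ^ 2 + C c * X ^ 3

/-- `U₀ = 1`, `U₁ = P`, `U_{n+2} = P U_{n+1} + q³ U_n`. -/
noncomputable def U : ℕ → ℝ[X]
  | 0 => 1
  | 1 => P
  | (n + 2) => P * U (n + 1) + X ^ 3 * U n

lemma P_pos (q : ℝ) : 0 < P.eval q := by
  unfold P
  simp only [eval_add, eval_one, eval_X, eval_mul, eval_pow, eval_ofNat]
  nlinarith [sq_nonneg (q + 1 / 4)]

lemma U_eval (q : ℝ) (n : ℕ) :
    (U n).eval q = P.eval q ^ n * (V n).eval (q ^ 3 / P.eval q ^ 2) := by
  have hP := (P_pos q).ne'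
  induction n using Nat.twoStepInduction with
  | zero => simp [U, V]
  | one => simp [U, V]
  | more n h0 h1 =>
    simp only [U, V, eval_add, eval_mul, eval_X, eval_pow]
    rw [h0, h1]
    field_simp
    ring

lemma Q_eval (q c : ℝ) : (Q c).eval q = P.eval q ^ 2 * (1 + c * (q ^ 3 / P.eval q ^ 2)) := by
  have hP := (P_pos q).ne'
  unfold Q
  simp only [eval_add, eval_pow, eval_mul, eval_C, eval_X]
  field_simp

lemma U_even (N : ℕ) : U (2 * N) = ∏ i ∈ range N, Q (cc N i) := by
  apply Polynomial.funext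
  intro q
  rw [U_eval, V_even, eval_prod, eval_prod]
  simp only [Q_eval]
  rw [prod_mul_distrib, prod_const, card_range, ← pow_mul]
  simp

lemma U_odd (M : ℕ) : U (2 * M + 1) = P * ∑ i ∈ range (M + 1), C (om (M + 1) i) *
    ∏ j ∈ (range (M + 1)).erase i, Q (cc (M + 1) j) := by
  apply Polynomial.funext
  intro q
  rw [U_eval, V_odd, eval_mul, eval_finsetSum, eval_finsetSum, pow_succ', mul_assoc]
  congr 1
  rw [mul_sum]
  refine sum_congr rfl fun i hi => ?_
  rw [eval_mul, eval_mul, eval_prod, eval_prod, eval_C, eval_C]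
  simp only [Q_eval]
  rw [prod_mul_distrib, prod_const, card_erase_of_mem hi, card_range, ← pow_mul]
  simp only [eval_add, eval_one, eval_mul, eval_C, eval_X, Nat.add_sub_cancel]
  ring

end Pool.Agent.R825.Fib
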