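import Mathlib
import Pool.Agent.R825.FibUni2

/-!
# The polynomials as positive combinations, and the finite checks

Helper file for `MP_dbd06c_co`.
-/

open Polynomial Finset

namespace Pool.Agent.R825.Fib

/-- The sequence over the reals. -/
noncomputable def FR : ℕ → ℝ[X]
  | 0 => 1
  | 1 => 1
  | (n + 2) => P * FR (n + 1) + X ^ 3 * FR n

lemma FR_U (n : ℕ) : FR (n + 2) = U (n + 1) + X ^ 3 * U n := by
  induction n using Nat.twoStepInduction with
  | zero => simp [FR, U]
  | one => simp only [FR, U]; ring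
  | more n h0 h1 =>
    have e1 : FR (n + 2 + 2) = P * FR (n + 1 + 2) + X ^ 3 * FR (n + 2) := rfl
    have e2 : U (n + 2 + 1) = P * U (n + 1 + 1) + X ^ 3 * U (n + 1) := rfl
    have e3 : U (n + 2) = P * U (n + 1) + X ^ 3 * U n := rfl
    rw [e1, h0, h1, e2, e3]
    ring

/-- Odd family. -/
noncomputable def Eo (c : ℝ) : ℝ[X] := Q c + X ^ 3 * P

/-- Even family. -/
noncomputable def Ee (c : ℝ) : ℝ[X] := (P + X ^ 3) * Q c + X ^ 3 * P

lemma prodQ (M : ℕ) : ∏ i ∈ range (M + 1), Q (cc (M + 1) i) = ∑ i ∈ range (M + 1),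
    C (om (M + 1) i) * (Q (cc (M + 1) i) * ∏ j ∈ (range (M + 1)).erase i, Q (cc (M + 1) j)) := by
  have h : ∀ i ∈ range (M + 1), C (om (M + 1) i) * (Q (cc (M + 1) i) *
      ∏ j ∈ (range (M + 1)).erase i, Q (cc (M + 1) j)) =
      C (om (M + 1) i) * ∏ j ∈ range (M + 1), Q (cc (M + 1) j) := by
    intro i hi
    rw [mul_prod_erase _ (fun j => Q (cc (M + 1) j)) hi]
  rw [sum_congr rfl h, ← sum_mul, ← map_sum, om_sum, C_1, one_mul]

/-- `F_{2N+1}` for `N = M + 1`. -/
lemma FR_odd (M : ℕ) : FR (2 * M + 3) = ∑ i ∈ range (M + 1), C (om (M + 1) i) *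
    (Eo (cc (M + 1) i) * ∏ j ∈ (range (M + 1)).erase i, Q (cc (M + 1) j)) := by
  rw [show 2 * M + 3 = 2 * M + 1 + 2 by ring, FR_U, show 2 * M + 1 + 1 = 2 * (M + 1) by ring,
    U_even, U_odd, prodQ, mul_sum, mul_sum, ← sum_add_distrib]
  refine sum_congr rfl fun i _ => ?_
  unfold Eo
  ring

/-- `F_{2N+2}` for `N = M + 1`. -/
lemma FR_even (M : ℕ) : FR (2 * M + 4) = ∑ i ∈ range (M + 1), C (om (M + 1) i) *
    (Ee (cc (M + 1) i) * ∏ j ∈ (range (M + 1)).erase i, Q (cc (M + 1) j)) := by
  have e1 : U (2 * (M + 1) + 1) = P * U (2 * (M + 1)) + X ^ 3 * U (2 * M + 1) := rfl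
  rw [show 2 * M + 4 = 2 * (M + 1) + 2 by ring, FR_U, e1,
    U_even, U_odd, prodQ, mul_sum, mul_sum, mul_sum, mul_sum, ← sum_add_distrib,
    ← sum_add_distrib]
  refine sum_congr rfl fun i _ => ?_
  unfold Ee
  ring

/-! ### Convexity -/

/-- The two weights. -/
noncomputable def wt (c : ℝ) (b : Bool) : ℝ := if b then c / 4 else (4 - c) / 4

/-- The two vertices. -/
def vt (b : Bool) : ℝ := if b then 4 else 0

lemma wt_nonneg {c : ℝ} (h0 : 0 ≤ c) (h4 : c ≤ 4) (b : Bool) : 0 ≤ wt c b := by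
  unfold wt
  split_ifs
  · linarith
  · linarith

lemma Q_split (c : ℝ) : Q c = ∑ b : Bool, C (wt c b) * Q (vt b) := by
  unfold Q wt vt
  simp only [Fintype.sum_bool, if_true, Bool.false_eq_true, if_false]
  have h : (C (c / 4) : ℝ[X]) + C ((4 - c) / 4) = 1 := by
    rw [← C_add, ← C_1]; congr 1; ring
  have h2 : (C c : ℝ[X]) = C (c / 4) * C 4 := by
    rw [← C_mul]; congr 1; ring
  rw [h2, C_0]
  linear_combination (-(P ^ 2)) * h

lemma Eo_split (c : ℝ) : Eo c = ∑ b : Bool, C (wt c b) * Eo (vt b) := by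
  unfold Eo
  rw [Q_split c]
  unfold wt vt
  simp only [Fintype.sum_bool, if_true, Bool.false_eq_true, if_false]
  have h : (C (c / 4) : ℝ[X]) + C ((4 - c) / 4) = 1 := by
    rw [← C_add, ← C_1]; congr 1; ring
  linear_combination (-(X ^ 3 * P)) * h

lemma Ee_split (c : ℝ) : Ee c = ∑ b : Bool, C (wt c b) * Ee (vt b) := by
  unfold Ee
  rw [Q_split c]
  unfold wt vt
  simp only [Fintype.sum_bool, if_true, Bool.false_eq_true, if_false]
  have h : (C (c / 4) : ℝ[X]) + C ((4 - c) / 4) = 1 := by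
    rw [← C_add, ← C_1]; congr 1; ring
  linear_combination (-(X ^ 3 * P)) * h

/-- A product of affine functions of `c ∈ [0,4]`. -/
lemma two_split {E G : ℝ → ℝ[X]} (hE : ∀ c, E c = ∑ b : Bool, C (wt c b) * E (vt b))
    (hG : ∀ c, G c = ∑ b : Bool, C (wt c b) * G (vt b)) (c d : ℝ) :
    E c * G d = ∑ x : Bool × Bool, C (wt c x.1 * wt d x.2) * (E (vt x.1) * G (vt x.2)) := by
  rw [hE c, hG d, sum_mul_sum, Fintype.sum_prod_type]
  refine sum_congr rfl fun i _ => sum_congr rfl fun j _ => ?_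
  rw [C_mul]; ring

lemma three_split {E G H : ℝ → ℝ[X]} (hE : ∀ c, E c = ∑ b : Bool, C (wt c b) * E (vt b))
    (hG : ∀ c, G c = ∑ b : Bool, C (wt c b) * G (vt b))
    (hH : ∀ c, H c = ∑ b : Bool, C (wt c b) * H (vt b)) (c d e : ℝ) :
    E c * G d * H e = ∑ x : (Bool × Bool) × Bool, C (wt c x.1.1 * wt d x.1.2 * wt e x.2) *
      (E (vt x.1.1) * G (vt x.1.2) * H (vt x.2)) := by
  rw [two_split hE hG c d, hH e, sum_mul_sum]
  conv_rhs => rw [Fintype.sum_prod_type]
  refine sum_congr rfl fun i _ => sum_congr rfl fun j _ => ?_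
  simp only [C_mul]; ring

/-- List for `Eo (vt x) * Q (vt y)`. -/
def Lo : Bool → Bool → List ℤ
  | false, false => [1,4,14,29,52,65,69,50,28,8]
  | false, true => [1,4,14,33,60,85,89,70,36,8]
  | true, false => [1,4,14,33,60,85,85,66,28,8]
  | true, true => [1,4,14,37,68,105,121,86,36,8]

/-- List for `Ee (vt x) * Q (vt y)`. -/
def Le : Bool → Bool → List ℤ
  | false, false => [1,5,20,52,112,184,251,267,228,144,64,16]
  | false, true => [1,5,20,56,124,220,311,351,304,192,80,16]
  | true, false => [1,5,20,56,124,220,307,347,296,192,80,16]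
  | true, true => [1,5,20,60,136,256,383,447,404,256,96,16]

lemma Q0 : Q (vt false) = 1 + 2 * X + 5 * X ^ 2 + 4 * X ^ 3 + 4 * X ^ 4 := by
  unfold Q P vt
  simp only [Bool.false_eq_true, if_false, C_0]
  ring

lemma Q1 : Q (vt true) = 1 + 2 * X + 5 * X ^ 2 + 8 * X ^ 3 + 4 * X ^ 4 := by
  unfold Q P vt
  simp only [if_true]
  rw [show (C 4 : ℝ[X]) = 4 from rfl]
  ring

lemma Lo_eq (x y : Bool) : Eo (vt x) * Q (vt y) = lp (Lo x y) := by
  unfold lp Eo
  cases x <;> cases y <;>
  · simp only [Q0, Q1, P, Lo, List.length_cons, List.length_nil, sum_range_succ, sum_range_zero,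
      List.getD_cons_zero, List.getD_cons_succ]
    norm_num
    simp only [map_ofNat]
    ring

lemma Le_eq (x y : Bool) : Ee (vt x) * Q (vt y) = lp (Le x y) := by
  unfold lp Ee
  cases x <;> cases y <;>
  · simp only [Q0, Q1, P, Le, List.length_cons, List.length_nil, sum_range_succ, sum_range_zero,
      List.getD_cons_zero, List.getD_cons_succ]
    norm_num
    simp only [map_ofNat]
    ring

/-- List for `Q (vt x) * Q (vt y)`. -/
def L2 : Bool → Bool → List ℤ
  | false, false => [1,4,14,28,49,56,56,32,16]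
  | false, true => [1,4,14,32,57,76,72,48,16]
  | true, false => [1,4,14,32,57,76,72,48,16]
  | true, true => [1,4,14,36,65,96,104,64,16]

/-- List for `Q (vt x) * Q (vt y) * Q (vt z)`. -/
def L3 : Bool → Bool → Bool → List ℤ
  | false, false, false => [1,6,27,80,195,366,581,732,780,640,432,192,64]
  | false, false, true => [1,6,27,84,211,422,693,928,1004,864,560,256,64]
  | false, true, false => [1,6,27,84,211,422,693,928,1004,864,560,256,64]
  | true, false, false => [1,6,27,84,211,422,693,928,1004,864,560,256,64]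
  | false, true, true => [1,6,27,88,227,478,821,1156,1308,1152,752,320,64]
  | true, false, true => [1,6,27,88,227,478,821,1156,1308,1152,752,320,64]
  | true, true, false => [1,6,27,88,227,478,821,1156,1308,1152,752,320,64]
  | true, true, true => [1,6,27,92,243,534,965,1416,1692,1568,1008,384,64]

lemma L2_eq (x y : Bool) : Q (vt x) * Q (vt y) = lp (L2 x y) := by
  unfold lp
  cases x <;> cases y <;>
  · simp only [Q0, Q1, L2, List.length_cons, List.length_nil, sum_range_succ, sum_range_zero,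
      List.getD_cons_zero, List.getD_cons_succ]
    norm_num
    simp only [map_ofNat]
    ring

lemma L3_eq (x y z : Bool) : Q (vt x) * Q (vt y) * Q (vt z) = lp (L3 x y z) := by
  unfold lp
  cases x <;> cases y <;> cases z <;>
  · simp only [Q0, Q1, L3, List.length_cons, List.length_nil, sum_range_succ, sum_range_zero,
      List.getD_cons_zero, List.getD_cons_succ]
    norm_num
    simp only [map_ofNat]
    ring

set_option maxRecDepth 100000 in
lemma chk_o : ∀ x y x' y' : Bool, nnc (Lo x y) = true ∧ chk 10 (Lo x y) (Lo x' y') = true := by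
  decide +kernel

set_option maxRecDepth 100000 in
lemma chk_e : ∀ x y x' y' : Bool, nnc (Le x y) = true ∧ chk 12 (Le x y) (Le x' y') = true := by
  decide +kernel

set_option maxRecDepth 100000 in
lemma chk_2 : ∀ x y x' y' : Bool, nnc (L2 x y) = true ∧ chk 9 (L2 x y) (L2 x' y') = true := by
  decide +kernel

set_option maxRecDepth 100000 in
lemma chk_3 : ∀ x y z x' y' z' : Bool,
    nnc (L3 x y z) = true ∧ chk 13 (L3 x y z) (L3 x' y' z') = true := by
  decide +kernel

end Pool.Agent.R825.Fib
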