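import Mathlib
import Pool.Agent.R825.FibUni3

/-!
# Conclusion

Helper file for `MP_dbd06c_co`.
-/

open Polynomial Finset

namespace Pool.Agent.R825.Fib

lemma R_two {E G : ℝ → ℝ[X]} (hE : ∀ c, E c = ∑ b : Bool, C (wt c b) * E (vt b))
    (hG : ∀ c, G c = ∑ b : Bool, C (wt c b) * G (vt b)) (L : Bool → Bool → List ℤ)
    (hL : ∀ x y : Bool, E (vt x) * G (vt y) = lp (L x y)) (n : ℕ)
    (hchk : ∀ x y x' y' : Bool, nnc (L x y) = true ∧ chk n (L x y) (L x' y') = true)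
    {c d c' d' : ℝ} (hc : 0 ≤ c ∧ c ≤ 4) (hd : 0 ≤ d ∧ d ≤ 4) (hc' : 0 ≤ c' ∧ c' ≤ 4)
    (hd' : 0 ≤ d' ∧ d' ≤ 4) : R (E c * G d) (E c' * G d') := by
  rw [two_split hE hG c d, two_split hE hG c' d']
  refine R_sum _ _ _ _ _ _ ?_ ?_ ?_
  · exact fun x _ => mul_nonneg (wt_nonneg hc.1 hc.2 _) (wt_nonneg hd.1 hd.2 _)
  · exact fun x _ => mul_nonneg (wt_nonneg hc'.1 hc'.2 _) (wt_nonneg hd'.1 hd'.2 _)
  · intro x _ y _
    rw [hL, hL]
    exact R_lp (hchk x.1 x.2 y.1 y.2).1 (hchk y.1 y.2 x.1 x.2).1 (hchk x.1 x.2 y.1 y.2).2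

lemma NN_two {E G : ℝ → ℝ[X]} (hE : ∀ c, E c = ∑ b : Bool, C (wt c b) * E (vt b))
    (hG : ∀ c, G c = ∑ b : Bool, C (wt c b) * G (vt b)) (L : Bool → Bool → List ℤ)
    (hL : ∀ x y : Bool, E (vt x) * G (vt y) = lp (L x y)) (n : ℕ)
    (hchk : ∀ x y x' y' : Bool, nnc (L x y) = true ∧ chk n (L x y) (L x' y') = true)
    {c d : ℝ} (hc : 0 ≤ c ∧ c ≤ 4) (hd : 0 ≤ d ∧ d ≤ 4) : NN (E c * G d) := by
  rw [two_split hE hG c d]
  refine NN_sum _ _ _ ?_ ?_
  · exact fun x _ => mul_nonneg (wt_nonneg hc.1 hc.2 _) (wt_nonneg hd.1 hd.2 _)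
  · intro x _
    rw [hL]
    exact NN_lp (hchk x.1 x.2 x.1 x.2).1

lemma R_three {c d e : ℝ} (hc : 0 ≤ c ∧ c ≤ 4) (hd : 0 ≤ d ∧ d ≤ 4) (he : 0 ≤ e ∧ e ≤ 4) :
    R (Q c * Q d * Q e) (Q c * Q d * Q e) := by
  rw [three_split Q_split Q_split Q_split c d e]
  refine R_sum _ _ _ _ _ _ ?_ ?_ ?_
  · exact fun x _ => mul_nonneg (mul_nonneg (wt_nonneg hc.1 hc.2 _) (wt_nonneg hd.1 hd.2 _))
      (wt_nonneg he.1 he.2 _)
  · exact fun x _ => mul_nonneg (mul_nonneg (wt_nonneg hc.1 hc.2 _) (wt_nonneg hd.1 hd.2 _))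
      (wt_nonneg he.1 he.2 _)
  · intro x _ y _
    rw [L3_eq, L3_eq]
    exact R_lp (chk_3 x.1.1 x.1.2 x.2 y.1.1 y.1.2 y.2).1 (chk_3 y.1.1 y.1.2 y.2 x.1.1 x.1.2 x.2).1
      (chk_3 x.1.1 x.1.2 x.2 y.1.1 y.1.2 y.2).2

lemma NN_Q {c : ℝ} (hc : 0 ≤ c ∧ c ≤ 4) : NN (Q c) := by
  rw [Q_split c]
  refine NN_sum _ _ _ (fun b _ => wt_nonneg hc.1 hc.2 b) ?_
  intro b _
  have h0 : Q (vt false) = lp [1, 2, 5, 4, 4] := by
    rw [Q0]; unfold lp
    simp only [List.length_cons, List.length_nil, sum_range_succ, sum_range_zero,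
      List.getD_cons_zero, List.getD_cons_succ]
    norm_num
    simp only [map_ofNat]
  have h1 : Q (vt true) = lp [1, 2, 5, 8, 4] := by
    rw [Q1]; unfold lp
    simp only [List.length_cons, List.length_nil, sum_range_succ, sum_range_zero,
      List.getD_cons_zero, List.getD_cons_succ]
    norm_num
    simp only [map_ofNat]
  cases b
  · rw [h0]; exact NN_lp (by decide)
  · rw [h1]; exact NN_lp (by decide)

lemma prodQ_R : ∀ l : List ℝ, (∀ c ∈ l, 0 ≤ c ∧ c ≤ 4) →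
    NN (l.map Q).prod ∧ (l.length ≠ 1 → R (l.map Q).prod (l.map Q).prod)
  | [], _ => by
      refine ⟨fun k => ?_, fun _ w d e => ?_⟩
      · simp only [List.map_nil, List.prod_nil, coeff_one]
        split_ifs <;> norm_num
      · simp [coeff_one]
  | [a], h => by
      refine ⟨?_, fun h1 => absurd rfl h1⟩
      simpa using NN_Q (h a (by simp))
  | [a, b], h => by
      have ha := h a (by simp)
      have hb := h b (by simp)
      refine ⟨?_, fun _ => ?_⟩
      · simpa using (NN_Q ha).mul (NN_Q hb)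
      · simpa using R_two Q_split Q_split L2 L2_eq 9 chk_2 ha hb ha hb
  | [a, b, c], h => by
      have ha := h a (by simp)
      have hb := h b (by simp)
      have hc := h c (by simp)
      refine ⟨?_, fun _ => ?_⟩
      · simpa [mul_assoc] using ((NN_Q ha).mul (NN_Q hb)).mul (NN_Q hc)
      · simpa [mul_assoc] using R_three ha hb hc
  | a :: b :: c :: d :: l, h => by
      have ha := h a (by simp)
      have hb := h b (by simp)
      obtain ⟨h1, h2⟩ := prodQ_R (c :: d :: l) (fun x hx => h x (by simp at hx ⊢; tauto))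
      have e : ((a :: b :: c :: d :: l).map Q).prod =
          (Q a * Q b) * ((c :: d :: l).map Q).prod := by
        simp only [List.map_cons, List.prod_cons]; ring
      rw [e]
      have hN := (NN_Q ha).mul (NN_Q hb)
      refine ⟨hN.mul h1, fun _ => ?_⟩
      exact R_mul hN hN (R_two Q_split Q_split L2 L2_eq 9 chk_2 ha hb ha hb) h1 (h2 (by simp))

lemma prodQ_fin (c : ℕ → ℝ) (s : Finset ℕ) (hc : ∀ i ∈ s, 0 ≤ c i ∧ c i ≤ 4) :
    NN (∏ i ∈ s, Q (c i)) ∧ (s.card ≠ 1 → R (∏ i ∈ s, Q (c i)) (∏ i ∈ s, Q (c i))) := by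
  have e : ∏ i ∈ s, Q (c i) = ((s.toList.map c).map Q).prod := by
    rw [List.map_map]
    exact (prod_map_toList s (Q ∘ c)).symm
  have h := prodQ_R (s.toList.map c) (by
    intro x hx
    rw [List.mem_map] at hx
    obtain ⟨i, hi, rfl⟩ := hx
    exact hc i (by simpa using hi))
  rw [e]
  refine ⟨h.1, fun h1 => h.2 (by simpa using h1)⟩

section main

variable {E : ℝ → ℝ[X]}
  (hER : ∀ c d c' d' : ℝ, 0 ≤ c ∧ c ≤ 4 → 0 ≤ d ∧ d ≤ 4 → 0 ≤ c' ∧ c' ≤ 4 → 0 ≤ d' ∧ d' ≤ 4 →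
    R (E c * Q d) (E c' * Q d'))
  (hEN : ∀ c d : ℝ, 0 ≤ c ∧ c ≤ 4 → 0 ≤ d ∧ d ≤ 4 → NN (E c * Q d))

include hEN in
lemma NN_T (c : ℕ → ℝ) (s : Finset ℕ) (hc : ∀ i ∈ s, 0 ≤ c i ∧ c i ≤ 4) (hs : 2 ≤ s.card)
    {i : ℕ} (hi : i ∈ s) : NN (E (c i) * ∏ k ∈ s.erase i, Q (c k)) := by
  obtain ⟨k, hk, hki⟩ := exists_mem_ne (show 1 < s.card by omega) i
  have hk' : k ∈ s.erase i := by simp [hk, hki]
  rw [← mul_prod_erase _ (fun k => Q (c k)) hk', ← mul_assoc]
  exact (hEN _ _ (hc i hi) (hc k hk)).mul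
    (prodQ_fin c _ (fun x hx => hc x (by simp at hx; tauto))).1

include hER hEN in
lemma R_T (c : ℕ → ℝ) (s : Finset ℕ) (hc : ∀ i ∈ s, 0 ≤ c i ∧ c i ≤ 4) (hs : 2 ≤ s.card)
    (hs3 : s.card ≠ 3) {i j : ℕ} (hi : i ∈ s) (hj : j ∈ s) :
    R (E (c i) * ∏ k ∈ s.erase i, Q (c k)) (E (c j) * ∏ k ∈ s.erase j, Q (c k)) := by
  by_cases hij : i = j
  · subst hij
    obtain ⟨k, hk, hki⟩ := exists_mem_ne (show 1 < s.card by omega) i
    have hk' : k ∈ s.erase i := by simp [hk, hki]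
    rw [← mul_prod_erase _ (fun k => Q (c k)) hk', ← mul_assoc]
    have h := prodQ_fin c ((s.erase i).erase k) (fun x hx => hc x (by simp at hx; tauto))
    refine R_mul (hEN _ _ (hc i hi) (hc k hk)) (hEN _ _ (hc i hi) (hc k hk))
      (hER _ _ _ _ (hc i hi) (hc k hk) (hc i hi) (hc k hk)) h.1 (h.2 ?_)
    rw [card_erase_of_mem hk', card_erase_of_mem hi]
    omega
  · have hj' : j ∈ s.erase i := by simp [hj, Ne.symm hij]
    have hi' : i ∈ s.erase j := by simp [hi, hij]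
    rw [← mul_prod_erase _ (fun k => Q (c k)) hj', ← mul_prod_erase _ (fun k => Q (c k)) hi',
      ← mul_assoc, ← mul_assoc, erase_right_comm (a := j)]
    have h := prodQ_fin c ((s.erase i).erase j) (fun x hx => hc x (by simp at hx; tauto))
    refine R_mul (hEN _ _ (hc i hi) (hc j hj)) (hEN _ _ (hc j hj) (hc i hi))
      (hER _ _ _ _ (hc i hi) (hc j hj) (hc j hj) (hc i hi)) h.1 (h.2 ?_)
    rw [card_erase_of_mem hj', card_erase_of_mem hi]
    omega

include hER hEN in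
lemma R_comb (M : ℕ) (hM : 1 ≤ M) (hM2 : M ≠ 2) :
    NN (∑ i ∈ range (M + 1), C (om (M + 1) i) *
      (E (cc (M + 1) i) * ∏ j ∈ (range (M + 1)).erase i, Q (cc (M + 1) j))) ∧
    R (∑ i ∈ range (M + 1), C (om (M + 1) i) *
      (E (cc (M + 1) i) * ∏ j ∈ (range (M + 1)).erase i, Q (cc (M + 1) j)))
     (∑ i ∈ range (M + 1), C (om (M + 1) i) *
      (E (cc (M + 1) i) * ∏ j ∈ (range (M + 1)).erase i, Q (cc (M + 1) j))) := by
  have hc : ∀ i ∈ range (M + 1), 0 ≤ cc (M + 1) i ∧ cc (M + 1) i ≤ 4 := by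
    intro i hi
    exact ⟨(cc_pos (by simpa using hi)).le, cc_le _ _⟩
  constructor
  · refine NN_sum _ _ _ (fun i _ => om_nonneg _ _) ?_
    intro i hi
    exact NN_T hEN _ _ hc (by rw [card_range]; omega) hi
  · refine R_sum _ _ _ _ _ _ (fun i _ => om_nonneg _ _) (fun i _ => om_nonneg _ _) ?_
    intro i hi j hj
    exact R_T hER hEN _ _ hc (by rw [card_range]; omega) (by rw [card_range]; omega) hi hj

end main

lemma main_odd (M : ℕ) (hM : 1 ≤ M) (hM2 : M ≠ 2) :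
    NN (FR (2 * M + 3)) ∧ R (FR (2 * M + 3)) (FR (2 * M + 3)) := by
  rw [FR_odd]
  exact R_comb (fun c d c' d' hc hd hc' hd' => R_two Eo_split Q_split Lo Lo_eq 10 chk_o hc hd hc' hd')
    (fun c d hc hd => NN_two Eo_split Q_split Lo Lo_eq 10 chk_o hc hd) M hM hM2

lemma main_even (M : ℕ) (hM : 1 ≤ M) (hM2 : M ≠ 2) :
    NN (FR (2 * M + 4)) ∧ R (FR (2 * M + 4)) (FR (2 * M + 4)) := by
  rw [FR_even]
  exact R_comb (fun c d c' d' hc hd hc' hd' => R_two Ee_split Q_split Le Le_eq 12 chk_e hc hd hc' hd')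
    (fun c d hc hd => NN_two Ee_split Q_split Le Le_eq 12 chk_e hc hd) M hM hM2

/-- The first polynomials. -/
def FL : ℕ → List ℤ
  | 0 => [1]
  | 1 => [1]
  | 2 => [1,1,2,1]
  | 3 => [1,2,5,6,5,2]
  | 4 => [1,3,9,16,22,21,13,4]
  | 5 => [1,4,14,32,58,80,84,64,32,8]
  | 6 => [1,5,20,55,121,211,296,330,285,181,76,16]
  | 7 => [1,6,27,86,220,456,781,1106,1287,1210,891,486,176,32]
  | 8 => [1,7,35,126,365,868,1732,2920,4166,5005,5005,4082,2625,1256,400,64]
  | _ => []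

lemma FL_step (n : ℕ) (hn : n ≤ 6) (h0 : FR n = lp (FL n)) (h1 : FR (n + 1) = lp (FL (n + 1))) :
    FR (n + 2) = lp (FL (n + 2)) := by
  have e : FR (n + 2) = P * FR (n + 1) + X ^ 3 * FR n := rfl
  rw [e, h0, h1]
  interval_cases n <;>
  · unfold lp P
    simp only [FL, List.length_cons, List.length_nil, sum_range_succ, sum_range_zero,
      List.getD_cons_zero, List.getD_cons_succ]
    norm_num
    simp only [map_ofNat]
    try ring

lemma FR_FL : ∀ n, n ≤ 7 → FR n = lp (FL n) ∧ FR (n + 1) = lp (FL (n + 1)) := by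
  intro n
  induction n with
  | zero =>
    intro _
    constructor <;> simp [FR, FL, lp]
  | succ n ih =>
    intro hn
    obtain ⟨h0, h1⟩ := ih (by omega)
    exact ⟨h1, FL_step n (by omega) h0 h1⟩

set_option maxRecDepth 100000 in
lemma chk_FL : (nnc (FL 4) = true ∧ chk 8 (FL 4) (FL 4) = true) ∧
    (nnc (FL 7) = true ∧ chk 14 (FL 7) (FL 7) = true) ∧
    (nnc (FL 8) = true ∧ chk 16 (FL 8) (FL 8) = true) := by
  decide +kernel

/-- Total positivity of order two for all indices from four on. -/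
theorem main_R (n : ℕ) (hn : 4 ≤ n) : NN (FR n) ∧ R (FR n) (FR n) := by
  obtain ⟨⟨a1, a2⟩, ⟨b1, b2⟩, c1, c2⟩ := chk_FL
  by_cases h4 : n = 4
  · subst h4
    rw [(FR_FL 4 (by omega)).1]
    exact ⟨NN_lp a1, R_lp a1 a1 a2⟩
  by_cases h7 : n = 7
  · subst h7
    rw [(FR_FL 7 (by omega)).1]
    exact ⟨NN_lp b1, R_lp b1 b1 b2⟩
  by_cases h8 : n = 8
  · subst h8
    rw [(FR_FL 7 (by omega)).2]
    exact ⟨NN_lp c1, R_lp c1 c1 c2⟩
  rcases Nat.even_or_odd' n with ⟨k, rfl | rfl⟩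
  · obtain ⟨M, rfl⟩ : ∃ M, k = M + 2 := ⟨k - 2, by omega⟩
    rw [show 2 * (M + 2) = 2 * M + 4 by ring]
    exact main_even M (by omega) (by omega)
  · obtain ⟨M, rfl⟩ : ∃ M, k = M + 1 := ⟨k - 1, by omega⟩
    rw [show 2 * (M + 1) + 1 = 2 * M + 3 by ring]
    exact main_odd M (by omega) (by omega)

lemma FR_ne (n : ℕ) : FR n ≠ 0 := by
  have h : (FR n).eval 0 = 1 := by
    induction n using Nat.twoStepInduction with
    | zero => simp [FR]
    | one => simp [FR]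
    | more n h0 h1 => simp [FR, P, h1]
  intro h0
  rw [h0] at h
  simp at h

/-- Unimodality, over the reals. -/
theorem main_unimodal (n : ℕ) : ∃ m, m ≤ (FR n).natDegree ∧
    (∀ i j, i ≤ j → j ≤ m → (FR n).coeff i ≤ (FR n).coeff j) ∧
      (∀ i j, m ≤ i → i ≤ j → (FR n).coeff j ≤ (FR n).coeff i) := by
  by_cases hn : 4 ≤ n
  · obtain ⟨h1, h2⟩ := main_R n hn
    exact unimodal_of_R h1 h2 (FR_ne n)
  · have hfl : FR n = lp (FL n) := (FR_FL n (by omega)).1
    have key : ∀ m, (FL n).getD m 0 ≠ 0 →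
        (∀ i j, i ≤ j → j ≤ m → (FL n).getD i 0 ≤ (FL n).getD j 0) →
        (∀ i, i < 6 → ∀ j, j < 6 → m ≤ i → i ≤ j → (FL n).getD j 0 ≤ (FL n).getD i 0) →
        nnc (FL n) = true → (FL n).length ≤ 6 →
        ∃ m, m ≤ (FR n).natDegree ∧
          (∀ i j, i ≤ j → j ≤ m → (FR n).coeff i ≤ (FR n).coeff j) ∧
          (∀ i j, m ≤ i → i ≤ j → (FR n).coeff j ≤ (FR n).coeff i) := by
      intro m h1 h2 h3 h4 h5
      refine ⟨m, ?_, ?_, ?_⟩
      · apply le_natDegree_of_ne_zero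
        rw [hfl, coeff_lp]
        exact_mod_cast h1
      · intro i j hij hj
        rw [hfl, coeff_lp, coeff_lp]
        exact_mod_cast h2 i j hij hj
      · intro i j hi hij
        rw [hfl, coeff_lp, coeff_lp]
        by_cases hj6 : j < 6
        · exact_mod_cast h3 i (by omega) j hj6 hi hij
        · rw [List.getD_eq_default _ _ (show (FL n).length ≤ j by omega)]
          exact_mod_cast getD_nonneg h4 i
    have hlt : n < 4 := by omega
    interval_cases n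
    · refine key 0 (by decide) ?_ (by decide) (by decide) (by decide)
      intro i j hij hj
      have : i = 0 := by omega
      have : j = 0 := by omega
      subst_vars; exact le_rfl
    · refine key 0 (by decide) ?_ (by decide) (by decide) (by decide)
      intro i j hij hj
      have : i = 0 := by omega
      have : j = 0 := by omega
      subst_vars; exact le_rfl
    · refine key 2 (by decide) ?_ (by decide) (by decide) (by decide)
      intro i j hij hj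
      interval_cases j <;> interval_cases i <;> decide
    · refine key 3 (by decide) ?_ (by decide) (by decide) (by decide)
      intro i j hij hj
      interval_cases j <;> interval_cases i <;> decide

end Pool.Agent.R825.Fib
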