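import Mathlib

/-!
# A fine Baire topology on a product of finite groups

Let `G n` be finite groups.  Call a sequence of subsets `E n ⊆ G n` small if `|E n| / |G n| → 0`.
On the product we consider the topology whose basic neighbourhoods of `x` are the sets of all `y`
which agree with `x` below `m` and satisfy `y n ∉ E n` for `n ≥ m`, where `E` is small.  This
topology is finer than the product topology, invariant under right translations and it is Baire.

The main fact: a null-finite set with the Baire property in the fine topology is meager in the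
fine topology.
-/

namespace Pool.Agent.R825.FineBaire

open Set Filter Topology

/-- A subset `B` of a product of groups (more generally of any topological group) is null-finite if
there is a sequence `x k → 1` such that for every `x` only finitely many `k` satisfy
`x * x k ∈ B`. -/
def NullFinite {X : Type*} [Group X] [TopologicalSpace X] (B : Set X) : Prop :=
  ∃ s : ℕ → X, Tendsto s atTop (𝓝 1) ∧ ∀ x : X, {k | x * s k ∈ B}.Finite

variable {G : ℕ → Type*}

/-- `|E n| / |G n| → 0`, written without division. -/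
def Small (E : ∀ n, Set (G n)) : Prop :=
  ∀ K : ℕ, ∀ᶠ n in atTop, K * (E n).ncard ≤ Nat.card (G n)

lemma Small.empty : Small (G := G) fun _ => ∅ := by
  intro K
  exact Eventually.of_forall fun n => by simp

lemma Small.union [∀ n, Finite (G n)] {E F : ∀ n, Set (G n)} (hE : Small E) (hF : Small F) :
    Small fun n => E n ∪ F n := by
  intro K
  filter_upwards [hE (2 * K), hF (2 * K)] with n h1 h2
  have h3 : (E n ∪ F n).ncard ≤ (E n).ncard + (F n).ncard := Set.ncard_union_le _ _
  have h4 : K * (E n ∪ F n).ncard ≤ K * ((E n).ncard + (F n).ncard) := Nat.mul_le_mul_left K h3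
  nlinarith

/-- The product, to be equipped with the fine topology. -/
structure Fine (G : ℕ → Type*) where
  /-- The underlying point. -/
  pt : ∀ n, G n

/-- Basic open sets. -/
def Bas (m : ℕ) (t : ∀ n, G n) (E : ∀ n, Set (G n)) : Set (Fine G) :=
  {x | (∀ n < m, x.pt n = t n) ∧ ∀ n, m ≤ n → x.pt n ∉ E n}

lemma Bas.congr {m : ℕ} {t : ∀ n, G n} {E : ∀ n, Set (G n)} {x : Fine G} (hx : x ∈ Bas m t E) :
    Bas m x.pt E = Bas m t E := by
  ext y
  constructor
  · intro hy
    exact ⟨fun n hn => (hy.1 n hn).trans (hx.1 n hn), hy.2⟩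
  · intro hy
    exact ⟨fun n hn => (hy.1 n hn).trans (hx.1 n hn).symm, hy.2⟩

lemma Bas.self_of_mem {m : ℕ} {t : ∀ n, G n} {E : ∀ n, Set (G n)} {x : Fine G}
    (hx : x ∈ Bas m t E) : x ∈ Bas m x.pt E := by
  rw [Bas.congr hx]
  exact hx

lemma Bas.mono {m m' : ℕ} {x : Fine G} {E : ∀ n, Set (G n)} (hx : x ∈ Bas m x.pt E)
    (h : m ≤ m') : Bas m' x.pt E ⊆ Bas m x.pt E := by
  intro y hy
  refine ⟨fun n hn => hy.1 n (hn.trans_le h), fun n hn => ?_⟩
  rcases lt_or_ge n m' with h1 | h1
  · rw [hy.1 n h1]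
    exact hx.2 n hn
  · exact hy.2 n h1

lemma Bas.mem_mono {m m' : ℕ} {x : Fine G} {E : ∀ n, Set (G n)} (hx : x ∈ Bas m x.pt E)
    (h : m ≤ m') : x ∈ Bas m' x.pt E :=
  ⟨fun _ _ => rfl, fun n hn => hx.2 n (h.trans hn)⟩

variable [∀ n, Finite (G n)]

/-- The fine topology. -/
instance fineTop : TopologicalSpace (Fine G) where
  IsOpen U := ∀ x ∈ U, ∃ m E, Small E ∧ x ∈ Bas m x.pt E ∧ Bas m x.pt E ⊆ U
  isOpen_univ := fun _ _ => ⟨0, fun _ => ∅, Small.empty, ⟨fun _ _ => rfl, fun _ _ h => h⟩,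
    Set.subset_univ _⟩
  isOpen_inter := by
    intro U U' hU hU' x hx
    obtain ⟨m, E, hE, h1, h2⟩ := hU x hx.1
    obtain ⟨m', E', hE', h1', h2'⟩ := hU' x hx.2
    refine ⟨max m m', fun n => E n ∪ E' n, hE.union hE', ⟨fun _ _ => rfl, ?_⟩, ?_⟩
    · intro n hn h
      rcases h with h | h
      · exact h1.2 n ((le_max_left _ _).trans hn) h
      · exact h1'.2 n ((le_max_right _ _).trans hn) h
    · intro y hy
      constructor
      · apply h2
        apply Bas.mono h1 (le_max_left m m')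
        exact ⟨hy.1, fun n hn h => hy.2 n hn (Or.inl h)⟩
      · apply h2'
        apply Bas.mono h1' (le_max_right m m')
        exact ⟨hy.1, fun n hn h => hy.2 n hn (Or.inr h)⟩
  isOpen_sUnion := by
    intro 𝓤 h𝓤 x hx
    obtain ⟨U, hU, hxU⟩ := hx
    obtain ⟨m, E, hE, h1, h2⟩ := h𝓤 U hU x hxU
    exact ⟨m, E, hE, h1, h2.trans (Set.subset_sUnion_of_mem hU)⟩

lemma isOpen_iff {U : Set (Fine G)} : IsOpen U ↔
    ∀ x ∈ U, ∃ m E, Small E ∧ x ∈ Bas m x.pt E ∧ Bas m x.pt E ⊆ U := Iff.rfl

lemma isOpen_Bas (m : ℕ) (t : ∀ n, G n) {E : ∀ n, Set (G n)} (hE : Small E) :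
    IsOpen (Bas m t E) := by
  rw [isOpen_iff]
  intro x hx
  exact ⟨m, E, hE, Bas.self_of_mem hx, (Bas.congr hx).subset⟩

/-- The fine topology refines the product topology. -/
lemma continuous_pt [∀ n, TopologicalSpace (G n)] [∀ n, DiscreteTopology (G n)] :
    Continuous (Fine.pt : Fine G → ∀ n, G n) := by
  refine continuous_pi fun n => ?_
  rw [continuous_def]
  intro S _
  rw [isOpen_iff]
  intro x hx
  refine ⟨n + 1, fun _ => ∅, Small.empty, ⟨fun _ _ => rfl, fun _ _ h => h⟩, ?_⟩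
  intro y hy
  show y.pt n ∈ S
  rw [hy.1 n (Nat.lt_succ_self n)]
  exact hx

/-- The fine topology is Baire. -/
instance : BaireSpace (Fine G) := by
  refine ⟨fun f hfo hfd => ?_⟩
  rw [dense_iff_inter_open]
  intro U hU hne
  obtain ⟨x0, hx0⟩ := hne
  obtain ⟨m0, E0, hE0, hx0m, hsub0⟩ := isOpen_iff.1 hU x0 hx0
  -- positions of the game
  let P := {q : Fine G × ℕ × (∀ n, Set (G n)) // Small q.2.2 ∧ q.1 ∈ Bas q.2.1 q.1.pt q.2.2}
  have hstep : ∀ (k : ℕ) (q : P), ∃ q' : P, q.1.2.1 < q'.1.2.1 ∧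
      Bas q'.1.2.1 q'.1.1.pt q'.1.2.2 ⊆ Bas q.1.2.1 q.1.1.pt q.1.2.2 ∩ f k := by
    rintro k ⟨⟨x, m, E⟩, hE, hx⟩
    obtain ⟨y, hy1, hy2⟩ := (hfd k).inter_open_nonempty _ (isOpen_Bas m x.pt hE) ⟨x, hx⟩
    obtain ⟨m', E', hE', hy', hsub⟩ :=
      isOpen_iff.1 ((isOpen_Bas m x.pt hE).inter (hfo k)) y ⟨hy1, hy2⟩
    refine ⟨⟨⟨y, max m' (m + 1), E'⟩, hE', Bas.mem_mono hy' (le_max_left _ _)⟩, ?_, ?_⟩
    · exact lt_of_lt_of_le (Nat.lt_succ_self m) (le_max_right _ _)
    · exact (Bas.mono hy' (le_max_left _ _)).trans hsub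
  choose next hnext1 hnext2 using hstep
  let q : ℕ → P := fun k => Nat.rec (⟨⟨x0, m0, E0⟩, hE0, hx0m⟩ : P) (fun k p => next k p) k
  have hq0 : q 0 = ⟨⟨x0, m0, E0⟩, hE0, hx0m⟩ := rfl
  have hqs : ∀ k, q (k + 1) = next k (q k) := fun k => rfl
  set X : ℕ → Fine G := fun k => (q k).1.1 with hX
  set m : ℕ → ℕ := fun k => (q k).1.2.1 with hm
  set E : ℕ → ∀ n, Set (G n) := fun k => (q k).1.2.2 with hE
  have hself : ∀ k, X k ∈ Bas (m k) (X k).pt (E k) := fun k => (q k).2.2
  have hmlt : ∀ k, m k < m (k + 1) := by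
    intro k
    have := hnext1 k (q k)
    rw [← hqs] at this
    exact this
  have hsub : ∀ k, Bas (m (k + 1)) (X (k + 1)).pt (E (k + 1)) ⊆ Bas (m k) (X k).pt (E k) ∩ f k := by
    intro k
    have := hnext2 k (q k)
    rw [← hqs] at this
    exact this
  have hanti : Antitone fun k => Bas (m k) (X k).pt (E k) :=
    antitone_nat_of_succ_le fun k => (hsub k).trans Set.inter_subset_left
  have hmge : ∀ k, k ≤ m k := by
    intro k
    induction k with
    | zero => exact Nat.zero_le _
    | succ k ih => exact Nat.succ_le_of_lt (ih.trans_lt (hmlt k))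
  have hmem : ∀ j k, k ≤ j → X j ∈ Bas (m k) (X k).pt (E k) := fun j k hkj => hanti hkj (hself j)
  set Y : Fine G := ⟨fun n => (X (n + 1)).pt n⟩ with hY
  have hYmem : ∀ k, Y ∈ Bas (m k) (X k).pt (E k) := by
    intro k
    constructor
    · intro n hn
      show (X (n + 1)).pt n = (X k).pt n
      rcases le_total k (n + 1) with h | h
      · exact (hmem (n + 1) k h).1 n hn
      · exact ((hmem k (n + 1) h).1 n (lt_of_lt_of_le (Nat.lt_succ_self n) (hmge _))).symm
    · intro n hn
      show (X (n + 1)).pt n ∉ E k n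
      exact (hmem (n + 1) k ((hmge k).trans (hn.trans (Nat.le_succ n)))).2 n hn
  refine ⟨Y, hsub0 (hYmem 0), Set.mem_iInter.2 fun k => (hsub k (hYmem (k + 1))).2⟩

section Group

variable [∀ n, Group (G n)]

/-- Right translation. -/
def trans (z : ∀ n, G n) (x : Fine G) : Fine G := ⟨x.pt * z⟩

omit [∀ n, Finite (G n)] in
lemma ncard_trans (n : ℕ) (z : G n) (E : Set (G n)) : {g | g * z ∈ E}.ncard = E.ncard := by
  have h : {g | g * z ∈ E} = (fun g => g * z⁻¹) '' E := by
    ext g
    constructor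
    · intro hg
      exact ⟨g * z, hg, by simp⟩
    · rintro ⟨h, hh, rfl⟩
      simpa using hh
  rw [h]
  exact Set.ncard_image_of_injective E (mul_left_injective z⁻¹)

lemma continuous_trans (z : ∀ n, G n) : Continuous (trans z) := by
  rw [continuous_def]
  intro U hU
  rw [isOpen_iff]
  intro x hx
  obtain ⟨m, E, hE, h1, h2⟩ := isOpen_iff.1 hU _ hx
  refine ⟨m, fun n => {g | g * z n ∈ E n}, ?_, ⟨fun _ _ => rfl, fun n hn h => h1.2 n hn h⟩, ?_⟩
  · intro K
    filter_upwards [hE K] with n hn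
    rw [ncard_trans]
    exact hn
  · intro y hy
    refine h2 ⟨fun n hn => ?_, fun n hn h => hy.2 n hn h⟩
    show y.pt n * z n = x.pt n * z n
    rw [hy.1 n hn]

/-- Right translations are homeomorphisms of the fine topology. -/
def transHomeo (z : ∀ n, G n) : Fine G ≃ₜ Fine G where
  toFun := trans z
  invFun := trans z⁻¹
  left_inv := by
    rintro ⟨x⟩
    simp [trans]
  right_inv := by
    rintro ⟨x⟩
    simp [trans]
  continuous_toFun := continuous_trans z
  continuous_invFun := continuous_trans z⁻¹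

lemma residual_trans (z : ∀ n, G n) {R : Set (Fine G)} (hR : R ∈ residual (Fine G)) :
    {x | trans z x ∈ R} ∈ residual (Fine G) :=
  tendsto_residual_of_isOpenMap (transHomeo z).continuous (transHomeo z).isOpenMap hR

/-- **Key lemma.**  A null-finite set cannot be comeager, for the fine topology, in a nonempty
set open in the fine topology. -/
lemma not_nullFinite_of_residual [∀ n, TopologicalSpace (G n)] [∀ n, DiscreteTopology (G n)]
    {B : Set (∀ n, G n)} (hB : NullFinite B) {U : Set (Fine G)} (hU : IsOpen U)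
    (hne : U.Nonempty) (hR : {x : Fine G | x ∈ U → x.pt ∈ B} ∈ residual (Fine G)) : False := by
  obtain ⟨s, hs, hfin⟩ := hB
  obtain ⟨x0, hx0⟩ := hne
  obtain ⟨m, E, hE, hx0m, hsub⟩ := isOpen_iff.1 hU x0 hx0
  -- the thresholds
  have h1 : ∀ l : ℕ, ∃ M, l ≤ M ∧ m ≤ M ∧
      ∀ n, M ≤ n → (l + 2) * (l + 2) * (E n).ncard ≤ Nat.card (G n) := by
    intro l
    obtain ⟨M, hM⟩ := eventually_atTop.1 (hE ((l + 2) * (l + 2)))
    exact ⟨max (max l m) M, (le_max_left l m).trans (le_max_left _ _),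
      (le_max_right l m).trans (le_max_left _ _), fun n hn => hM n ((le_max_right _ _).trans hn)⟩
  choose M hMl hMm hM using h1
  -- the subsequence
  have h2 : ∀ l : ℕ, ∃ j, l ≤ j ∧ ∀ n < M l, s j n = 1 := by
    intro l
    have h3 : ∀ n, ∀ᶠ j in atTop, s j n = 1 := by
      intro n
      have h4 : Tendsto (fun j => s j n) atTop (𝓝 1) := (tendsto_pi_nhds.1 hs) n
      rw [nhds_discrete, tendsto_pure] at h4
      exact h4
    have h5 : ∀ᶠ j in atTop, ∀ n ∈ Finset.range (M l), s j n = 1 :=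
      (Finset.eventually_all (Finset.range (M l))).2 fun n _ => h3 n
    obtain ⟨j, hj, hjl⟩ := (h5.and (eventually_ge_atTop l)).exists
    exact ⟨j, hjl, fun n hn => hj n (Finset.mem_range.2 hn)⟩
  choose j hjl hj using h2
  -- the enlarged forbidden sets
  set E' : ∀ n, Set (G n) := fun n => {g | g ∈ E n ∨ ∃ l, M l ≤ n ∧ g * s (j l) n ∈ E n} with hE'
  have hbound : ∀ n L, M L ≤ n → ∃ L', L ≤ L' ∧ (L' + 2) * (E' n).ncard ≤ Nat.card (G n) := by
    intro n L hL
    classical
    set A : Finset ℕ := (Finset.range (n + 1)).filter fun l => M l ≤ n with hA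
    have hAmem : ∀ l, M l ≤ n → l ∈ A := fun l hl =>
      Finset.mem_filter.2 ⟨Finset.mem_range.2 (by have := hMl l; omega), hl⟩
    have hAne : A.Nonempty := ⟨L, hAmem L hL⟩
    set L' := A.max' hAne with hL'
    have hL'M : M L' ≤ n := (Finset.mem_filter.1 (A.max'_mem hAne)).2
    refine ⟨L', A.le_max' _ (hAmem L hL), ?_⟩
    have h3 : E' n ⊆ ⋃ i ∈ Finset.range (L' + 2),
        {g | g * (if i = L' + 1 then 1 else s (j i) n) ∈ E n} := by
      rintro g (hg | ⟨l, hl, hg⟩)
      · refine Set.mem_biUnion (show L' + 1 ∈ (Finset.range (L' + 2) : Set ℕ) by simp) ?_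
        simpa using hg
      · have h4 : l ≤ L' := A.le_max' _ (hAmem l hl)
        refine Set.mem_biUnion (show l ∈ (Finset.range (L' + 2) : Set ℕ) by
          simp only [Finset.coe_range, Set.mem_Iio]; omega) ?_
        have h5 : l ≠ L' + 1 := by omega
        simpa [h5] using hg
    have h4 : (E' n).ncard ≤ (L' + 2) * (E n).ncard := by
      calc (E' n).ncard ≤ _ := Set.ncard_le_ncard h3 (Set.toFinite _)
        _ ≤ ∑ i ∈ Finset.range (L' + 2),
            {g | g * (if i = L' + 1 then 1 else s (j i) n) ∈ E n}.ncard :=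
          Finset.set_ncard_biUnion_le _ _
        _ = ∑ i ∈ Finset.range (L' + 2), (E n).ncard := by
          refine Finset.sum_congr rfl fun i _ => ?_
          rw [ncard_trans]
        _ = (L' + 2) * (E n).ncard := by simp
    calc (L' + 2) * (E' n).ncard ≤ (L' + 2) * ((L' + 2) * (E n).ncard) :=
          Nat.mul_le_mul_left _ h4
      _ = (L' + 2) * (L' + 2) * (E n).ncard := by ring
      _ ≤ Nat.card (G n) := hM L' n hL'M
  have hE'small : Small E' := by
    intro K
    filter_upwards [eventually_ge_atTop (M K)] with n hn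
    obtain ⟨L', h3, h4⟩ := hbound n K hn
    exact (Nat.mul_le_mul_right _ (by omega)).trans h4
  -- a point avoiding the enlarged forbidden sets
  have hex : ∀ n, ∃ g : G n, (n < m → g = x0.pt n) ∧ (m ≤ n → g ∉ E' n) := by
    intro n
    rcases lt_or_ge n m with h | h
    · exact ⟨x0.pt n, fun _ => rfl, fun h' => absurd h (not_lt.2 h')⟩
    · by_cases hl : ∃ l, M l ≤ n
      · obtain ⟨l, hl⟩ := hl
        obtain ⟨L', _, h4⟩ := hbound n l hl
        have h5 : E' n ≠ Set.univ := by
          intro heq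
          rw [heq, Set.ncard_univ] at h4
          have h6 : 0 < Nat.card (G n) := Nat.card_pos
          nlinarith
        obtain ⟨g, hg⟩ := (Set.ne_univ_iff_exists_notMem _).1 h5
        exact ⟨g, fun h' => absurd h' (not_lt.2 h), fun _ => hg⟩
      · refine ⟨x0.pt n, fun _ => rfl, fun _ => ?_⟩
        rintro (hg | ⟨l, hl', _⟩)
        · exact hx0m.2 n h hg
        · exact hl ⟨l, hl'⟩
  choose y0 hy01 hy02 using hex
  have hV : IsOpen (Bas m x0.pt E') := isOpen_Bas m x0.pt hE'small
  have hVne : (Bas m x0.pt E').Nonempty := ⟨⟨y0⟩, fun n hn => hy01 n hn, fun n hn => hy02 n hn⟩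
  have hres : (⋂ l : ℕ, {x : Fine G | trans (s (j l)) x ∈ {x : Fine G | x ∈ U → x.pt ∈ B}}) ∈
      residual (Fine G) :=
    countable_iInter_mem.2 fun l => residual_trans _ hR
  obtain ⟨x, hxV, hx⟩ := (dense_of_mem_residual hres).inter_open_nonempty _ hV hVne
  have hxB : ∀ l, x.pt * s (j l) ∈ B := by
    intro l
    have h3 : trans (s (j l)) x ∈ U → (trans (s (j l)) x).pt ∈ B := Set.mem_iInter.1 hx l
    refine h3 (hsub ⟨fun n hn => ?_, fun n hn => ?_⟩)
    · show x.pt n * s (j l) n = x0.pt n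
      rw [hxV.1 n hn, hj l n (hn.trans_le (hMm l)), mul_one]
    · show x.pt n * s (j l) n ∉ E n
      intro h4
      rcases lt_or_ge n (M l) with h5 | h5
      · rw [hj l n h5, mul_one] at h4
        exact hxV.2 n hn (Or.inl h4)
      · exact hxV.2 n hn (Or.inr ⟨l, h5, h4⟩)
  have hinf : {k | x.pt * s k ∈ B}.Infinite := by
    refine Set.infinite_of_forall_exists_gt fun a => ?_
    exact ⟨j (a + 1), hxB (a + 1), lt_of_lt_of_le (Nat.lt_succ_self a) (hjl (a + 1))⟩
  exact hinf (hfin x.pt)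

/-- No nonempty set open in the fine topology is covered by countably many Borel null-finite
sets. -/
theorem not_covered [∀ n, TopologicalSpace (G n)] [∀ n, DiscreteTopology (G n)]
    {U : Set (Fine G)} (hU : IsOpen U) (hne : U.Nonempty) (B : ℕ → Set (∀ n, G n))
    (hB : ∀ k, @MeasurableSet _ (borel (∀ n, G n)) (B k)) (hNF : ∀ k, NullFinite (B k)) :
    ¬ ∀ x ∈ U, ∃ k, x.pt ∈ B k := by
  intro hcov
  borelize (∀ n, G n)
  borelize (Fine G)
  have hmeas : ∀ k, MeasurableSet (Fine.pt ⁻¹' B k : Set (Fine G)) := fun k =>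
    (continuous_pt (G := G)).measurable (hB k)
  have h1 : ∀ k, ∃ u : Set (Fine G), IsOpen u ∧ (Fine.pt ⁻¹' B k : Set (Fine G)) =ᵇ u := fun k =>
    (hmeas k).residualEq_isOpen
  choose u huo hu using h1
  by_cases hall : ∀ k, u k = ∅
  · have h2 : ∀ k, (Fine.pt ⁻¹' B k : Set (Fine G))ᶜ ∈ residual (Fine G) := by
      intro k
      have h3 := hu k
      rw [hall k] at h3
      filter_upwards [h3] with x hx hxB
      have h4 : (Fine.pt ⁻¹' B k : Set (Fine G)) x = (∅ : Set (Fine G)) x := hx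
      have h5 : (∅ : Set (Fine G)) x := h4 ▸ hxB
      exact h5
    obtain ⟨x, hxU, hx⟩ := (dense_of_mem_residual (countable_iInter_mem.2 h2)).inter_open_nonempty
      U hU hne
    obtain ⟨k, hk⟩ := hcov x hxU
    exact Set.mem_iInter.1 hx k hk
  · push Not at hall
    obtain ⟨k, hk⟩ := hall
    refine not_nullFinite_of_residual (hNF k) (huo k) hk ?_
    filter_upwards [hu k] with x hx hxu
    have h4 : (Fine.pt ⁻¹' B k : Set (Fine G)) x = (u k) x := hx
    have h5 : (Fine.pt ⁻¹' B k : Set (Fine G)) x := h4.symm ▸ hxu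
    exact h5

/-- The set `∏ (G n \ {1})` is a nonempty set open in the fine topology, if `|G n| ≥ 2` and
`|G n| → ∞`. -/
theorem isOpen_nonidentity (hG : Tendsto (fun n => Nat.card (G n)) atTop atTop) :
    IsOpen {x : Fine G | ∀ n, x.pt n ≠ 1} := by
  have h1 : {x : Fine G | ∀ n, x.pt n ≠ 1} = Bas 0 (fun _ => 1) fun _ => {1} := by
    ext x
    simp [Bas]
  rw [h1]
  refine isOpen_Bas 0 _ ?_
  intro K
  filter_upwards [hG.eventually_ge_atTop K] with n hn
  simpa using hn

/-- **General theorem.**  For finite groups `G n` with `|G n| → ∞`, all of them nontrivial, the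
closed set `∏ (G n \ {1})` is not covered by countably many Borel null-finite subsets of
`∏ G n`. -/
theorem nonidentity_not_covered [∀ n, TopologicalSpace (G n)] [∀ n, DiscreteTopology (G n)]
    [∀ n, Nontrivial (G n)] (hG : Tendsto (fun n => Nat.card (G n)) atTop atTop) :
    ¬ ∃ B : ℕ → Set (∀ n, G n),
      (∀ k, @MeasurableSet _ (borel (∀ n, G n)) (B k) ∧ NullFinite (B k)) ∧
      {x : ∀ n, G n | ∀ n, x n ≠ 1} ⊆ ⋃ k, B k := by
  rintro ⟨B, hB, hcov⟩
  refine not_covered (isOpen_nonidentity hG) ?_ B (fun k => (hB k).1) (fun k => (hB k).2) ?_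
  · have h1 : ∀ n, ∃ g : G n, g ≠ 1 := fun n => exists_ne 1
    choose g hg using h1
    exact ⟨⟨g⟩, hg⟩
  · intro x hx
    exact Set.mem_iUnion.1 (hcov hx)

end Group

end Pool.Agent.R825.FineBaire
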