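import Mathlib

/-!
# Bounding numbers of relations modulo ideals

For each finite atomless nonzero Borel measure `μ` on the Baire space, the bounding number of
`∈*` modulo the ideal of subsets of `σ`-compact sets is at most the bounding number of `≠*` modulo
the `μ`-null ideal.
-/

namespace Pool.Agent.R825.HigherDim

open Cardinal Set Filter MeasureTheory Topology

/-- A slalom: `s n` is a finite set of at most `n` natural numbers. -/
def Slalom : Type := {s : ℕ → Finset ℕ // ∀ n, (s n).card ≤ n}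

/-- `x ≠* y`: the values differ at all but finitely many places. -/
def NeStar (x y : ℕ → ℕ) : Prop := ∀ᶠ k in atTop, x k ≠ y k

/-- `x ∈* s`: `x k ∈ s k` for all but finitely many `k`. -/
def InStar (x : ℕ → ℕ) (s : Slalom) : Prop := ∀ᶠ k in atTop, x k ∈ s.1 k

/-- The relation `R` modulo the ideal `I`. -/
def Mod {Y : Type} (R : (ℕ → ℕ) → Y → Prop) (I : Set (Set (ℕ → ℕ)))
    (f : (ℕ → ℕ) → (ℕ → ℕ)) (g : (ℕ → ℕ) → Y) : Prop :=
  {x | ¬ R (f x) (g x)} ∈ I

/-- The family `A` is bounded for the relation `R` modulo the ideal `I`. -/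
def Bounded {Y : Type} (R : (ℕ → ℕ) → Y → Prop) (I : Set (Set (ℕ → ℕ)))
    (A : Set ((ℕ → ℕ) → (ℕ → ℕ))) : Prop :=
  ∃ g : (ℕ → ℕ) → Y, ∀ f ∈ A, Mod R I f g

/-- The bounding number: the least cardinality of a family which is not bounded. -/
noncomputable def bounding {Y : Type} (R : (ℕ → ℕ) → Y → Prop) (I : Set (Set (ℕ → ℕ))) :
    Cardinal.{0} :=
  sInf {c | ∃ A : Set ((ℕ → ℕ) → (ℕ → ℕ)), #A = c ∧ ¬ Bounded R I A}

/-- The ideal of the subsets of `σ`-compact sets. -/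
def idealK : Set (Set (ℕ → ℕ)) := {A | ∃ B, IsSigmaCompact B ∧ A ⊆ B}

/-- The ideal of `μ`-null sets. -/
def idealN (μ : Measure (ℕ → ℕ)) : Set (Set (ℕ → ℕ)) := {A | μ A = 0}

/-- eventual domination -/
def LeStar (x y : ℕ → ℕ) : Prop := ∀ᶠ k in atTop, x k ≤ y k

lemma LeStar.trans {x y z : ℕ → ℕ} (h : LeStar x y) (h' : LeStar y z) : LeStar x z :=
  h.mp (h'.mono fun _ h1 h2 => h2.trans h1)

lemma exists_bound {A : Set (ℕ → ℕ)} (hA : A ∈ idealK) : ∃ h, ∀ x ∈ A, LeStar x h := by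
  obtain ⟨B, ⟨K, hK, rfl⟩, hAB⟩ := hA
  have h1 : ∀ n k, ∃ m, ∀ x ∈ K n, x k ≤ m := by
    intro n k
    have h2 : ((fun x : ℕ → ℕ => x k) '' K n).Finite :=
      ((hK n).image (continuous_apply k)).finite_of_discrete
    obtain ⟨m, hm⟩ := h2.bddAbove
    exact ⟨m, fun x hx => hm ⟨x, hx, rfl⟩⟩
  choose H hH using h1
  refine ⟨fun k => (Finset.range (k + 1)).sup fun n => H n k, fun x hx => ?_⟩
  obtain ⟨n, hn⟩ := mem_iUnion.1 (hAB hx)
  filter_upwards [eventually_ge_atTop n] with k hk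
  exact (hH n k x hn).trans
    (Finset.le_sup (f := fun n => H n k) (Finset.mem_range.2 (Nat.lt_succ_of_le hk)))

lemma bounded_of_lt {Y : Type} {R : (ℕ → ℕ) → Y → Prop} {I : Set (Set (ℕ → ℕ))}
    {A : Set ((ℕ → ℕ) → (ℕ → ℕ))} (h : #A < bounding R I) : Bounded R I A := by
  by_contra hA
  exact absurd (csInf_le' (s := {c : Cardinal.{0} | ∃ A : Set ((ℕ → ℕ) → (ℕ → ℕ)), #A = c ∧
    ¬ Bounded R I A}) ⟨A, rfl, hA⟩) (not_le.2 h)

/-- The family `Z` is localized by one slalom. -/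
def Loc {ι : Type} (Z : ι → ℕ → ℕ) : Prop := ∃ s : Slalom, ∀ i, InStar (Z i) s

section measure

variable (μ : Measure (ℕ → ℕ)) [IsFiniteMeasure μ]

lemma exists_cylinder (hμ : ∀ x, μ {x} = 0) (x : ℕ → ℕ) {ε : ENNReal} (hε : 0 < ε) :
    ∃ k, μ {y | ∀ i < k, y i = x i} ≤ ε := by
  have h1 : Tendsto (fun k : ℕ => μ {y : ℕ → ℕ | ∀ i < k, y i = x i}) atTop
      (𝓝 (μ (⋂ k : ℕ, {y : ℕ → ℕ | ∀ i < k, y i = x i}))) := by
    apply tendsto_measure_iInter_atTop
    · intro k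
      have : {y : ℕ → ℕ | ∀ i < k, y i = x i} = ⋂ i ∈ Finset.range k, {y | y i = x i} := by
        ext y; simp
      rw [this]
      refine MeasurableSet.nullMeasurableSet ?_
      refine Finset.measurableSet_biInter _ fun i _ => ?_
      exact (measurableSet_singleton (x i)).preimage (measurable_pi_apply i)
    · intro k l hkl y hy i hi
      exact hy i (hi.trans_le hkl)
    · exact ⟨0, measure_ne_top _ _⟩
  have h2 : (⋂ k : ℕ, {y : ℕ → ℕ | ∀ i < k, y i = x i}) = {x} := by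
    ext y
    simp only [mem_iInter, mem_ofPred_eq, mem_singleton_iff]
    constructor
    · intro h
      funext i
      exact h (i + 1) i (Nat.lt_succ_self i)
    · rintro rfl k i _
      rfl
  rw [h2, hμ] at h1
  obtain ⟨k, hk⟩ := (h1.eventually (gt_mem_nhds hε)).exists
  exact ⟨k, hk.le⟩

lemma exists_partition (hμ : ∀ x, μ {x} = 0) {ε : ENNReal} (hε : 0 < ε) :
    ∃ c : (ℕ → ℕ) → ℕ, ∀ m, μ {x | c x = m} ≤ ε := by
  choose k hk using fun x => exists_cylinder μ hμ x hε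
  refine ⟨fun x => Encodable.encode ((List.range (k x)).map x), fun m => ?_⟩
  rcases eq_empty_or_nonempty {x : ℕ → ℕ | Encodable.encode ((List.range (k x)).map x) = m} with h | h
  · rw [h, measure_empty]; exact zero_le
  · obtain ⟨y, hy⟩ := h
    refine (measure_mono ?_).trans (hk y)
    intro x hx i hi
    have h1 : (List.range (k x)).map x = (List.range (k y)).map y :=
      Encodable.encode_injective (hx.trans hy.symm)
    have h2 : k x = k y := by simpa using congrArg List.length h1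
    rw [h2] at h1
    have h3 := List.map_inj_left.1 h1 i (List.mem_range.2 hi)
    exact h3

omit [IsFiniteMeasure μ] in
lemma null_of_capture {c : ℕ → (ℕ → ℕ) → ℕ}
    (hc : ∀ n m, μ {x | c n x = m} ≤ (2 : ENNReal)⁻¹ ^ n * ((n ^ 2 : ℕ) : ENNReal)⁻¹)
    (T : ℕ → Finset ℕ) (hT : ∀ n, (T n).card ≤ n ^ 2) :
    μ {x | ∃ᶠ n in atTop, c n x ∈ T n} = 0 := by
  have h1 : ∀ n, μ {x | c n x ∈ T n} ≤ (2 : ENNReal)⁻¹ ^ n := by
    intro n
    have h2 : {x | c n x ∈ T n} = ⋃ m ∈ T n, {x | c n x = m} := by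
      ext x; simp
    rw [h2]
    refine (measure_biUnion_finset_le _ _).trans ?_
    refine (Finset.sum_le_sum fun m _ => hc n m).trans ?_
    rw [Finset.sum_const, nsmul_eq_mul]
    rcases Nat.eq_zero_or_pos n with rfl | hn
    · have : (T 0).card = 0 := by simpa using hT 0
      simp [this]
    · calc ((T n).card : ENNReal) * ((2 : ENNReal)⁻¹ ^ n * ((n ^ 2 : ℕ) : ENNReal)⁻¹)
          ≤ ((n ^ 2 : ℕ) : ENNReal) * ((2 : ENNReal)⁻¹ ^ n * ((n ^ 2 : ℕ) : ENNReal)⁻¹) := by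
            gcongr
            exact_mod_cast hT n
        _ = (2 : ENNReal)⁻¹ ^ n * (((n ^ 2 : ℕ) : ENNReal) * ((n ^ 2 : ℕ) : ENNReal)⁻¹) := by ring
        _ = (2 : ENNReal)⁻¹ ^ n := by
            rw [ENNReal.mul_inv_cancel (by positivity) (ENNReal.natCast_ne_top _), mul_one]
  have h3 : ∑' n, μ {x | c n x ∈ T n} ≠ ⊤ := by
    refine ne_top_of_le_ne_top ?_ (ENNReal.tsum_le_tsum h1)
    rw [ENNReal.tsum_geometric]
    simp
  have h4 := measure_limsup_atTop_eq_zero h3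
  rw [limsup_eq_iInf_iSup_of_nat] at h4
  refine measure_mono_null ?_ h4
  intro x hx
  simp only [iInf_eq_iInter, iSup_eq_iUnion, mem_iInter, mem_iUnion]
  intro n
  obtain ⟨m, hm1, hm2⟩ := (Filter.frequently_atTop.1 hx) n
  exact ⟨m, hm1, hm2⟩

end measure

/-- The theorem. -/
theorem bounding_le (μ : Measure (ℕ → ℕ)) [IsFiniteMeasure μ] (hμ : ∀ x, μ {x} = 0)
    (hμ0 : μ Set.univ ≠ 0) :
    bounding InStar idealK ≤ bounding NeStar (idealN μ) := by
  classical
  by_contra! hlt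
  -- a family `F` which is not bounded, of least cardinality
  obtain ⟨F, hF, hFu⟩ : ∃ A : Set ((ℕ → ℕ) → (ℕ → ℕ)), #A = bounding NeStar (idealN μ) ∧
      ¬ Bounded NeStar (idealN μ) A := by
    refine csInf_mem (s := {c : Cardinal.{0} | ∃ A : Set ((ℕ → ℕ) → (ℕ → ℕ)), #A = c ∧
      ¬ Bounded NeStar (idealN μ) A}) ⟨_, univ, rfl, ?_⟩
    rintro ⟨g, hg⟩
    apply hμ0
    have h1 : μ {x | ¬ NeStar (g x) (g x)} = 0 := hg g (mem_univ _)
    have h2 : {x | ¬ NeStar (g x) (g x)} = Set.univ := by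
      refine eq_univ_of_forall fun x => ?_
      intro h
      obtain ⟨k, hk⟩ := h.exists
      exact hk rfl
    rwa [h2] at h1
  -- families of at most `#F` functions are bounded
  have hbd : ∀ {ι : Type} (φ : ι → (ℕ → ℕ) → (ℕ → ℕ)), #ι ≤ #F →
      ∃ g : (ℕ → ℕ) → Slalom, ∀ i, ∃ h, ∀ x, ¬ LeStar x h → InStar (φ i x) (g x) := by
    intro ι φ hι
    have h1 : #(range φ) < bounding InStar idealK :=
      (mk_range_le.trans hι).trans_lt (hF ▸ hlt)
    obtain ⟨g, hg⟩ := bounded_of_lt h1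
    refine ⟨g, fun i => ?_⟩
    obtain ⟨h, hh⟩ := exists_bound (hg (φ i) ⟨i, rfl⟩)
    refine ⟨h, fun x hx => ?_⟩
    by_contra hcon
    exact hx (hh x hcon)
  -- the point `x0`
  obtain ⟨x0, hx0⟩ : ∃ x0, ∀ y : ℕ → ℕ, ∃ f ∈ F, ∃ᶠ k in atTop, f x0 k = y k := by
    by_contra! hcon
    choose g hg using hcon
    apply hFu
    refine ⟨g, fun f hf => ?_⟩
    have : {x | ¬ NeStar (f x) (g x)} = ∅ := by
      refine eq_empty_of_forall_notMem fun x hx => hx ?_
      have h1 := hg x f hf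
      exact h1
    show μ _ = 0
    rw [this, measure_empty]
  -- the least cardinality of a set which is not localized
  let κ : Cardinal.{0} := sInf {c | ∃ (ι : Type) (Z : ι → ℕ → ℕ), #ι = c ∧ ¬ Loc Z}
  have hF_not_loc : ¬ Loc (fun f : F => f.1 x0) := by
    rintro ⟨s, hs⟩
    have h1 : ∀ n, ∃ m, m ∉ s.1 n := fun n => Infinite.exists_notMem_finset (s.1 n)
    choose y hy using h1
    obtain ⟨f, hf, hfy⟩ := hx0 y
    obtain ⟨k, hk1, hk2⟩ := (hfy.and_eventually (hs ⟨f, hf⟩)).exists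
    exact hy k (hk1 ▸ hk2)
  obtain ⟨B, Zb, hB, hBloc⟩ : ∃ (ι : Type) (Z : ι → ℕ → ℕ), #ι = κ ∧ ¬ Loc Z :=
    csInf_mem (s := {c : Cardinal.{0} | ∃ (ι : Type) (Z : ι → ℕ → ℕ), #ι = c ∧ ¬ Loc Z})
      ⟨_, F, _, rfl, hF_not_loc⟩
  have hκF : κ ≤ #F := csInf_le' ⟨F, _, rfl, hF_not_loc⟩
  have hloc : ∀ {ι : Type} (Z : ι → ℕ → ℕ), #ι < κ → Loc Z := by
    intro ι Z hι
    by_contra hcon
    exact absurd (csInf_le' (s := {c : Cardinal.{0} | ∃ (ι : Type) (Z : ι → ℕ → ℕ), #ι = c ∧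
      ¬ Loc Z}) ⟨ι, Z, rfl, hcon⟩) (not_le.2 hι)
  -- the dominating family
  obtain ⟨g1, hg1⟩ := hbd (fun b : B => fun _ => Zb b) (hB ▸ hκF)
  choose hh hhh using hg1
  have hdomB : ∀ x, ∃ b, LeStar x (hh b) := by
    intro x
    by_contra! hcon
    exact hBloc ⟨g1 x, fun b => hhh b x (hcon b)⟩
  let I : Type := κ.ord.ToType
  have hI : #I = κ := mk_ord_toType κ
  obtain ⟨eI⟩ : Nonempty (I ≃ B) := Cardinal.eq.1 (hI.trans hB.symm)
  let e : I → ℕ → ℕ := fun i => hh (eI i)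
  have hdom : ∀ x, ∃ i, LeStar x (e i) := by
    intro x
    obtain ⟨b, hb⟩ := hdomB x
    exact ⟨eI.symm b, by simpa [e] using hb⟩
  have hIio : ∀ i : I, #(Iio i) < κ := fun i => mk_Iio_toType_ord_lt i
  -- bounds of initial segments
  have hu : ∀ i : I, ∃ u : ℕ → ℕ, ∀ j < i, LeStar (e j) u := by
    intro i
    obtain ⟨s, hs⟩ := hloc (fun j : Iio i => e j) (hIio i)
    refine ⟨fun n => (s.1 n).sup id, fun j hj => ?_⟩
    filter_upwards [hs ⟨j, hj⟩] with n hn
    exact Finset.le_sup (f := id) hn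
  choose u hu using hu
  -- the slaloms which cover
  obtain ⟨g0, hg0⟩ := hbd (fun f : F => fun _ => f.1 x0) le_rfl
  choose h0 hh0 using hg0
  let s : I → Slalom := fun i => g0 (fun n => e i n + 1)
  have hs : ∀ f : F, ∃ i, InStar (f.1 x0) (s i) := by
    intro f
    obtain ⟨i, hi⟩ := hdom (h0 f)
    refine ⟨i, hh0 f _ fun hle => ?_⟩
    obtain ⟨n, hn⟩ := (hle.trans hi).exists
    exact absurd (show e i n + 1 ≤ e i n from hn) (by omega)
  have hs' : ∀ y : ℕ → ℕ, ∃ i, ∃ᶠ n in atTop, y n ∈ (s i).1 n := by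
    intro y
    obtain ⟨f, hf, hfy⟩ := hx0 y
    obtain ⟨i, hi⟩ := hs ⟨f, hf⟩
    refine ⟨i, (hfy.and_eventually hi).mono fun n hn => ?_⟩
    rw [← hn.1]; exact hn.2
  -- the partitions
  have hpart : ∀ n : ℕ, ∃ c : (ℕ → ℕ) → ℕ,
      ∀ m, μ {x | c x = m} ≤ (2 : ENNReal)⁻¹ ^ n * ((n ^ 2 : ℕ) : ENNReal)⁻¹ := by
    intro n
    refine exists_partition μ hμ ?_
    refine ENNReal.mul_pos (pow_ne_zero _ (by simp)) ?_
    rw [ENNReal.inv_ne_zero]
    exact ENNReal.natCast_ne_top _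
  choose c hc using hpart
  -- the rank
  have hrank : ∀ x, ∃ i : I, (∃ᶠ n in atTop, c n x ∈ (s i).1 n) ∧
      ∀ j < i, ¬ ∃ᶠ n in atTop, c n x ∈ (s j).1 n := by
    intro x
    obtain ⟨i, hi⟩ := hs' (fun n => c n x)
    have hwf : WellFounded ((· < ·) : I → I → Prop) := wellFounded_lt
    refine ⟨hwf.min {i | ∃ᶠ n in atTop, c n x ∈ (s i).1 n} ⟨i, hi⟩,
      hwf.min_mem {i | ∃ᶠ n in atTop, c n x ∈ (s i).1 n} ⟨i, hi⟩, fun j hj hj' => ?_⟩
    exact hwf.not_lt_min {i | ∃ᶠ n in atTop, c n x ∈ (s i).1 n} hj' hj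
  choose α hα1 hα2 using hrank
  have hnull : ∀ i : I, μ {x | α x ≤ i} = 0 := by
    intro i
    obtain ⟨t, ht⟩ := hloc (fun j : Iio i => fun n => Encodable.encode ((s j).1 n)) (hIio i)
    let T : ℕ → Finset ℕ := fun n => (t.1 n).biUnion fun m =>
      match (Encodable.decode m : Option (Finset ℕ)) with
      | none => ∅
      | some E => if E.card ≤ n then E else ∅
    have hT : ∀ n, (T n).card ≤ n ^ 2 := by
      intro n
      have h1 : (T n).card ≤ (t.1 n).card * n := by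
        refine Finset.card_biUnion_le_card_mul _ _ _ fun m _ => ?_
        cases (Encodable.decode m : Option (Finset ℕ)) with
        | none => simp
        | some E =>
          by_cases hE : E.card ≤ n
          · simp [hE]
          · simp [hE]
      calc (T n).card ≤ (t.1 n).card * n := h1
        _ ≤ n * n := Nat.mul_le_mul_right _ (t.2 n)
        _ = n ^ 2 := (sq n).symm
    have h1 := null_of_capture μ hc T hT
    have h2 := null_of_capture μ hc (fun n => (s i).1 n) (fun n => ((s i).2 n).trans (by nlinarith [Nat.zero_le n]))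
    refine measure_mono_null ?_ (measure_union_null h1 h2)
    intro x hx
    rcases lt_or_eq_of_le (show α x ≤ i from hx) with h | h
    · left
      refine ((hα1 x).and_eventually (ht ⟨α x, h⟩)).mono fun n hn => ?_
      refine Finset.mem_biUnion.2 ⟨_, hn.2, ?_⟩
      simp only [Encodable.encodek]
      rw [if_pos ((s (α x)).2 n)]
      exact hn.1
    · right
      have := hα1 x
      rw [h] at this
      exact this
  -- the map `ψ`
  let ψ : (ℕ → ℕ) → ℕ → ℕ := fun x n => Nat.pair (u (α x) n + 1) (x n)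
  let ρ : (ℕ → ℕ) → ℕ → ℕ := fun w n => (Nat.unpair (w n)).2
  have hρ : ∀ x, ρ (ψ x) = x := by
    intro x
    funext n
    simp [ρ, ψ]
  have hψ : ∀ h : ℕ → ℕ, μ {x | LeStar (ψ x) h} = 0 := by
    intro h
    obtain ⟨i, hi⟩ := hdom h
    refine measure_mono_null (fun x hx => ?_) (hnull i)
    by_contra hlt'
    have hlt'' : i < α x := not_le.1 hlt'
    obtain ⟨n, h1, h2, h3⟩ := ((show LeStar (ψ x) h from hx).and (hi.and (hu (α x) i hlt''))).exists
    have h4 : u (α x) n + 1 ≤ Nat.pair (u (α x) n + 1) (x n) := Nat.left_le_pair _ _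
    have h5 : Nat.pair (u (α x) n + 1) (x n) ≤ h n := h1
    omega
  obtain ⟨g2, hg2⟩ := hbd (fun f : F => fun w => f.1 (ρ w)) le_rfl
  choose h3 hh3 using hg2
  have hval : ∀ x n, ∃ m, m ∉ (g2 (ψ x)).1 n := fun x n => Infinite.exists_notMem_finset _
  choose g hg using hval
  apply hFu
  refine ⟨g, fun f hf => ?_⟩
  refine measure_mono_null (fun x hx => ?_) (hψ (h3 ⟨f, hf⟩))
  by_contra hcon
  apply hx
  have h4 := hh3 ⟨f, hf⟩ (ψ x) hcon
  simp only [hρ] at h4
  filter_upwards [h4] with n hn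
  intro heq
  exact hg x n (heq ▸ hn)

end Pool.Agent.R825.HigherDim
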