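import Mathlib

/-!
# Primitive recursive operations on words

Helper file for the frozen statement `S14615` (part T7).
-/

set_option autoImplicit false

namespace Pool.Agent.R825.Iso

/-- Words. -/
abbrev W : Type := List (ℕ × Bool)

/-- Codes of finite presentations. -/
abbrev Cd : Type := ℕ × List W

/-- Certificates of triviality. -/
abbrev Ct : Type := List (W × ℕ × Bool)

/-- One step of free reduction. -/
def stp (x : ℕ × Bool) (l : W) : W :=
  List.casesOn l [x] fun y t => if x = (y.1, !y.2) then t else x :: y :: t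

/-- Free reduction. -/
def red (w : W) : W := w.foldr stp []

lemma red_eq (w : W) : red w = FreeGroup.reduce w := by
  induction w with
  | nil => rfl
  | cons x w ih =>
    have h1 : red (x :: w) = stp x (red w) := rfl
    rw [h1, ih, FreeGroup.reduce.cons]
    unfold stp
    cases h : FreeGroup.reduce w with
    | nil => rfl
    | cons y t =>
      simp only
      by_cases hc : x = (y.1, !y.2)
      · rw [if_pos hc, if_pos]
        subst hc; exact ⟨rfl, rfl⟩
      · rw [if_neg hc, if_neg]
        rintro ⟨h1, h2⟩
        exact hc (Prod.ext h1 h2)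

lemma stp_prim : Primrec₂ stp := by
  have h : Primrec fun p : (ℕ × Bool) × W => (List.casesOn p.2 [p.1] fun y t =>
      if p.1 = (y.1, !y.2) then t else p.1 :: y :: t : W) := by
    refine Primrec.list_casesOn (f := fun p : (ℕ × Bool) × W => p.2)
      (g := fun p => [p.1]) (h := fun p q => if p.1 = (q.1.1, !q.1.2) then q.2 else p.1 :: q.1 :: q.2)
      Primrec.snd (Primrec.list_cons.comp Primrec.fst (Primrec.const [])) ?_
    have hq : Primrec fun z : ((ℕ × Bool) × W) × ((ℕ × Bool) × W) => z.2 := Primrec.snd
    refine Primrec.ite ?_ (Primrec.snd.comp hq) ?_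
    · refine Primrec.eq.comp (Primrec.fst.comp Primrec.fst) ?_
      exact Primrec.pair (Primrec.fst.comp (Primrec.fst.comp hq))
        (Primrec.not.comp (Primrec.snd.comp (Primrec.fst.comp hq)))
    · exact Primrec.list_cons.comp (Primrec.fst.comp Primrec.fst)
        (Primrec.list_cons.comp (Primrec.fst.comp hq) (Primrec.snd.comp hq))
  exact h

lemma red_prim : Primrec red :=
  Primrec.list_foldr (f := fun w : W => w) (g := fun _ => ([] : W)) (h := fun _ p => stp p.1 p.2)
    Primrec.id (Primrec.const [])
    (stp_prim.comp (Primrec.fst.comp Primrec.snd) (Primrec.snd.comp Primrec.snd)).to₂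

/-- Inverse word. -/
def inv (w : W) : W := (w.map fun p => (p.1, !p.2)).reverse

lemma inv_eq (w : W) : inv w = FreeGroup.invRev w := rfl

lemma inv_prim : Primrec inv := by
  refine Primrec.list_reverse.comp (Primrec.list_map Primrec.id ?_)
  exact (Primrec.pair (Primrec.fst.comp Primrec.snd)
    (Primrec.not.comp (Primrec.snd.comp Primrec.snd))).to₂

/-- The word assigned to the letter `k`. -/
def gen (u : List W) (k : ℕ) : W := u.getD k []

lemma gen_prim : Primrec₂ gen := Primrec.list_getD _

/-- Substitution. -/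
def sub (u : List W) (w : W) : W :=
  w.flatMap fun q => bif q.2 then gen u q.1 else inv (gen u q.1)

lemma sub_prim : Primrec₂ sub := by
  refine Primrec.list_flatMap (f := fun p : List W × W => p.2)
    (g := fun p q => bif q.2 then gen p.1 q.1 else inv (gen p.1 q.1)) Primrec.snd ?_
  have hg : Primrec fun z : (List W × W) × (ℕ × Bool) => gen z.1.1 z.2.1 :=
    gen_prim.comp (Primrec.fst.comp Primrec.fst) (Primrec.fst.comp Primrec.snd)
  exact Primrec.cond (Primrec.snd.comp Primrec.snd) hg (inv_prim.comp hg)

/-- The `j`-th relator. -/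
def rel (a : Cd) (j : ℕ) : W :=
  if j < a.2.length then a.2.getD j [] else [(a.1 + (j - a.2.length), true)]

lemma rel_prim : Primrec₂ rel := by
  have hl : Primrec fun p : Cd × ℕ => p.1.2.length :=
    Primrec.list_length.comp (Primrec.snd.comp Primrec.fst)
  refine Primrec.ite (Primrec.nat_lt.comp Primrec.snd hl) ?_ ?_
  · exact (Primrec.list_getD _).comp (Primrec.snd.comp Primrec.fst) Primrec.snd
  · refine Primrec.list_cons.comp (Primrec.pair ?_ (Primrec.const true)) (Primrec.const [])
    exact Primrec.nat_add.comp (Primrec.fst.comp Primrec.fst) (Primrec.nat_sub.comp Primrec.snd hl)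

/-- The value of a certificate. -/
def ev (a : Cd) (c : Ct) : W :=
  c.flatMap fun p => p.1 ++ ((bif p.2.2 then rel a p.2.1 else inv (rel a p.2.1)) ++ inv p.1)

lemma ev_prim : Primrec₂ ev := by
  refine Primrec.list_flatMap (f := fun p : Cd × Ct => p.2)
    (g := fun q p => p.1 ++ ((bif p.2.2 then rel q.1 p.2.1 else inv (rel q.1 p.2.1)) ++ inv p.1))
    Primrec.snd ?_
  have h1 : Primrec fun z : (Cd × Ct) × (W × ℕ × Bool) => z.2.1 := Primrec.fst.comp Primrec.snd
  have h2 : Primrec fun z : (Cd × Ct) × (W × ℕ × Bool) => z.2.2.2 :=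
    Primrec.snd.comp (Primrec.snd.comp Primrec.snd)
  have h3 : Primrec fun z : (Cd × Ct) × (W × ℕ × Bool) => z.2.2.1 :=
    Primrec.fst.comp (Primrec.snd.comp Primrec.snd)
  have h4 : Primrec fun z : (Cd × Ct) × (W × ℕ × Bool) => rel z.1.1 z.2.2.1 :=
    rel_prim.comp (Primrec.fst.comp Primrec.fst) h3
  exact Primrec.list_append.comp h1 (Primrec.list_append.comp
    (Primrec.cond h2 h4 (inv_prim.comp h4)) (inv_prim.comp h1))

/-- The words which must be trivial in `b`. -/
def need (a b : Cd) (u v : List W) : List W :=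
  a.2.map (sub u) ++ (List.range b.1).map fun k => sub u (gen v k) ++ [(k, false)]

lemma need_prim {α : Type} [Primcodable α] {a b : α → Cd} {u v : α → List W}
    (ha : Primrec a) (hb : Primrec b) (hu : Primrec u) (hv : Primrec v) :
    Primrec fun x => need (a x) (b x) (u x) (v x) := by
  refine Primrec.list_append.comp ?_ ?_
  · exact Primrec.list_map (Primrec.snd.comp ha) (sub_prim.comp (hu.comp Primrec.fst) Primrec.snd).to₂
  · refine Primrec.list_map (Primrec.list_range.comp (Primrec.fst.comp hb)) ?_
    refine Primrec.list_append.comp (sub_prim.comp (hu.comp Primrec.fst)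
      (gen_prim.comp (hv.comp Primrec.fst) Primrec.snd)) ?_
    exact Primrec.list_cons.comp (Primrec.pair Primrec.snd (Primrec.const false)) (Primrec.const [])

/-- The full check. -/
def chk (a b : Cd) (u v : List W) (cs ds : List Ct) : Prop :=
  u.length ≤ a.1 ∧ v.length ≤ b.1 ∧
  (need a b u v).map red = cs.map (fun c => red (ev b c)) ∧
  (need b a v u).map red = ds.map (fun c => red (ev a c))

instance (a b : Cd) (u v : List W) (cs ds : List Ct) : Decidable (chk a b u v cs ds) := by
  unfold chk; infer_instance

/-- The type of certificates of isomorphism. -/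
abbrev Cf : Type := (List W × List W) × (List Ct × List Ct)

lemma chk_prim : Primrec fun p : (Cd × Cd) × Cf =>
    decide (chk p.1.1 p.1.2 p.2.1.1 p.2.1.2 p.2.2.1 p.2.2.2) := by
  have ha : Primrec fun p : (Cd × Cd) × Cf => p.1.1 := Primrec.fst.comp Primrec.fst
  have hb : Primrec fun p : (Cd × Cd) × Cf => p.1.2 := Primrec.snd.comp Primrec.fst
  have hu : Primrec fun p : (Cd × Cd) × Cf => p.2.1.1 :=
    Primrec.fst.comp (Primrec.fst.comp Primrec.snd)
  have hv : Primrec fun p : (Cd × Cd) × Cf => p.2.1.2 :=
    Primrec.snd.comp (Primrec.fst.comp Primrec.snd)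
  have hc : Primrec fun p : (Cd × Cd) × Cf => p.2.2.1 :=
    Primrec.fst.comp (Primrec.snd.comp Primrec.snd)
  have hd : Primrec fun p : (Cd × Cd) × Cf => p.2.2.2 :=
    Primrec.snd.comp (Primrec.snd.comp Primrec.snd)
  have h1 : PrimrecPred fun p : (Cd × Cd) × Cf => p.2.1.1.length ≤ p.1.1.1 :=
    Primrec.nat_le.comp (Primrec.list_length.comp hu) (Primrec.fst.comp ha)
  have h2 : PrimrecPred fun p : (Cd × Cd) × Cf => p.2.1.2.length ≤ p.1.2.1 :=
    Primrec.nat_le.comp (Primrec.list_length.comp hv) (Primrec.fst.comp hb)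
  have hr : Primrec₂ fun (_ : (Cd × Cd) × Cf) (w : W) => red w := (red_prim.comp Primrec.snd).to₂
  have h3 : PrimrecPred fun p : (Cd × Cd) × Cf =>
      (need p.1.1 p.1.2 p.2.1.1 p.2.1.2).map red = p.2.2.1.map (fun c => red (ev p.1.2 c)) := by
    refine Primrec.eq.comp (Primrec.list_map (need_prim ha hb hu hv) hr) ?_
    exact Primrec.list_map hc (red_prim.comp (ev_prim.comp (hb.comp Primrec.fst) Primrec.snd)).to₂
  have h4 : PrimrecPred fun p : (Cd × Cd) × Cf =>
      (need p.1.2 p.1.1 p.2.1.2 p.2.1.1).map red = p.2.2.2.map (fun c => red (ev p.1.1 c)) := by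
    refine Primrec.eq.comp (Primrec.list_map (need_prim hb ha hv hu) hr) ?_
    exact Primrec.list_map hd (red_prim.comp (ev_prim.comp (ha.comp Primrec.fst) Primrec.snd)).to₂
  have h := h1.and (h2.and (h3.and h4))
  obtain ⟨_, hh⟩ := h
  refine hh.of_eq fun p => ?_
  unfold chk
  congr

/-- A certificate search is recursively enumerable. -/
lemma re_cert {α β : Type} [Primcodable α] [Primcodable β] {q : α × β → Bool} (hq : Primrec q) :
    REPred fun a => ∃ c, q (a, c) = true := by
  have h0 : Primrec₂ fun (a : α) (n : ℕ) =>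
      ((Encodable.decode (α := β) n).elim false (fun c => q (a, c)) : Bool) := by
    have hs : Primrec fun p : α × ℕ => (Encodable.decode (α := β) p.2) :=
      Primrec.decode.comp Primrec.snd
    have := Primrec.option_casesOn (o := fun p : α × ℕ => (Encodable.decode (α := β) p.2))
      (f := fun _ => false) (g := fun p c => q (p.1, c)) hs (Primrec.const false)
      (hq.comp (Primrec.pair (Primrec.fst.comp Primrec.fst) Primrec.snd)).to₂
    refine this.of_eq fun p => ?_
    change _ = (Encodable.decode (α := β) p.2).elim false (fun c => q (p.1, c))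
    cases (Encodable.decode (α := β) p.2) <;> rfl
  have h1 : Partrec fun a : α => Nat.rfind fun n => (Part.some
      ((Encodable.decode (α := β) n).elim false (fun c => q (a, c))) : Part Bool) :=
    Partrec.rfind h0.to_comp.partrec
  refine (h1.dom_re).of_eq fun a => ?_
  refine Nat.rfind_dom.trans ?_
  constructor
  · rintro ⟨n, hn, _⟩
    have h2 := (Part.mem_some_iff.1 hn).symm
    cases hd : (Encodable.decode (α := β) n) with
    | none => rw [hd] at h2; simp at h2
    | some c => rw [hd] at h2; exact ⟨c, h2⟩
  · rintro ⟨c, hc⟩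
    refine ⟨Encodable.encode c, ?_, fun _ => trivial⟩
    rw [Encodable.encodek]
    simp [hc]

end Pool.Agent.R825.Iso
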