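import Mathlib
import Pool.Agent.R825.IsoRE1

/-!
# Isomorphism of finite presentations is recursively enumerable

Helper file for the frozen statement `S14615` (part T7).
-/

set_option autoImplicit false

namespace Pool.Agent.R825.Iso

/-- The relators, in the free group on `ℕ`. -/
def Rl (a : Cd) : Set (FreeGroup ℕ) := {g | ∃ j, g = FreeGroup.mk (rel a j)}

/-- The group presented by `a`, with generators all natural numbers. -/
abbrev H (a : Cd) : Type := PresentedGroup (Rl a)

/-- The class of a word. -/
def cl (a : Cd) (w : W) : H a := PresentedGroup.mk (Rl a) (FreeGroup.mk w)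

lemma mk_append (u v : W) : (FreeGroup.mk (u ++ v) : FreeGroup ℕ) = FreeGroup.mk u * FreeGroup.mk v :=
  FreeGroup.mul_mk.symm

lemma mk_inv (w : W) : (FreeGroup.mk (inv w) : FreeGroup ℕ) = (FreeGroup.mk w)⁻¹ :=
  FreeGroup.inv_mk.symm

lemma cl_append (a : Cd) (u v : W) : cl a (u ++ v) = cl a u * cl a v := by
  unfold cl; rw [mk_append, map_mul]

lemma cl_inv (a : Cd) (w : W) : cl a (inv w) = (cl a w)⁻¹ := by
  unfold cl; rw [mk_inv, map_inv]

lemma cl_nil (a : Cd) : cl a [] = 1 := by
  unfold cl
  rw [← FreeGroup.one_eq_mk, map_one]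

lemma cl_rel (a : Cd) (j : ℕ) : cl a (rel a j) = 1 := by
  unfold cl
  exact (PresentedGroup.mk_eq_one_iff).2 (Subgroup.subset_normalClosure ⟨j, rfl⟩)

lemma cl_mem {a : Cd} {w : W} (h : w ∈ a.2) : cl a w = 1 := by
  obtain ⟨j, hj, rfl⟩ := List.mem_iff_getElem.1 h
  have := cl_rel a j
  unfold rel at this
  rwa [if_pos hj, List.getD_eq_getElem _ _ hj] at this

lemma cl_big {a : Cd} {k : ℕ} (h : a.1 ≤ k) : cl a [(k, true)] = 1 := by
  have := cl_rel a (a.2.length + (k - a.1))
  unfold rel at this
  rwa [if_neg (by omega), show a.1 + (a.2.length + (k - a.1) - a.2.length) = k by omega] at this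

lemma cl_red {a : Cd} {u v : W} (h : red u = red v) : cl a u = cl a v := by
  unfold cl
  rw [red_eq, red_eq] at h
  have : (FreeGroup.mk u : FreeGroup ℕ) = FreeGroup.mk v := by
    apply FreeGroup.reduce.exact h
  rw [this]

lemma ev_nil (a : Cd) : ev a [] = [] := rfl

lemma ev_cons (a : Cd) (p : W × ℕ × Bool) (c : Ct) : ev a (p :: c) =
    (p.1 ++ ((bif p.2.2 then rel a p.2.1 else inv (rel a p.2.1)) ++ inv p.1)) ++ ev a c := by
  unfold ev; rw [List.flatMap_cons]

lemma ev_append (a : Cd) (c d : Ct) : ev a (c ++ d) = ev a c ++ ev a d := by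
  unfold ev; rw [List.flatMap_append]

lemma cl_ev (a : Cd) (c : Ct) : cl a (ev a c) = 1 := by
  induction c with
  | nil => exact cl_nil a
  | cons p c ih =>
    rw [ev_cons, cl_append, ih, mul_one, cl_append, cl_append, cl_inv]
    cases p.2.2
    · simp only [cond_false]
      rw [cl_inv, cl_rel]; group
    · simp only [cond_true]
      rw [cl_rel]; group

/-- The elements with a certificate. -/
def cer (a : Cd) : Subgroup (FreeGroup ℕ) where
  carrier := {g | ∃ c : Ct, g = FreeGroup.mk (ev a c)}
  one_mem' := ⟨[], by rw [ev_nil]; exact FreeGroup.one_eq_mk⟩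
  mul_mem' := by
    rintro _ _ ⟨c, rfl⟩ ⟨d, rfl⟩
    exact ⟨c ++ d, by rw [ev_append, mk_append]⟩
  inv_mem' := by
    rintro _ ⟨c, rfl⟩
    induction c with
    | nil => exact ⟨[], by rw [ev_nil, ← FreeGroup.one_eq_mk, inv_one]⟩
    | cons p c ih =>
      obtain ⟨d, hd⟩ := ih
      refine ⟨d ++ [(p.1, p.2.1, !p.2.2)], ?_⟩
      rw [ev_cons, mk_append, mul_inv_rev, hd, ev_append, ev_cons, ev_nil, List.append_nil,
        mk_append, mk_append, mk_append, mk_append, mk_append]
      congr 1
      cases p.2.2
      · simp only [cond_false, cond_true, Bool.not_false]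
        rw [mk_inv, mk_inv]; group
      · simp only [cond_false, cond_true, Bool.not_true]
        rw [mk_inv, mk_inv]; group

instance (a : Cd) : (cer a).Normal where
  conj_mem := by
    rintro _ ⟨c, rfl⟩ g
    have hg : g = FreeGroup.mk g.toWord := FreeGroup.mk_toWord.symm
    set u := g.toWord with hu
    rw [hg]
    refine ⟨c.map fun p => (u ++ p.1, p.2), ?_⟩
    induction c with
    | nil => rw [ev_nil, List.map_nil, ev_nil, ← FreeGroup.one_eq_mk]; group
    | cons p c ih =>
      rw [List.map_cons, ev_cons, ev_cons, mk_append (_ ++ _) (ev a (List.map _ c)), ← ih]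
      rw [mk_append, mk_append, mk_append, mk_append, mk_append, mk_append, mk_inv, mk_inv,
        mk_append]
      group

lemma cl_eq_one (a : Cd) (w : W) : cl a w = 1 ↔ ∃ c, red w = red (ev a c) := by
  constructor
  · intro h
    have h1 : FreeGroup.mk w ∈ Subgroup.normalClosure (Rl a) := (PresentedGroup.mk_eq_one_iff).1 h
    have h2 : Subgroup.normalClosure (Rl a) ≤ cer a := by
      apply Subgroup.normalClosure_le_normal
      rintro _ ⟨j, rfl⟩
      refine ⟨[([], j, true)], ?_⟩
      rw [ev_cons, ev_nil, List.append_nil]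
      simp [inv]
    obtain ⟨c, hc⟩ := h2 h1
    refine ⟨c, ?_⟩
    rw [red_eq, red_eq]
    have := congrArg FreeGroup.toWord hc
    rwa [FreeGroup.toWord_mk, FreeGroup.toWord_mk] at this
  · rintro ⟨c, hc⟩
    rw [cl_red hc, cl_ev]

/-! ### Homomorphisms -/

/-- The homomorphism from the free group given by a list of words. -/
def hm (b : Cd) (u : List W) : FreeGroup ℕ →* H b := FreeGroup.lift fun k => cl b (gen u k)

lemma hm_mk (b : Cd) (u : List W) (w : W) : hm b u (FreeGroup.mk w) = cl b (sub u w) := by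
  induction w with
  | nil =>
    rw [← FreeGroup.one_eq_mk, map_one]
    exact (cl_nil b).symm
  | cons q w ih =>
    have h1 : (FreeGroup.mk (q :: w) : FreeGroup ℕ) = FreeGroup.mk [q] * FreeGroup.mk w := by
      rw [← mk_append]; rfl
    have h2 : sub u (q :: w) = (bif q.2 then gen u q.1 else inv (gen u q.1)) ++ sub u w := by
      unfold sub; rw [List.flatMap_cons]
    rw [h1, map_mul, ih, h2, cl_append]
    congr 1
    obtain ⟨k, s⟩ := q
    cases s
    · have h3 : (FreeGroup.mk [(k, false)] : FreeGroup ℕ) = (FreeGroup.of k)⁻¹ := rfl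
      rw [h3, map_inv]
      unfold hm
      rw [FreeGroup.lift_apply_of]
      simp only [cond_false]
      rw [cl_inv]
    · have h3 : (FreeGroup.mk [(k, true)] : FreeGroup ℕ) = FreeGroup.of k := rfl
      rw [h3]
      unfold hm
      rw [FreeGroup.lift_apply_of]
      simp only [cond_true]

lemma cl_surj (a : Cd) (x : H a) : ∃ w, x = cl a w := by
  obtain ⟨g, rfl⟩ := PresentedGroup.mk_surjective (Rl a) x
  exact ⟨g.toWord, by unfold cl; rw [FreeGroup.mk_toWord]⟩

lemma gen_nil {u : List W} {k : ℕ} (h : u.length ≤ k) : gen u k = [] := by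
  unfold gen; rw [List.getD_eq_default _ _ h]

lemma sub_letter (u : List W) (k : ℕ) : sub u [(k, true)] = gen u k := by
  unfold sub
  rw [List.flatMap_cons, List.flatMap_nil, List.append_nil]
  rfl

/-- The homomorphism given by words. -/
def hmq {a b : Cd} {u v : List W} (hu : u.length ≤ a.1)
    (h : ∀ w ∈ need a b u v, cl b w = 1) : H a →* H b :=
  PresentedGroup.toGroup (f := fun k => cl b (gen u k)) (by
    rintro _ ⟨j, rfl⟩
    change hm b u _ = 1
    rw [hm_mk]
    unfold rel
    split_ifs with hj
    · apply h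
      unfold need
      rw [List.mem_append]
      left
      rw [List.getD_eq_getElem _ _ hj]
      exact List.mem_map_of_mem (List.getElem_mem hj)
    · rw [sub_letter, gen_nil (by omega), cl_nil])

lemma hmq_cl {a b : Cd} {u v : List W} (hu : u.length ≤ a.1)
    (h : ∀ w ∈ need a b u v, cl b w = 1) (w : W) : hmq hu h (cl a w) = cl b (sub u w) := by
  rw [← hm_mk]
  rfl

lemma hmq_comp {a b : Cd} {u v : List W} (hu : u.length ≤ a.1) (hv : v.length ≤ b.1)
    (h : ∀ w ∈ need a b u v, cl b w = 1) (h' : ∀ w ∈ need b a v u, cl a w = 1) :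
    (hmq hu h).comp (hmq hv h') = MonoidHom.id (H b) := by
  apply PresentedGroup.ext
  intro k
  have e : (PresentedGroup.of k : H b) = cl b [(k, true)] := rfl
  rw [MonoidHom.comp_apply, MonoidHom.id_apply, e, hmq_cl, hmq_cl, sub_letter]
  by_cases hk : k < b.1
  · have := h (sub u (gen v k) ++ [(k, false)]) (by
      unfold need
      rw [List.mem_append]
      right
      exact List.mem_map_of_mem (by simpa using hk))
    rw [cl_append] at this
    have h2 : cl b [(k, false)] = (cl b [(k, true)])⁻¹ := by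
      rw [← cl_inv]; rfl
    rw [h2] at this
    exact mul_inv_eq_one.1 this
  · rw [gen_nil (by omega), cl_big (by omega)]
    exact cl_nil b

lemma list_cert (a : Cd) (l : List W) :
    (∀ w ∈ l, cl a w = 1) ↔ ∃ cs : List Ct, l.map red = cs.map fun c => red (ev a c) := by
  induction l with
  | nil => exact ⟨fun _ => ⟨[], rfl⟩, fun _ w hw => absurd hw (List.not_mem_nil)⟩
  | cons x l ih =>
    constructor
    · intro h
      obtain ⟨cs, hcs⟩ := ih.1 fun w hw => h w (List.mem_cons_of_mem _ hw)
      obtain ⟨c, hc⟩ := (cl_eq_one a x).1 (h x List.mem_cons_self)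
      exact ⟨c :: cs, by rw [List.map_cons, List.map_cons, hcs, hc]⟩
    · rintro ⟨cs, hcs⟩
      cases cs with
      | nil => simp at hcs
      | cons c cs =>
        rw [List.map_cons, List.map_cons, List.cons.injEq] at hcs
        intro w hw
        rcases List.mem_cons.1 hw with rfl | hw
        · exact (cl_eq_one a _).2 ⟨c, hcs.1⟩
        · exact ih.2 ⟨cs, hcs.2⟩ w hw

/-- The words for an isomorphism. -/
lemma exists_words {a b : Cd} (e : H a ≃* H b) :
    ∃ u : List W, u.length = a.1 ∧ ∀ w, cl b (sub u w) = e (cl a w) := by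
  choose f hf using fun k : ℕ => cl_surj b (e (cl a [(k, true)]))
  refine ⟨(List.range a.1).map f, by simp, ?_⟩
  have key : hm b ((List.range a.1).map f) = (e : H a →* H b).comp (PresentedGroup.mk (Rl a)) := by
    apply FreeGroup.ext_hom
    intro k
    have h1 : hm b ((List.range a.1).map f) (FreeGroup.of k) =
        cl b (gen ((List.range a.1).map f) k) := by
      unfold hm; rw [FreeGroup.lift_apply_of]
    rw [h1]
    change _ = e (cl a [(k, true)])
    by_cases hk : k < a.1
    · have : gen ((List.range a.1).map f) k = f k := by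
        unfold gen
        rw [List.getD_eq_getElem _ _ (by simpa using hk)]
        simp
      rw [this, ← hf]
    · rw [gen_nil (by simpa using hk), cl_nil, cl_big (by omega), map_one]
  intro w
  rw [← hm_mk, key]
  rfl

theorem iso_iff (a b : Cd) : Nonempty (H a ≃* H b) ↔
    ∃ c : Cf, decide (chk a b c.1.1 c.1.2 c.2.1 c.2.2) = true := by
  constructor
  · rintro ⟨e⟩
    obtain ⟨u, hu, hu'⟩ := exists_words e
    obtain ⟨v, hv, hv'⟩ := exists_words e.symm
    have key : ∀ (a b : Cd) (e : H a ≃* H b) (u v : List W)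
        (hu' : ∀ w, cl b (sub u w) = e (cl a w)) (hv' : ∀ w, cl a (sub v w) = e.symm (cl b w)),
        ∀ w ∈ need a b u v, cl b w = 1 := by
      intro a b e u v hu' hv' w hw
      unfold need at hw
      rw [List.mem_append, List.mem_map, List.mem_map] at hw
      rcases hw with ⟨x, hx, rfl⟩ | ⟨k, hk, rfl⟩
      · rw [hu', cl_mem hx, map_one]
      · rw [cl_append, hu', ← sub_letter v k, hv', MulEquiv.apply_symm_apply, ← cl_append]
        rw [cl_red (v := []), cl_nil]
        unfold red stp; simp
    obtain ⟨cs, hcs⟩ := (list_cert b _).1 (key a b e u v hu' hv')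
    obtain ⟨ds, hds⟩ := (list_cert a _).1 (key b a e.symm v u hv' hu')
    exact ⟨((u, v), (cs, ds)), decide_eq_true ⟨hu.le, hv.le, hcs, hds⟩⟩
  · rintro ⟨⟨⟨u, v⟩, cs, ds⟩, h⟩
    obtain ⟨hu, hv, hcs, hds⟩ := of_decide_eq_true h
    have h1 := (list_cert b _).2 ⟨cs, hcs⟩
    have h2 := (list_cert a _).2 ⟨ds, hds⟩
    exact ⟨MonoidHom.toMulEquiv (hmq hu h1) (hmq hv h2) (hmq_comp hv hu h2 h1)
      (hmq_comp hu hv h1 h2)⟩

/-! ### The group with finitely many generators -/

/-- Restriction of a word to the letters `< n`. -/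
def flt (n : ℕ) (w : W) : List (Fin n × Bool) :=
  w.filterMap (fun q => if h : q.1 < n then some ((⟨q.1, h⟩ : Fin n), q.2) else none)

/-- The relators in the problem. -/
abbrev RF (a : Cd) : Set (FreeGroup (Fin a.1)) := {g | ∃ w ∈ a.2, g = FreeGroup.mk (flt a.1 w)}

/-- The inclusion of the letters `< n`. -/
def up (a : Cd) : FreeGroup (Fin a.1) →* H a :=
  FreeGroup.lift fun k => PresentedGroup.of (k : ℕ)

lemma up_flt (a : Cd) (w : W) : up a (FreeGroup.mk (flt a.1 w)) = cl a w := by
  induction w with
  | nil =>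
    have : (FreeGroup.mk (flt a.1 []) : FreeGroup (Fin a.1)) = 1 := FreeGroup.one_eq_mk.symm
    rw [this, map_one, cl_nil]
  | cons q w ih =>
    have e1 : cl a (q :: w) = cl a [q] * cl a w := by rw [← cl_append]; rfl
    rw [e1, ← ih]
    obtain ⟨k, s⟩ := q
    by_cases hk : k < a.1
    · have h2 : flt a.1 ((k, s) :: w) = [((⟨k, hk⟩ : Fin a.1), s)] ++ flt a.1 w := by
        unfold flt
        rw [List.filterMap_cons_some (b := ((⟨k, hk⟩ : Fin a.1), s)) (by simp [hk])]
        rfl
      rw [h2, ← FreeGroup.mul_mk, map_mul]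
      congr 1
      cases s
      · have h3 : (FreeGroup.mk [((⟨k, hk⟩ : Fin a.1), false)] : FreeGroup (Fin a.1)) =
            (FreeGroup.of ⟨k, hk⟩)⁻¹ := rfl
        have h4 : cl a [(k, false)] = (cl a [(k, true)])⁻¹ := by rw [← cl_inv]; rfl
        rw [h3, map_inv, h4]
        unfold up
        rw [FreeGroup.lift_apply_of]
        rfl
      · have h3 : (FreeGroup.mk [((⟨k, hk⟩ : Fin a.1), true)] : FreeGroup (Fin a.1)) =
            FreeGroup.of ⟨k, hk⟩ := rfl
        rw [h3]
        unfold up
        rw [FreeGroup.lift_apply_of]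
        rfl
    · have h2 : flt a.1 ((k, s) :: w) = flt a.1 w := by
        unfold flt
        rw [List.filterMap_cons_none (by simp [hk])]
      rw [h2]
      have h5 : cl a [(k, true)] = 1 := cl_big (by omega)
      have h4 : cl a [(k, false)] = (cl a [(k, true)])⁻¹ := by rw [← cl_inv]; rfl
      cases s
      · rw [h4, h5, inv_one, one_mul]
      · rw [h5, one_mul]

/-- Forgetting the letters `≥ n`. -/
def dn (a : Cd) : FreeGroup ℕ →* PresentedGroup (RF a) :=
  FreeGroup.lift fun k => if h : k < a.1 then PresentedGroup.of (⟨k, h⟩ : Fin a.1) else 1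

lemma dn_mk (a : Cd) (w : W) : dn a (FreeGroup.mk w) =
    PresentedGroup.mk (RF a) (FreeGroup.mk (flt a.1 w)) := by
  induction w with
  | nil =>
    have : (FreeGroup.mk (flt a.1 []) : FreeGroup (Fin a.1)) = 1 := FreeGroup.one_eq_mk.symm
    rw [this, map_one, ← FreeGroup.one_eq_mk, map_one]
  | cons q w ih =>
    have e1 : (FreeGroup.mk (q :: w) : FreeGroup ℕ) = FreeGroup.mk [q] * FreeGroup.mk w := by
      rw [← mk_append]; rfl
    rw [e1, map_mul, ih]
    obtain ⟨k, s⟩ := q
    have e2 : dn a (FreeGroup.mk [(k, s)]) = bif s then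
        (if h : k < a.1 then PresentedGroup.of (⟨k, h⟩ : Fin a.1) else 1) else
        (if h : k < a.1 then PresentedGroup.of (⟨k, h⟩ : Fin a.1) else 1)⁻¹ := by
      cases s
      · have h3 : (FreeGroup.mk [(k, false)] : FreeGroup ℕ) = (FreeGroup.of k)⁻¹ := rfl
        rw [h3, map_inv]
        unfold dn
        rw [FreeGroup.lift_apply_of]
        rfl
      · have h3 : (FreeGroup.mk [(k, true)] : FreeGroup ℕ) = FreeGroup.of k := rfl
        rw [h3]
        unfold dn
        rw [FreeGroup.lift_apply_of]
        rfl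
    rw [e2]
    by_cases hk : k < a.1
    · have h2 : flt a.1 ((k, s) :: w) = [((⟨k, hk⟩ : Fin a.1), s)] ++ flt a.1 w := by
        unfold flt
        rw [List.filterMap_cons_some (b := ((⟨k, hk⟩ : Fin a.1), s)) (by simp [hk])]
        rfl
      rw [h2, ← FreeGroup.mul_mk, map_mul]
      congr 1
      rw [dif_pos hk]
      cases s
      · rfl
      · rfl
    · have h2 : flt a.1 ((k, s) :: w) = flt a.1 w := by
        unfold flt
        rw [List.filterMap_cons_none (by simp [hk])]
      rw [h2, dif_neg hk]
      cases s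
      · simp only [cond_false]; rw [inv_one, one_mul]
      · simp only [cond_true]; rw [one_mul]

/-- The two presentations define the same group. -/
def equivH (a : Cd) : PresentedGroup (RF a) ≃* H a :=
  MonoidHom.toMulEquiv
    (PresentedGroup.toGroup (f := fun k : Fin a.1 => (PresentedGroup.of (k : ℕ) : H a)) (by
      rintro _ ⟨w, hw, rfl⟩
      change up a _ = 1
      rw [up_flt, cl_mem hw]))
    (PresentedGroup.toGroup (f := fun k : ℕ => if h : k < a.1 then
        (PresentedGroup.of (⟨k, h⟩ : Fin a.1) : PresentedGroup (RF a)) else 1) (by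
      rintro _ ⟨j, rfl⟩
      change dn a _ = 1
      rw [dn_mk]
      unfold rel
      split_ifs with hj
      · rw [List.getD_eq_getElem _ _ hj]
        exact (PresentedGroup.mk_eq_one_iff).2 (Subgroup.subset_normalClosure
          ⟨_, List.getElem_mem hj, rfl⟩)
      · have : flt a.1 [(a.1 + (j - a.2.length), true)] = [] := by
          unfold flt
          rw [List.filterMap_cons_none (by simp)]
          rfl
        rw [this, ← FreeGroup.one_eq_mk, map_one]))
    (by
      apply PresentedGroup.ext
      intro k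
      rw [MonoidHom.comp_apply, PresentedGroup.toGroup.of, PresentedGroup.toGroup.of,
        dif_pos k.2]
      rfl)
    (by
      apply PresentedGroup.ext
      intro k
      rw [MonoidHom.comp_apply, PresentedGroup.toGroup.of]
      by_cases hk : k < a.1
      · rw [dif_pos hk, PresentedGroup.toGroup.of]
        rfl
      · rw [dif_neg hk, map_one]
        exact (cl_big (a := a) (k := k) (by omega)).symm)

end Pool.Agent.R825.Iso

namespace Pool.Agent.R554.CE

open Pool.Agent.R825.Iso in
/-- Isomorphism of finite presentations is recursively enumerable. -/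
theorem iso_re : REPred (fun p : (ℕ × List (List (ℕ × Bool))) × (ℕ × List (List (ℕ × Bool))) =>
    Nonempty (PresentedGroup {g : FreeGroup (Fin p.1.1) | ∃ w ∈ p.1.2, g = FreeGroup.mk
            (w.filterMap (fun q => if h : q.1 < p.1.1 then some ((⟨q.1, h⟩ : Fin p.1.1), q.2) else none))}
          ≃* PresentedGroup {g : FreeGroup (Fin p.2.1) | ∃ w ∈ p.2.2, g = FreeGroup.mk
            (w.filterMap (fun q => if h : q.1 < p.2.1 then some ((⟨q.1, h⟩ : Fin p.2.1), q.2) else none))})) := by
  refine (re_cert chk_prim).of_eq fun p => ?_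
  refine (iso_iff p.1 p.2).symm.trans ?_
  exact ⟨fun ⟨e⟩ => ⟨(equivH p.1).trans (e.trans (equivH p.2).symm)⟩,
    fun ⟨e⟩ => ⟨(equivH p.1).symm.trans (e.trans (equivH p.2))⟩⟩

end Pool.Agent.R554.CE
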