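import Pool.Agent.R825.LmpThick

/-!
# The state spaces of the counterexample

The three spaces `T3`, `QQ`, `PP` carry σ-algebras pulled back from product spaces, and measures
pulled back along maps with thick range.

Helper file for `MP_6dbda4_lc`.
-/

open MeasureTheory Set ProbabilityTheory
open scoped ENNReal unitInterval

namespace Pool.Agent.R825.Lmp

/-- Pullback of a measure along a map with thick range. -/
theorem exists_pullback {α β : Type*} [MeasurableSpace β] (φ : α → β) (ν : Measure β)
    (h : ∀ D, MeasurableSet D → φ ⁻¹' D = ∅ → ν D = 0) :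
    ∃ ν' : @Measure α (MeasurableSpace.comap φ inferInstance),
      ∀ D, MeasurableSet D → ν' (φ ⁻¹' D) = ν D := by
  let mα : MeasurableSpace α := MeasurableSpace.comap φ inferInstance
  have hex : ∀ A : Set α, MeasurableSet A → ∃ D, MeasurableSet D ∧ φ ⁻¹' D = A := fun A hA => hA
  have key : ∀ D D' : Set β, MeasurableSet D → MeasurableSet D' → φ ⁻¹' D = φ ⁻¹' D' →
      ν D = ν D' := by
    intro D D' hD hD' he
    refine measure_congr (measure_symmDiff_eq_zero_iff.1 (h _ (hD.symmDiff hD') ?_))
    ext x
    have := Set.ext_iff.1 he x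
    simp only [Set.mem_preimage] at this
    simp only [Set.mem_preimage, Set.mem_symmDiff, Set.mem_empty_iff_false, iff_false, this]
    tauto
  let m : ∀ A : Set α, MeasurableSet A → ℝ≥0∞ := fun A hA => ν (hex A hA).choose
  have hm : ∀ (A : Set α) (hA : MeasurableSet A) (D : Set β), MeasurableSet D → φ ⁻¹' D = A →
      m A hA = ν D := by
    intro A hA D hD he
    exact key _ _ (hex A hA).choose_spec.1 hD ((hex A hA).choose_spec.2.trans he.symm)
  refine ⟨Measure.ofMeasurable m ?_ ?_, ?_⟩
  · rw [hm ∅ MeasurableSet.empty ∅ MeasurableSet.empty (by simp), measure_empty]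
  · intro A hA hd
    have hD : ∀ n, MeasurableSet (hex (A n) (hA n)).choose := fun n =>
      (hex (A n) (hA n)).choose_spec.1
    have hDA : ∀ n, φ ⁻¹' (hex (A n) (hA n)).choose = A n := fun n =>
      (hex (A n) (hA n)).choose_spec.2
    rw [hm _ (MeasurableSet.iUnion hA) (⋃ n, (hex (A n) (hA n)).choose) (MeasurableSet.iUnion hD)
      (by rw [Set.preimage_iUnion]; exact Set.iUnion_congr hDA)]
    refine measure_iUnion₀ ?_ fun n => (hD n).nullMeasurableSet
    intro i j hij
    refine h _ ((hD i).inter (hD j)) ?_
    rw [Set.preimage_inter, hDA, hDA]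
    exact (hd hij).inter_eq
  · intro D hD
    have hD' : MeasurableSet (φ ⁻¹' D) := ⟨D, hD, rfl⟩
    rw [Measure.ofMeasurable_apply _ hD']
    exact hm _ hD' D hD rfl

/-- The label `ω₁`-coordinate. -/
noncomputable def kk : I → Om := exists_labelling.choose

/-- The label in the cube. -/
noncomputable def yy : I → Cube := exists_labelling.choose_spec.choose

lemma thick (k : Om) (D : Set (I × Cube)) (hD : MeasurableSet D) (h : MM D ≠ 0) :
    ∃ p, kk p = k ∧ (p, yy p) ∈ D :=
  exists_labelling.choose_spec.choose_spec k D hD h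

/-- Third level of `T`. -/
structure T3 : Type where
  /-- point of `ω₁` -/
  w : Om
  /-- point of `[0,1]` -/
  p : I

/-- Third level of `S`. -/
structure QQ : Type where
  /-- point of `ω₁` -/
  w : Om
  /-- point of `[0,1]` -/
  p : I

/-- Third level of `S'`. -/
structure PP : Type where
  /-- point of `[0,1]` -/
  p : I

open Classical in
/-- The flipping pattern of a point of `ω₁ × ω₁`. -/
noncomputable def sgn (z : ZZ) : Idx → Bool := fun A => decide (z ∉ A.1)

/-- The embedding defining the σ-algebra of `T3`. -/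
noncomputable def phi (t : T3) : ZZ × (I × Cube) := (⟨t.w, kk t.p⟩, (t.p, yy t.p))

/-- The embedding defining the σ-algebra of `QQ`. -/
noncomputable def psi (q : QQ) : Om × (I × Cube) := (q.w, flip (sgn ⟨q.w, kk q.p⟩) (q.p, yy q.p))

/-- The embedding defining the σ-algebra of `PP`. -/
noncomputable def chi (p : PP) : I × Cube := (p.p, yy p.p)

noncomputable instance : MeasurableSpace T3 := MeasurableSpace.comap phi inferInstance
noncomputable instance : MeasurableSpace QQ := MeasurableSpace.comap psi inferInstance
noncomputable instance : MeasurableSpace PP := MeasurableSpace.comap chi inferInstance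

lemma measurable_phi : Measurable phi := comap_measurable phi
lemma measurable_psi : Measurable psi := comap_measurable psi
lemma measurable_chi : Measurable chi := comap_measurable chi

/-- The comparison map on the ambient spaces. -/
noncomputable def GG (x : ZZ × (I × Cube)) : Om × (I × Cube) := (x.1.fst, flip (sgn x.1) x.2)

lemma measurable_sgn (A : Idx) : Measurable fun z : ZZ => sgn z A := by
  classical
  refine measurable_to_bool ?_
  have : (fun z : ZZ => sgn z A) ⁻¹' {true} = A.1ᶜ := by
    ext z
    simp [sgn]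
  rw [this]
  exact A.2.compl

lemma measurable_GG : Measurable GG := by
  refine (measurable_ZZfst.comp measurable_fst).prodMk ?_
  unfold flip
  refine (measurable_fst.comp measurable_snd).prodMk (measurable_pi_lambda _ fun A => ?_)
  have h1 : Measurable fun b : Bool × Bool => xor b.1 b.2 := measurable_of_finite _
  have h2 : Measurable fun x : ZZ × (I × Cube) => (x.2.2 A, sgn x.1 A) :=
    ((measurable_pi_apply A).comp (measurable_snd.comp measurable_snd)).prodMk
      ((measurable_sgn A).comp measurable_fst)
  exact h1.comp h2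

/-- The map `T3 → QQ`. -/
def f3 (t : T3) : QQ := ⟨t.w, t.p⟩

/-- The map `T3 → PP`. -/
def g3 (t : T3) : PP := ⟨t.p⟩

lemma psi_f3 : psi ∘ f3 = GG ∘ phi := rfl

lemma chi_g3 : chi ∘ g3 = Prod.snd ∘ phi := rfl

lemma measurable_f3 : Measurable f3 := by
  rw [measurable_comap_iff, psi_f3]
  exact measurable_GG.comp measurable_phi

lemma measurable_g3 : Measurable g3 := by
  rw [measurable_comap_iff, chi_g3]
  exact measurable_snd.comp measurable_phi

lemma exists_ee (z : ZZ) : ∃ ν : Measure T3, ∀ D, MeasurableSet D →
    ν (phi ⁻¹' D) = MM (Prod.mk z ⁻¹' D) := by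
  obtain ⟨ν, hν⟩ := exists_pullback phi (MM.map (Prod.mk z)) (by
    intro D hD he
    rw [Measure.map_apply measurable_prodMk_left hD]
    by_contra hne
    obtain ⟨p, hpk, hp⟩ := thick z.snd _ (measurable_prodMk_left hD) hne
    have : (⟨z.fst, p⟩ : T3) ∈ phi ⁻¹' D := by
      simp only [Set.mem_preimage, phi, hpk]
      exact hp
    rw [he] at this
    exact this)
  refine ⟨ν, fun D hD => ?_⟩
  rw [hν D hD, Measure.map_apply measurable_prodMk_left hD]

/-- The transition measures of the second level of `T`. -/
noncomputable def ee (z : ZZ) : Measure T3 := (exists_ee z).choose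

lemma ee_apply (z : ZZ) {D : Set (ZZ × (I × Cube))} (hD : MeasurableSet D) :
    ee z (phi ⁻¹' D) = MM (Prod.mk z ⁻¹' D) := (exists_ee z).choose_spec D hD

lemma measurable_ee : Measurable ee := by
  refine Measure.measurable_of_measurable_coe _ ?_
  rintro _ ⟨D, hD, rfl⟩
  simp only [ee_apply _ hD]
  exact measurable_measure_prodMk_left hD

lemma ee_univ (z : ZZ) : ee z Set.univ = 1 := by
  have := ee_apply z MeasurableSet.univ
  simpa using this

/-- The transition measures of the second level of `S`. -/
noncomputable def alpha (w : Om) : Measure QQ := (ee ⟨w, default⟩).map f3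

lemma map_f3_apply (z : ZZ) {D : Set (Om × (I × Cube))} (hD : MeasurableSet D) :
    (ee z).map f3 (psi ⁻¹' D) = MM (Prod.mk z.fst ⁻¹' D) := by
  rw [Measure.map_apply measurable_f3 (measurable_psi hD)]
  have h1 : f3 ⁻¹' (psi ⁻¹' D) = phi ⁻¹' (GG ⁻¹' D) := rfl
  rw [h1, ee_apply z (measurable_GG hD)]
  have h2 : Prod.mk z ⁻¹' (GG ⁻¹' D) = flip (sgn z) ⁻¹' (Prod.mk z.fst ⁻¹' D) := rfl
  rw [h2, ← Measure.map_apply (measurable_flip _) (measurable_prodMk_left hD), map_flip]

lemma alpha_apply (w : Om) {D : Set (Om × (I × Cube))} (hD : MeasurableSet D) :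
    alpha w (psi ⁻¹' D) = MM (Prod.mk w ⁻¹' D) := map_f3_apply _ hD

lemma map_f3 (z : ZZ) : (ee z).map f3 = alpha z.fst := by
  refine Measure.ext ?_
  rintro _ ⟨D, hD, rfl⟩
  rw [map_f3_apply z hD, alpha_apply _ hD]

lemma measurable_alpha : Measurable alpha := by
  refine Measure.measurable_of_measurable_coe _ ?_
  rintro _ ⟨D, hD, rfl⟩
  simp only [alpha_apply _ hD]
  exact measurable_measure_prodMk_left hD

lemma alpha_univ (w : Om) : alpha w Set.univ = 1 := by
  have := alpha_apply w MeasurableSet.univ
  simpa using this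

/-- The transition measure of the second level of `S'`. -/
noncomputable def beta : Measure PP := (ee ⟨default, default⟩).map g3

lemma map_g3_apply (z : ZZ) {D : Set (I × Cube)} (hD : MeasurableSet D) :
    (ee z).map g3 (chi ⁻¹' D) = MM D := by
  rw [Measure.map_apply measurable_g3 (measurable_chi hD)]
  have h1 : g3 ⁻¹' (chi ⁻¹' D) = phi ⁻¹' (Prod.snd ⁻¹' D) := rfl
  rw [h1, ee_apply z (measurable_snd hD)]
  rfl

lemma map_g3 (z : ZZ) : (ee z).map g3 = beta := by
  refine Measure.ext ?_
  rintro _ ⟨D, hD, rfl⟩
  rw [map_g3_apply z hD, beta, map_g3_apply _ hD]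

lemma beta_univ : beta Set.univ = 1 := by
  have := map_g3_apply ⟨default, default⟩ MeasurableSet.univ
  simpa [beta] using this

lemma measurableSet_col (w : Om) : MeasurableSet {q : QQ | q.w = w} :=
  ⟨Prod.fst ⁻¹' {w}, measurable_fst (measurableSet_singleton w), rfl⟩

lemma alpha_col (w : Om) : alpha w {q : QQ | q.w ≠ w} = 0 := by
  have h : {q : QQ | q.w ≠ w} = psi ⁻¹' (Prod.fst ⁻¹' {w}ᶜ) := rfl
  rw [h, alpha_apply w (measurable_fst (measurableSet_singleton w).compl)]
  have : Prod.mk w ⁻¹' (Prod.fst ⁻¹' {w}ᶜ) = (∅ : Set (I × Cube)) := by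
    ext x; simp
  rw [this, measure_empty]

/-- Masses. -/
noncomputable def mass (p : I) : ℝ≥0∞ := ENNReal.ofReal p

lemma measurable_mass : Measurable mass := measurable_subtype_coe.ennreal_ofReal

lemma mass_le (p : I) : mass p ≤ 1 := by
  unfold mass
  rw [← ENNReal.ofReal_one]
  exact ENNReal.ofReal_le_ofReal p.2.2

lemma mass_inj {p q : I} (h : mass p = mass q) : p = q := by
  unfold mass at h
  exact Subtype.ext ((ENNReal.ofReal_eq_ofReal_iff p.2.1 q.2.1).1 h)

lemma measurable_massT : Measurable fun t : T3 => mass t.p :=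
  measurable_mass.comp (measurable_fst.comp (measurable_snd.comp measurable_phi))

lemma measurable_massQ : Measurable fun q : QQ => mass q.p :=
  measurable_mass.comp (measurable_fst.comp (measurable_snd.comp measurable_psi))

lemma measurable_massP : Measurable fun p : PP => mass p.p :=
  measurable_mass.comp (measurable_fst.comp measurable_chi)

end Pool.Agent.R825.Lmp
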