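import Pool.Agent.R825.LmpUlam

/-!
# Thick labellings of the unit interval

There are functions `kk : [0,1] → ω₁` and `yy : [0,1] → {0,1}^𝒜` (where `𝒜` is the family of all
measurable subsets of `ω₁ × ω₁`) such that, for every `k`, the graph of `yy` over `{kk = k}` meets
every measurable set of positive measure in `[0,1] × {0,1}^𝒜`.

Helper file for `MP_6dbda4_lc`.
-/

open MeasureTheory Set Cardinal
open scoped ENNReal unitInterval

universe u

namespace Pool.Agent.R825.Lmp

/-- Injective choice functions for families of large sets. -/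
theorem exists_injective_choice {J X : Type u} [Nonempty X] (F : J → Set X) (κ : Cardinal.{u})
    (hJ : #J ≤ κ) (hF : ∀ i, κ ≤ #(F i)) :
    ∃ ψ : J → X, Function.Injective ψ ∧ ∀ i, ψ i ∈ F i := by
  classical
  have hinj : Nonempty (J ↪ κ.ord.ToType) := by
    rw [← Cardinal.le_def]
    simpa using hJ
  obtain ⟨j⟩ := hinj
  have wf : WellFounded (fun a b : J => j a < j b) := InvImage.wf j wellFounded_lt
  let ψ : J → X := wf.fix (fun i rec =>
    if h : ∃ x ∈ F i, ∀ i' (h : j i' < j i), rec i' h ≠ x then h.choose else Classical.arbitrary X)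
  have hψ : ∀ i, ψ i = if h : ∃ x ∈ F i, ∀ i' (_ : j i' < j i), ψ i' ≠ x then h.choose
      else Classical.arbitrary X := fun i => wf.fix_eq _ i
  have hex : ∀ i, ∃ x ∈ F i, ∀ i' (_ : j i' < j i), ψ i' ≠ x := by
    intro i
    by_contra hcon
    push Not at hcon
    have hsub : F i ⊆ ψ '' {i' | j i' < j i} := by
      intro x hx
      obtain ⟨i', hi', h⟩ := hcon x hx
      exact ⟨i', hi', h⟩
    have h1 : #(F i) ≤ #{i' | j i' < j i} := (Cardinal.mk_le_mk_of_subset hsub).trans
      Cardinal.mk_image_le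
    have h2 : #{i' | j i' < j i} ≤ #(Set.Iio (j i)) := by
      refine Cardinal.mk_le_of_injective (f := fun x => ⟨j x.1, x.2⟩) ?_
      intro a b hab
      exact Subtype.ext (j.injective (Subtype.mk.inj hab))
    exact absurd ((hF i).trans (h1.trans h2)) (not_le.2 (Cardinal.mk_Iio_toType_ord_lt (j i)))
  have hmem : ∀ i, ψ i ∈ F i ∧ ∀ i' (_ : j i' < j i), ψ i' ≠ ψ i := by
    intro i
    rw [hψ i, dif_pos (hex i)]
    exact (hex i).choose_spec
  refine ⟨ψ, ?_, fun i => (hmem i).1⟩
  intro a b hab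
  by_contra hne
  rcases lt_or_gt_of_ne (fun h => hne (j.injective h)) with h | h
  · exact (hmem b).2 a h hab
  · exact (hmem a).2 b h hab.symm

/-- A measurable set of positive measure in `[0,1]` has the size of the continuum. -/
lemma continuum_le_mk {D : Set I} (hD : MeasurableSet D) (hpos : 0 < (volume : Measure I) D) :
    𝔠 ≤ #D := by
  obtain ⟨K, hKD, hK, hKpos⟩ := hD.exists_lt_isCompact hpos
  have hunc : ¬ K.Countable := by
    intro hc
    exact hKpos.ne' (hc.measure_zero _)
  obtain ⟨f, hf, -, hinj⟩ := hK.isClosed.exists_nat_bool_injection_of_not_countable hunc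
  have h1 : #(ℕ → Bool) ≤ #K := by
    refine Cardinal.mk_le_of_injective (f := fun x => ⟨f x, hf ⟨x, rfl⟩⟩) ?_
    intro a b hab
    exact hinj (Subtype.mk.inj hab)
  have h2 : #(ℕ → Bool) = 𝔠 := by simp
  rw [← h2]
  exact h1.trans (Cardinal.mk_le_mk_of_subset hKD)

/-- The index set: all measurable subsets of `ω₁ × ω₁`. -/
def Idx : Type := {A : Set ZZ // MeasurableSet A}

/-- Codes for labels. -/
abbrev Code : Type := (ℕ → ZZ) × ((ℕ → Set ℕ × Bool) × Om)

lemma mk_Om_le : #Om ≤ 𝔠 := by
  rw [mk_Om]; exact Cardinal.aleph_one_le_continuum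

lemma mk_ZZ_le : #ZZ ≤ 𝔠 := by
  have h : #ZZ ≤ #(Om × Om) := by
    refine Cardinal.mk_le_of_injective (f := fun z => (z.fst, z.snd)) ?_
    rintro ⟨a, b⟩ ⟨c, d⟩ h
    simpa using h
  refine h.trans ?_
  rw [Cardinal.mk_prod, Cardinal.lift_id]
  exact (mul_le_mul' mk_Om_le mk_Om_le).trans (by simp)

lemma mk_Code_le : #Code ≤ 𝔠 := by
  have h1 : #(ℕ → ZZ) ≤ 𝔠 := by
    rw [Cardinal.mk_arrow, Cardinal.lift_id, Cardinal.lift_id, Cardinal.mk_nat]
    calc #ZZ ^ ℵ₀ ≤ 𝔠 ^ ℵ₀ := Cardinal.power_le_power_right mk_ZZ_le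
      _ = 𝔠 := Cardinal.continuum_power_aleph0
  have h2 : #(ℕ → Set ℕ × Bool) ≤ 𝔠 := by
    rw [Cardinal.mk_arrow, Cardinal.lift_id, Cardinal.lift_id, Cardinal.mk_nat]
    have h3 : #(Set ℕ × Bool) ≤ 𝔠 := by
      rw [Cardinal.mk_prod, Cardinal.lift_id, Cardinal.lift_id, Cardinal.mk_set]
      calc 2 ^ #ℕ * #Bool ≤ 𝔠 * 𝔠 := by
            refine mul_le_mul' (by simp) ?_
            simpa using (Cardinal.nat_lt_continuum 2).le
        _ = 𝔠 := by simp
    calc #(Set ℕ × Bool) ^ ℵ₀ ≤ 𝔠 ^ ℵ₀ := Cardinal.power_le_power_right h3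
      _ = 𝔠 := Cardinal.continuum_power_aleph0
  simp only [Code, Cardinal.mk_prod, Cardinal.lift_id]
  calc #(ℕ → ZZ) * (#(ℕ → Set ℕ × Bool) * #Om) ≤ 𝔠 * (𝔠 * 𝔠) :=
        mul_le_mul' h1 (mul_le_mul' h2 mk_Om_le)
    _ = 𝔠 := by simp

lemma mk_measurable_le : #{D : Set I // MeasurableSet D} ≤ 𝔠 := by
  obtain ⟨b, hb, -, hgen⟩ := TopologicalSpace.exists_countable_basis I
  have h1 : (borel I) = MeasurableSpace.generateFrom b := hgen.borel_eq_generateFrom
  have h2 := MeasurableSpace.cardinal_measurableSet_le_continuum (s := b)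
    ((Cardinal.mk_le_aleph0_iff.2 hb.to_subtype).trans Cardinal.aleph0_le_continuum)
  rw [← h1] at h2
  rw [BorelSpace.measurable_eq (α := I)]
  exact h2

instance : Nonempty Code := ⟨(fun _ => ⟨default, default⟩, fun _ => (∅, true), default)⟩

/-- There is a labelling of `[0,1]` by codes whose fibres all have full outer measure. -/
theorem exists_code : ∃ c : I → Code, ∀ (γ : Code) (D : Set I), MeasurableSet D →
    0 < (volume : Measure I) D → ∃ p ∈ D, c p = γ := by
  let J : Type := {D : Set I // MeasurableSet D ∧ 0 < (volume : Measure I) D} × Code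
  have hJ : #J ≤ 𝔠 := by
    have h1 : #{D : Set I // MeasurableSet D ∧ 0 < (volume : Measure I) D} ≤ 𝔠 := by
      refine le_trans ?_ mk_measurable_le
      refine Cardinal.mk_le_of_injective (f := fun x => ⟨x.1, x.2.1⟩) ?_
      intro a b hab
      exact Subtype.ext (Subtype.mk.inj hab)
    simp only [J, Cardinal.mk_prod, Cardinal.lift_id]
    calc _ ≤ 𝔠 * 𝔠 := mul_le_mul' h1 (by simpa [Cardinal.mk_prod] using mk_Code_le)
      _ = 𝔠 := by simp
  obtain ⟨ψ, hinj, hψ⟩ := exists_injective_choice (fun i : J => i.1.1) 𝔠 hJ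
    (fun i => continuum_le_mk i.1.2.1 i.1.2.2)
  refine ⟨Function.extend ψ (fun i => i.2) (fun _ => Classical.arbitrary _), ?_⟩
  intro γ D hD hpos
  refine ⟨ψ (⟨D, hD, hpos⟩, γ), hψ (⟨D, hD, hpos⟩, γ), ?_⟩
  rw [hinj.extend_apply]

/-- The cube `{0,1}^𝒜`. -/
abbrev Cube : Type := Idx → Bool

/-- The fair coin. -/
noncomputable def coin : Measure Bool := (2⁻¹ : ℝ≥0∞) • (Measure.dirac true + Measure.dirac false)

instance : IsProbabilityMeasure coin := ⟨by
  simp only [coin, Measure.smul_apply, Measure.add_apply, measure_univ, smul_eq_mul]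
  rw [one_add_one_eq_two]
  exact ENNReal.inv_mul_cancel (by simp) (by simp)⟩

lemma coin_map_not : coin.map (fun b => !b) = coin := by
  have hm : Measurable (fun b : Bool => !b) := measurable_from_top
  simp only [coin, Measure.map_smul]
  rw [Measure.map_add _ _ hm, Measure.map_dirac' hm, Measure.map_dirac' hm, add_comm]
  rfl

/-- The product measure on the cube. -/
noncomputable def cubeM : Measure Cube := Measure.infinitePi fun _ : Idx => coin

instance : IsProbabilityMeasure cubeM := by unfold cubeM; infer_instance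

/-- The probability measure on `[0,1] × {0,1}^𝒜`. -/
noncomputable def MM : Measure (I × Cube) := (volume : Measure I).prod cubeM

instance : IsProbabilityMeasure MM := by unfold MM; infer_instance

/-- Flipping coordinates. -/
def flip (s : Idx → Bool) : I × Cube → I × Cube := fun x => (x.1, fun A => xor (x.2 A) (s A))

lemma measurable_flip (s : Idx → Bool) : Measurable (flip s) := by
  refine measurable_fst.prodMk (measurable_pi_lambda _ fun A => ?_)
  have h1 : Measurable fun b : Bool => xor b (s A) := measurable_from_top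
  exact h1.comp ((measurable_pi_apply A).comp measurable_snd)

lemma map_flip (s : Idx → Bool) : MM.map (flip s) = MM := by
  have h0 : ∀ A : Idx, Measurable fun b : Bool => xor b (s A) := fun A => measurable_from_top
  have h1 : cubeM.map (fun y A => xor (y A) (s A)) = cubeM := by
    unfold cubeM
    rw [Measure.infinitePi_map_pi (μ := fun _ : Idx => coin) (f := fun A b => xor b (s A)) h0]
    congr 1
    funext A
    cases h : s A
    · simp
    · simpa using coin_map_not
  have h2 : flip s = Prod.map id (fun (y : Cube) A => xor (y A) (s A)) := rfl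
  have h3 : Measurable (fun (y : Cube) A => xor (y A) (s A)) :=
    measurable_pi_lambda _ fun A => (h0 A).comp (measurable_pi_apply A)
  rw [h2]
  unfold MM
  rw [← Measure.map_prod_map _ _ measurable_id h3, h1, Measure.map_id]

/-- A measurable set in `[0,1] × {0,1}^𝒜` depends on countably many coordinates only. -/
lemma exists_countable_dep {D : Set (I × Cube)} (hD : MeasurableSet D) :
    ∃ C : Set Idx, C.Countable ∧ ∀ p (y y' : Cube), (∀ A ∈ C, y A = y' A) →
      ((p, y) ∈ D ↔ (p, y') ∈ D) := by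
  let m' : MeasurableSpace (I × Cube) :=
    { MeasurableSet' := fun D => ∃ C : Set Idx, C.Countable ∧ ∀ p (y y' : Cube),
        (∀ A ∈ C, y A = y' A) → ((p, y) ∈ D ↔ (p, y') ∈ D)
      measurableSet_empty := ⟨∅, Set.countable_empty, by simp⟩
      measurableSet_compl := by
        rintro D ⟨C, hC, h⟩
        exact ⟨C, hC, fun p y y' hy => not_congr (h p y y' hy)⟩
      measurableSet_iUnion := by
        intro D h
        choose C hC h using h
        refine ⟨⋃ n, C n, Set.countable_iUnion hC, fun p y y' hy => ?_⟩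
        simp only [Set.mem_iUnion]
        exact exists_congr fun n => h n p y y' fun A hA => hy A (Set.mem_iUnion.2 ⟨n, hA⟩) }
  have hle : (Prod.instMeasurableSpace : MeasurableSpace (I × Cube)) ≤ m' := by
    refine sup_le ?_ ?_
    · rintro _ ⟨S, -, rfl⟩
      exact ⟨∅, Set.countable_empty, fun p y y' _ => Iff.rfl⟩
    · rw [MeasurableSpace.comap_le_iff_le_map]
      refine iSup_le fun A => ?_
      rintro _ ⟨S, -, rfl⟩
      refine ⟨{A}, Set.countable_singleton A, fun p y y' h => ?_⟩
      simp only [Set.mem_preimage]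
      rw [h A rfl]
  exact hle D hD

open Classical in
/-- The label of `A` determined by a code. -/
noncomputable def lab (γ : Code) (A : Idx) : Bool :=
  decide (∃ m, γ.2.1 m = ({n | γ.1 n ∈ A.1}, true))

/-- Every countable pattern of labels is given by a code. -/
lemma exists_lab (C : Set Idx) (hC : C.Countable) (y : Cube) (k : Om) :
    ∃ γ : Code, γ.2.2 = k ∧ ∀ A ∈ C, lab γ A = y A := by
  classical
  rcases C.eq_empty_or_nonempty with rfl | hne
  · exact ⟨(fun _ => ⟨k, k⟩, fun _ => (∅, true), k), rfl, by simp⟩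
  obtain ⟨a, rfl⟩ := hC.exists_eq_range hne
  have hsep : ∀ i j : ℕ, ∃ z : ZZ, a i ≠ a j → ¬ (z ∈ (a i).1 ↔ z ∈ (a j).1) := by
    intro i j
    by_contra hcon
    push Not at hcon
    have h := hcon ⟨k, k⟩
    exact h.1 (Subtype.ext (Set.ext fun z => (hcon z).2))
  choose z hz using hsep
  let e : ℕ → ZZ := fun n => z n.unpair.1 n.unpair.2
  have he : ∀ i j, {n | e n ∈ (a i).1} = {n | e n ∈ (a j).1} → a i = a j := by
    intro i j h
    by_contra hne
    apply hz i j hne
    have h2 := Set.ext_iff.1 h (Nat.pair i j)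
    simpa [e] using h2
  refine ⟨(e, fun m => ({n | e n ∈ (a m).1}, y (a m)), k), rfl, ?_⟩
  rintro _ ⟨j, rfl⟩
  unfold lab
  by_cases hy : y (a j) = true
  · rw [hy]
    simp only [decide_eq_true_eq]
    exact ⟨j, by simp [hy]⟩
  · have hy' : y (a j) = false := by simpa using hy
    rw [hy']
    simp only [decide_eq_false_iff_not, not_exists]
    intro m hm
    simp only [Prod.mk.injEq] at hm
    have := he m j hm.1
    rw [this] at hm
    exact hy hm.2

/-- **The thick labelling.** -/
theorem exists_labelling : ∃ (kk : I → Om) (yy : I → Cube), ∀ (k : Om) (D : Set (I × Cube)),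
    MeasurableSet D → MM D ≠ 0 → ∃ p, kk p = k ∧ (p, yy p) ∈ D := by
  obtain ⟨c, hc⟩ := exists_code
  refine ⟨fun p => (c p).2.2, fun p => lab (c p), ?_⟩
  intro k D hD hpos
  obtain ⟨C, hC, hdep⟩ := exists_countable_dep hD
  have h1 : ∃ y : Cube, (volume : Measure I) ((fun p => (p, y)) ⁻¹' D) ≠ 0 := by
    by_contra hcon
    push Not at hcon
    apply hpos
    unfold MM
    rw [Measure.prod_apply_symm hD]
    simp [hcon]
  obtain ⟨y, hy⟩ := h1
  obtain ⟨γ, hγk, hγ⟩ := exists_lab C hC y k
  obtain ⟨p, hp, hcp⟩ := hc γ ((fun p => (p, y)) ⁻¹' D) (measurable_prodMk_right hD)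
    (pos_iff_ne_zero.2 hy)
  refine ⟨p, by simp only [hcp, hγk], ?_⟩
  rw [hdep p (lab (c p)) y (by rw [hcp]; exact hγ)]
  exact hp

end Pool.Agent.R825.Lmp
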