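import Mathlib

/-!
# Ulam's theorem for `ω₁` and a two-valued measure on `ω₁ × ω₁`

Helper file for `MP_6dbda4_lc` (span bisimilarity and coalgebraic bisimilarity of labelled Markov
processes).
-/

open MeasureTheory Set Cardinal

namespace Pool.Agent.R825.Lmp

/-- The first uncountable ordinal, as a type. -/
def Om : Type := (Cardinal.aleph 1).ord.ToType

noncomputable instance : LinearOrder Om :=
  inferInstanceAs (LinearOrder (Cardinal.aleph 1).ord.ToType)

lemma mk_Om : #Om = Cardinal.aleph 1 := by
  unfold Om; simp

lemma countable_Iio (i : Om) : (Set.Iio i).Countable := by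
  have h : #(Set.Iio i) < Cardinal.aleph 1 :=
    Cardinal.mk_Iio_toType_ord_lt (c := Cardinal.aleph 1) i
  rw [← Cardinal.le_aleph0_iff_set_countable]
  rw [← Order.lt_succ_iff, Cardinal.succ_aleph0]
  exact h

lemma countable_Iic (i : Om) : (Set.Iic i).Countable := by
  rw [← Set.Iio_insert]
  exact (countable_Iio i).insert i

lemma not_countable_univ : ¬ (Set.univ : Set Om).Countable := by
  rw [← Cardinal.le_aleph0_iff_set_countable, Cardinal.mk_univ, mk_Om, not_le]
  exact Cardinal.aleph0_lt_aleph_one

instance : Nonempty Om := by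
  by_contra h
  rw [not_nonempty_iff] at h
  exact not_countable_univ (Set.countable_univ_iff.2 inferInstance)

noncomputable instance : Inhabited Om := ⟨Classical.arbitrary Om⟩

/-- **Ulam's theorem**, for a family of null sets indexed by `ω₁` all of whose unions are
measurable. -/
theorem ulam {R : Type*} [MeasurableSpace R] (e : Measure R) [IsFiniteMeasure e] (E : Om → Set R)
    (hE : ∀ L : Set Om, MeasurableSet (⋃ i ∈ L, E i))
    (disj : ∀ i j, i ≠ j → Disjoint (E i) (E j))
    (h0 : ∀ i, e (E i) = 0) : e (⋃ i, E i) = 0 := by
  classical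
  have hf : ∀ β : Om, ∃ f : Om → ℕ, InjOn f (Set.Iio β) := fun β =>
    Set.countable_iff_exists_injOn.1 (countable_Iio β)
  choose f hf using hf
  let U : Om → ℕ → Set Om := fun α n => {β | α < β ∧ f β α = n}
  let V : Om → ℕ → Set R := fun α n => ⋃ i ∈ U α n, E i
  have hV : ∀ α n, MeasurableSet (V α n) := fun α n => hE _
  have hd : ∀ n, Pairwise (Function.onFun Disjoint fun α => V α n) := by
    intro n α α' hne
    simp only [Function.onFun]
    rw [Set.disjoint_left]
    intro x hx hx'
    simp only [V, Set.mem_iUnion] at hx hx'
    obtain ⟨i, hi, hxi⟩ := hx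
    obtain ⟨j, hj, hxj⟩ := hx'
    by_cases hij : i = j
    · subst hij
      exact hne (hf i hi.1 hj.1 (hi.2.trans hj.2.symm))
    · exact Set.disjoint_left.1 (disj i j hij) hxi hxj
  have hc : ∀ n, {α | 0 < e (V α n)}.Countable := fun n =>
    Measure.countable_meas_pos_of_disjoint_iUnion (fun α => hV α n) (hd n)
  have hcc : (⋃ n, {α | 0 < e (V α n)}).Countable := Set.countable_iUnion hc
  obtain ⟨α, hα⟩ : ∃ α, α ∉ ⋃ n, {α | 0 < e (V α n)} := by
    by_contra hcon
    push Not at hcon
    exact not_countable_univ (hcc.mono fun x _ => hcon x)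
  have h1 : ∀ n, e (V α n) = 0 := by
    intro n
    by_contra hne
    exact hα (Set.mem_iUnion.2 ⟨n, pos_iff_ne_zero.2 hne⟩)
  have h2 : (⋃ i, E i) ⊆ (⋃ i ∈ Set.Iic α, E i) ∪ ⋃ n, V α n := by
    intro x hx
    obtain ⟨i, hi⟩ := Set.mem_iUnion.1 hx
    rcases le_or_gt i α with h | h
    · exact Or.inl (Set.mem_biUnion (show i ∈ Set.Iic α from h) hi)
    · refine Or.inr (Set.mem_iUnion.2 ⟨f i α, ?_⟩)
      exact Set.mem_biUnion (show i ∈ U α (f i α) from ⟨h, rfl⟩) hi
  refine measure_mono_null h2 (measure_union_null ?_ (measure_iUnion_null h1))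
  exact (measure_biUnion_null_iff (countable_Iic α)).2 fun i _ => h0 i

/-- The product `ω₁ × ω₁`, with its own σ-algebra (below). -/
structure ZZ : Type where
  /-- first coordinate -/
  fst : Om
  /-- second coordinate -/
  snd : Om

/-- A subset of `ω₁ × ω₁` is small if all but countably many of its vertical sections are
countable. -/
def Small (A : Set ZZ) : Prop := {w : Om | ¬ {k : Om | ZZ.mk w k ∈ A}.Countable}.Countable

lemma Small.mono {A B : Set ZZ} (h : A ⊆ B) (hB : Small B) : Small A := by
  unfold Small at *
  refine hB.mono ?_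
  intro w hw hc
  exact hw (hc.mono fun k hk => h hk)

lemma small_iUnion {A : ℕ → Set ZZ} (h : ∀ n, Small (A n)) : Small (⋃ n, A n) := by
  unfold Small at *
  refine (Set.countable_iUnion h).mono ?_
  intro w hw
  by_contra hcon
  simp only [Set.mem_iUnion, Set.mem_ofPred_eq, not_exists, not_not] at hcon
  apply hw
  have : {k : Om | ZZ.mk w k ∈ ⋃ n, A n} = ⋃ n, {k : Om | ZZ.mk w k ∈ A n} := by
    ext k; simp
  rw [this]
  exact Set.countable_iUnion hcon

lemma small_empty : Small ∅ := by
  unfold Small
  simp

lemma not_small_univ : ¬ Small Set.univ := by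
  intro h
  apply not_countable_univ
  unfold Small at h
  refine h.mono ?_
  intro w _ hc
  exact not_countable_univ (hc.mono fun k _ => Set.mem_univ _)

/-- A set contained in one column is small. -/
lemma small_column (w : Om) : Small {z : ZZ | z.fst = w} := by
  unfold Small
  refine (Set.countable_singleton w).mono ?_
  intro v hv
  by_contra hne
  apply hv
  refine Set.countable_empty.mono ?_
  intro k hk
  exact hne hk

/-- The graph of a function is small. -/
lemma small_graph (g : Om → Om) : Small {z : ZZ | z.snd = g z.fst} := by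
  unfold Small
  refine Set.countable_empty.mono ?_
  intro w hw
  exact hw ((Set.countable_singleton (g w)).mono fun k hk => hk)

instance : MeasurableSpace ZZ where
  MeasurableSet' A := Small A ∨ Small Aᶜ
  measurableSet_empty := Or.inl small_empty
  measurableSet_compl A h := by
    rcases h with h | h
    · exact Or.inr (by rwa [compl_compl])
    · exact Or.inl h
  measurableSet_iUnion A h := by
    by_cases hs : ∀ n, Small (A n)
    · exact Or.inl (small_iUnion hs)
    · push Not at hs
      obtain ⟨n, hn⟩ := hs
      refine Or.inr (((h n).resolve_left hn).mono ?_)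
      exact Set.compl_subset_compl.2 (Set.subset_iUnion A n)

lemma measurableSet_of_small {A : Set ZZ} (h : Small A) : MeasurableSet A := Or.inl h

open Classical in
/-- The two-valued measure on `ω₁ × ω₁` vanishing exactly on small sets. -/
noncomputable def mu : Measure ZZ :=
  Measure.ofMeasurable (fun A _ => if Small A then 0 else 1) (by simp [small_empty]) (by
    intro A hA hd
    by_cases hs : ∀ n, Small (A n)
    · simp [hs, small_iUnion hs]
    · push Not at hs
      obtain ⟨n, hn⟩ := hs
      have h1 : ¬ Small (⋃ i, A i) := fun h => hn (h.mono (Set.subset_iUnion A n))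
      have h2 : ∀ m, m ≠ n → Small (A m) := by
        intro m hm
        refine ((hA n).resolve_left hn).mono ?_
        exact (hd hm).subset_compl_right
      rw [tsum_eq_single n]
      · simp [h1, hn]
      · intro m hm
        simp [h2 m hm])

open Classical in
lemma mu_apply {A : Set ZZ} (hA : MeasurableSet A) : mu A = if Small A then 0 else 1 :=
  Measure.ofMeasurable_apply A hA

lemma mu_small {A : Set ZZ} (h : Small A) : mu A = 0 := by
  classical
  rw [mu_apply (measurableSet_of_small h), if_pos h]

instance : IsProbabilityMeasure mu := ⟨by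
  classical
  rw [mu_apply MeasurableSet.univ, if_neg not_small_univ]⟩

/-- `ω₁` carries the quotient σ-algebra of the first projection. -/
instance : MeasurableSpace Om := MeasurableSpace.map ZZ.fst inferInstance

lemma measurable_ZZfst : Measurable ZZ.fst := fun _ h => h

lemma measurableSet_singleton (w : Om) : MeasurableSet ({w} : Set Om) :=
  measurableSet_of_small (small_column w)

end Pool.Agent.R825.Lmp
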