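import Mathlib

/-!
# Reaping numbers for relative densities

All reaping numbers `𝔯_X` for nonempty `X ⊆ (0, 1)` are equal.
-/

namespace Pool.Agent.R825.Reaping

open Set Filter Topology Cardinal

/-- The quotient of `|A ∩ B ∩ n|` and `|B ∩ n|`. -/
noncomputable def ratio (B A : Set ℕ) (n : ℕ) : ℝ :=
  ((A ∩ B ∩ Iio n).ncard : ℝ) / ((B ∩ Iio n).ncard : ℝ)

open Classical in
/-- The relative density of `A` in `B`: the common value of the lower and the upper relative density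
if they agree, and `none` (the value `osc`) if they do not agree. -/
noncomputable def dens (B A : Set ℕ) : Option ℝ :=
  if liminf (ratio B A) atTop = limsup (ratio B A) atTop then some (liminf (ratio B A) atTop)
  else none

/-- The `X`-reaping number. -/
noncomputable def reap (X : Set (Option ℝ)) : Cardinal.{0} :=
  sInf {c | ∃ R : Set (Set ℕ), #R = c ∧ (∀ B ∈ R, B.Infinite) ∧
    ∀ S : Set ℕ, S.Infinite → Sᶜ.Infinite → ∃ B ∈ R, dens B S ∉ X}

/-- The number of elements below `n`. -/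
noncomputable def cnt (A : Set ℕ) (n : ℕ) : ℕ := (A ∩ Iio n).ncard

lemma fin_Iio (A : Set ℕ) (n : ℕ) : (A ∩ Iio n).Finite := (finite_Iio n).subset inter_subset_right

lemma ratio_eq (B A : Set ℕ) (n : ℕ) : ratio B A n = (cnt (A ∩ B) n : ℝ) / (cnt B n : ℝ) := rfl

@[simp] lemma cnt_zero (A : Set ℕ) : cnt A 0 = 0 := by simp [cnt]

open Classical in
lemma cnt_succ (A : Set ℕ) (n : ℕ) : cnt A (n + 1) = cnt A n + if n ∈ A then 1 else 0 := by
  unfold cnt
  by_cases h : n ∈ A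
  · have h1 : A ∩ Iio (n + 1) = insert n (A ∩ Iio n) := by
      ext m
      simp only [mem_inter_iff, mem_Iio, mem_insert_iff]
      constructor
      · rintro ⟨h1, h2⟩
        by_cases h3 : m = n
        · exact Or.inl h3
        · exact Or.inr ⟨h1, by omega⟩
      · rintro (rfl | ⟨h1, h2⟩)
        · exact ⟨h, by omega⟩
        · exact ⟨h1, by omega⟩
    rw [h1, ncard_insert_of_notMem (by simp) (fin_Iio A n), if_pos h]
  · have h1 : A ∩ Iio (n + 1) = A ∩ Iio n := by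
      ext m
      simp only [mem_inter_iff, mem_Iio]
      constructor
      · rintro ⟨h1, h2⟩
        refine ⟨h1, ?_⟩
        rcases Nat.lt_succ_iff_lt_or_eq.1 h2 with h3 | h3
        · exact h3
        · exact absurd (h3 ▸ h1) h
      · rintro ⟨h1, h2⟩
        exact ⟨h1, by omega⟩
    rw [h1, if_neg h, add_zero]

open Classical in
lemma cnt_eq_sum (A : Set ℕ) (n : ℕ) : cnt A n = ∑ m ∈ Finset.range n, if m ∈ A then 1 else 0 := by
  induction n with
  | zero => simp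
  | succ n ih => rw [Finset.sum_range_succ, ← ih, cnt_succ]

lemma cnt_mono {A B : Set ℕ} (h : A ⊆ B) (n : ℕ) : cnt A n ≤ cnt B n :=
  ncard_le_ncard (inter_subset_inter_left _ h) (fin_Iio B n)

lemma cnt_mono_right (A : Set ℕ) : Monotone (cnt A) := fun _ n h =>
  ncard_le_ncard (inter_subset_inter_right _ (Iio_subset_Iio h)) (fin_Iio A n)

lemma tendsto_cnt {A : Set ℕ} (hA : A.Infinite) : Tendsto (cnt A) atTop atTop := by
  refine tendsto_atTop_atTop_of_monotone (cnt_mono_right A) fun b => ?_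
  obtain ⟨F, hF, hFc⟩ := hA.exists_subset_card_eq b
  obtain ⟨n, hn⟩ : ∃ n, ∀ m ∈ F, m < n := ⟨F.sup id + 1, fun m hm =>
    Nat.lt_succ_of_le (Finset.le_sup (f := id) hm)⟩
  refine ⟨n, ?_⟩
  rw [← hFc, ← Set.ncard_coe_finset]
  exact ncard_le_ncard (fun m hm => ⟨hF hm, hn m hm⟩) (fin_Iio A n)

lemma infinite_of_tendsto {A : Set ℕ} {N : ℕ → ℕ} (h : Tendsto (fun i => cnt A (N i)) atTop atTop) :
    A.Infinite := by
  intro hA
  obtain ⟨i, hi⟩ := (h.eventually (eventually_gt_atTop A.ncard)).exists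
  exact absurd hi (not_lt.2 (ncard_le_ncard inter_subset_left hA))

lemma cnt_union {A B : Set ℕ} (h : Disjoint A B) (n : ℕ) :
    cnt (A ∪ B) n = cnt A n + cnt B n := by
  unfold cnt
  rw [union_inter_distrib_right, ncard_union_eq _ (fin_Iio A n) (fin_Iio B n)]
  exact h.mono inter_subset_left inter_subset_left

/-- `A` has relative density `ρ` in `B`. -/
def D (B A : Set ℕ) (ρ : ℝ) : Prop := Tendsto (ratio B A) atTop (𝓝 ρ)

lemma ratio_nonneg (B A : Set ℕ) (n : ℕ) : 0 ≤ ratio B A n := by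
  rw [ratio_eq]; positivity

lemma ratio_le_one (B A : Set ℕ) (n : ℕ) : ratio B A n ≤ 1 := by
  rw [ratio_eq]
  refine div_le_one_of_le₀ ?_ (Nat.cast_nonneg _)
  exact_mod_cast cnt_mono inter_subset_right n

lemma dens_eq_some {B A : Set ℕ} {ρ : ℝ} : dens B A = some ρ ↔ D B A ρ := by
  have hb1 : IsBoundedUnder (· ≤ ·) atTop (ratio B A) :=
    isBoundedUnder_of ⟨1, ratio_le_one B A⟩
  have hb2 : IsBoundedUnder (· ≥ ·) atTop (ratio B A) :=
    isBoundedUnder_of ⟨0, ratio_nonneg B A⟩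
  constructor
  · intro h
    unfold dens at h
    split_ifs at h with h1
    have h2 := Option.some_injective _ h
    exact tendsto_of_liminf_eq_limsup h2 (h1 ▸ h2) hb1 hb2
  · intro h
    unfold dens
    rw [h.liminf_eq, h.limsup_eq, if_pos rfl]

lemma eventually_cnt_pos {B : Set ℕ} (hB : B.Infinite) : ∀ᶠ n in atTop, 0 < cnt B n :=
  (tendsto_cnt hB).eventually (eventually_gt_atTop 0)

/-- Two sets which agree on `[k, N)`. -/
lemma cnt_le_of_agree {A C : Set ℕ} {k N : ℕ} (h : ∀ m, k ≤ m → m < N → m ∈ C → m ∈ A) :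
    cnt C N ≤ cnt A N + k := by
  have h1 : C ∩ Iio N ⊆ (A ∩ Iio N) ∪ Iio k := by
    rintro m ⟨h1, h2⟩
    by_cases h3 : m < k
    · exact Or.inr h3
    · exact Or.inl ⟨h m (not_lt.1 h3) h2 h1, h2⟩
  calc cnt C N ≤ ((A ∩ Iio N) ∪ Iio k).ncard :=
        ncard_le_ncard h1 ((fin_Iio A N).union (finite_Iio k))
    _ ≤ (A ∩ Iio N).ncard + (Iio k).ncard := ncard_union_le _ _
    _ = cnt A N + k := by rw [ncard_Iio_nat]; rfl

lemma agree_eq {A C : Set ℕ} {k N : ℕ → ℕ} (hk : Tendsto k atTop atTop)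
    (hN : Tendsto N atTop atTop)
    (h : ∀ i m, k i ≤ m → m < N i → (m ∈ C ↔ m ∈ A))
    (hcA : ∀ i, (k i + 1) ^ 2 ≤ cnt A (N i)) {S : Set ℕ} {a c : ℝ} (hA : D A S a) (hC : D C S c) :
    a = c := by
  have h1 : Tendsto (fun i => ratio A S (N i) - ratio C S (N i)) atTop (𝓝 (a - c)) :=
    (hA.comp hN).sub (hC.comp hN)
  have h2 : Tendsto (fun i => ratio A S (N i) - ratio C S (N i)) atTop (𝓝 0) := by
    have h3 : Tendsto (fun i => 2 / ((k i : ℝ) + 1)) atTop (𝓝 0) := by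
      refine Tendsto.div_atTop tendsto_const_nhds ?_
      exact tendsto_atTop_add_const_right _ _ (tendsto_natCast_atTop_atTop.comp hk)
    refine squeeze_zero_norm (fun i => ?_) h3
    rw [Real.norm_eq_abs, ratio_eq, ratio_eq]
    have e1 : cnt C (N i) ≤ cnt A (N i) + k i :=
      cnt_le_of_agree fun m h1 h2 h3 => (h i m h1 h2).1 h3
    have e2 : cnt A (N i) ≤ cnt C (N i) + k i :=
      cnt_le_of_agree fun m h1 h2 h3 => (h i m h1 h2).2 h3
    have e3 : cnt (S ∩ C) (N i) ≤ cnt (S ∩ A) (N i) + k i :=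
      cnt_le_of_agree fun m h1 h2 h3 => ⟨h3.1, (h i m h1 h2).1 h3.2⟩
    have e4 : cnt (S ∩ A) (N i) ≤ cnt (S ∩ C) (N i) + k i :=
      cnt_le_of_agree fun m h1 h2 h3 => ⟨h3.1, (h i m h1 h2).2 h3.2⟩
    have e5 : cnt (S ∩ A) (N i) ≤ cnt A (N i) := cnt_mono inter_subset_right _
    have e6 : (k i + 1) ^ 2 ≤ cnt A (N i) := hcA i
    have e7 : cnt (S ∩ C) (N i) ≤ cnt C (N i) := cnt_mono inter_subset_right _
    have f1 : (cnt C (N i) : ℝ) ≤ cnt A (N i) + k i := by exact_mod_cast e1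
    have f2 : (cnt A (N i) : ℝ) ≤ cnt C (N i) + k i := by exact_mod_cast e2
    have f3 : (cnt (S ∩ C) (N i) : ℝ) ≤ cnt (S ∩ A) (N i) + k i := by exact_mod_cast e3
    have f4 : (cnt (S ∩ A) (N i) : ℝ) ≤ cnt (S ∩ C) (N i) + k i := by exact_mod_cast e4
    have f5 : (cnt (S ∩ A) (N i) : ℝ) ≤ cnt A (N i) := by exact_mod_cast e5
    have f6 : ((k i : ℝ) + 1) ^ 2 ≤ cnt A (N i) := by exact_mod_cast e6
    have f7 : (cnt (S ∩ C) (N i) : ℝ) ≤ cnt C (N i) := by exact_mod_cast e7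
    have f8 : (0 : ℝ) ≤ k i := Nat.cast_nonneg _
    have f9 : (0 : ℝ) ≤ cnt (S ∩ C) (N i) := Nat.cast_nonneg _
    generalize (cnt (S ∩ C) (N i) : ℝ) = x at *
    generalize (cnt C (N i) : ℝ) = y at *
    generalize (cnt (S ∩ A) (N i) : ℝ) = x' at *
    generalize (cnt A (N i) : ℝ) = y' at *
    generalize (k i : ℝ) = K at *
    have f10 : 0 < y' := by nlinarith
    have f11 : 0 < y := by nlinarith
    have g1 : x' / y' - x / y = (y * (x' - x) + x * (y - y')) / (y * y') := by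
      field_simp
      ring
    rw [g1, abs_div, abs_of_pos (mul_pos f11 f10), div_le_div_iff₀ (mul_pos f11 f10) (by linarith)]
    have g2 : |y * (x' - x) + x * (y - y')| ≤ 2 * y * K := by
      refine (abs_add_le _ _).trans ?_
      rw [abs_mul, abs_mul, abs_of_pos f11, abs_of_nonneg f9]
      have g3 : |x' - x| ≤ K := abs_le.2 ⟨by linarith, by linarith⟩
      have g4 : |y - y'| ≤ K := abs_le.2 ⟨by linarith, by linarith⟩
      nlinarith [mul_le_mul_of_nonneg_left g3 f11.le, mul_le_mul_of_nonneg_left g4 f9,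
        mul_le_mul_of_nonneg_right f7 f8]
    calc |y * (x' - x) + x * (y - y')| * (K + 1) ≤ 2 * y * K * (K + 1) :=
          mul_le_mul_of_nonneg_right g2 (by linarith)
      _ ≤ 2 * (y * y') := by nlinarith [mul_pos f11 f10]
  have := tendsto_nhds_unique h1 h2
  linarith

/-- The mixture of two sets. -/
lemma exists_mix {A B : Set ℕ} (hA : A.Infinite) (hB : B.Infinite) :
    ∃ C : Set ℕ, C.Infinite ∧ ∀ (S : Set ℕ) (a b c : ℝ), D A S a → D B S b → D C S c → a = b := by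
  classical
  have hg : ∀ k : ℕ, ∃ N, k < N ∧ (k + 1) ^ 2 ≤ cnt A N ∧ (k + 1) ^ 2 ≤ cnt B N := by
    intro k
    exact ((eventually_gt_atTop k).and (((tendsto_cnt hA).eventually
      (eventually_ge_atTop ((k + 1) ^ 2))).and ((tendsto_cnt hB).eventually
      (eventually_ge_atTop ((k + 1) ^ 2))))).exists
  choose g hg1 hg2 hg3 using hg
  let n : ℕ → ℕ := fun j => g^[j] 0
  have hn : ∀ j, n (j + 1) = g (n j) := fun j => Function.iterate_succ_apply' g j 0
  have hmono : StrictMono n := strictMono_nat_of_lt_succ fun j => by rw [hn]; exact hg1 _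
  have huniq : ∀ i j m, n i ≤ m → m < n (i + 1) → n j ≤ m → m < n (j + 1) → i = j := by
    intro i j m h1 h2 h3 h4
    have h5 : i < j + 1 := hmono.lt_iff_lt.1 (h1.trans_lt h4)
    have h6 : j < i + 1 := hmono.lt_iff_lt.1 (h3.trans_lt h2)
    omega
  let C : Set ℕ := {m | ∃ j, n j ≤ m ∧ m < n (j + 1) ∧ if Even j then m ∈ A else m ∈ B}
  have hCA : ∀ i m, n (2 * i) ≤ m → m < n (2 * i + 1) → (m ∈ C ↔ m ∈ A) := by
    intro i m h1 h2
    constructor
    · rintro ⟨j, h3, h4, h5⟩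
      have := huniq _ _ _ h1 h2 h3 h4
      subst this
      rwa [if_pos (by simp)] at h5
    · intro h
      exact ⟨2 * i, h1, h2, by rwa [if_pos (by simp)]⟩
  have hCB : ∀ i m, n (2 * i + 1) ≤ m → m < n (2 * i + 2) → (m ∈ C ↔ m ∈ B) := by
    intro i m h1 h2
    constructor
    · rintro ⟨j, h3, h4, h5⟩
      have := huniq _ _ _ h1 h2 h3 h4
      subst this
      rwa [if_neg (by simp)] at h5
    · intro h
      exact ⟨2 * i + 1, h1, h2, by rwa [if_neg (by simp)]⟩
  have ht : ∀ v : ℕ → ℕ, (∀ i, i ≤ v i) → Tendsto (fun i => n (v i)) atTop atTop :=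
    fun v hv => hmono.tendsto_atTop.comp (tendsto_atTop_mono hv tendsto_id)
  have ht0 : Tendsto (fun i => n (2 * i)) atTop atTop := ht _ fun i => by omega
  have ht1 : Tendsto (fun i => n (2 * i + 1)) atTop atTop := ht _ fun i => by omega
  have ht2 : Tendsto (fun i => n (2 * i + 2)) atTop atTop := ht _ fun i => by omega
  have hcA : ∀ i, (n (2 * i) + 1) ^ 2 ≤ cnt A (n (2 * i + 1)) := fun i => by
    rw [hn]; exact hg2 _
  have hcB : ∀ i, (n (2 * i + 1) + 1) ^ 2 ≤ cnt B (n (2 * i + 2)) := fun i => by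
    rw [hn (2 * i + 1)]; exact hg3 _
  refine ⟨C, ?_, fun S a b c hSA hSB hSC => ?_⟩
  · refine infinite_of_tendsto (N := fun i => n (2 * i + 1)) ?_
    refine tendsto_atTop_mono (fun i => ?_) ht0
    have h1 : cnt A (n (2 * i + 1)) ≤ cnt C (n (2 * i + 1)) + n (2 * i) :=
      cnt_le_of_agree fun m h1 h2 h3 => (hCA i m h1 h2).2 h3
    have h2 := hcA i
    nlinarith
  · rw [agree_eq ht0 ht1 hCA hcA hSA hSC, agree_eq ht1 ht2 hCB hcB hSB hSC]

lemma D.union {B E F : Set ℕ} {a b : ℝ} (hE : D B E a) (hF : D B F b) (h : Disjoint E F) :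
    D B (E ∪ F) (a + b) := by
  refine (Tendsto.add hE hF).congr fun n => ?_
  rw [ratio_eq, ratio_eq, ratio_eq, union_inter_distrib_right,
    cnt_union (h.mono inter_subset_left inter_subset_left)]
  push_cast
  ring

lemma D.diff {B E F : Set ℕ} {a b : ℝ} (hE : D B E a) (hF : D B F b) (h : F ⊆ E) :
    D B (E \ F) (a - b) := by
  refine (Tendsto.sub hE hF).congr fun n => ?_
  have h1 : E ∩ B = ((E \ F) ∩ B) ∪ (F ∩ B) := by
    rw [← union_inter_distrib_right, sdiff_union_of_subset h]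
  rw [ratio_eq, ratio_eq, ratio_eq, h1, cnt_union]
  · push_cast
    ring
  · exact (disjoint_sdiff_left).mono inter_subset_left inter_subset_left

lemma D.self {B : Set ℕ} (hB : B.Infinite) : D B Set.univ 1 := by
  refine tendsto_const_nhds.congr' ?_
  filter_upwards [eventually_cnt_pos hB] with n hn
  rw [ratio_eq, univ_inter, div_self]
  exact_mod_cast hn.ne'

lemma D.empty (B : Set ℕ) : D B ∅ 0 := by
  refine tendsto_const_nhds.congr fun n => ?_
  rw [ratio_eq, empty_inter]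
  simp [cnt]

lemma infinite_inter {B E : Set ℕ} {m : ℝ} (hB : B.Infinite) (hE : D B E m) (hm : m ≠ 0) :
    (E ∩ B).Infinite := by
  intro hfin
  apply hm
  refine tendsto_nhds_unique hE ?_
  have h1 : Tendsto (fun n => ((E ∩ B).ncard : ℝ) / (cnt B n : ℝ)) atTop (𝓝 0) :=
    Tendsto.div_atTop tendsto_const_nhds (tendsto_natCast_atTop_atTop.comp (tendsto_cnt hB))
  refine squeeze_zero (ratio_nonneg B E) (fun n => ?_) h1
  rw [ratio_eq]
  gcongr
  exact ncard_le_ncard inter_subset_left hfin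

lemma D.inter {B E S : Set ℕ} {m ρ : ℝ} (hB : B.Infinite) (hm : m ≠ 0) (hE : D B E m)
    (hS : D (E ∩ B) S ρ) : D B (E ∩ S) (m * ρ) := by
  refine (Tendsto.mul hE hS).congr' ?_
  filter_upwards [eventually_cnt_pos (infinite_inter hB hE hm)] with n hn
  have h1 : E ∩ S ∩ B = S ∩ (E ∩ B) := by
    ext; simp only [mem_inter_iff]; tauto
  rw [ratio_eq, ratio_eq, ratio_eq, h1]
  have h2 : (cnt (E ∩ B) n : ℝ) ≠ 0 := by exact_mod_cast hn.ne'
  field_simp

lemma infinite_of_D {B S : Set ℕ} {ρ : ℝ} (hB : B.Infinite) (h : D B S ρ) (hρ : ρ ∈ Ioo (0 : ℝ) 1) :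
    S.Infinite ∧ Sᶜ.Infinite := by
  constructor
  · exact (infinite_inter hB h hρ.1.ne').mono inter_subset_left
  · have h1 := (D.self hB).diff h (subset_univ _)
    rw [← compl_eq_univ_sdiff] at h1
    exact (infinite_inter hB h1 (by linarith [hρ.2])).mono inter_subset_left

/-- Each family of at most `κ` infinite sets is split by one set with densities in `(0, 1)`. -/
def Bis (κ : Cardinal.{0}) : Prop :=
  ∀ (ι : Type) (W : ι → Set ℕ), #ι ≤ κ → (∀ i, (W i).Infinite) →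
    ∃ S : Set ℕ, ∀ i, ∃ ρ ∈ Ioo (0 : ℝ) 1, D (W i) S ρ

/-- Each family of at most `κ` infinite sets is split by one set with one common density in
`[ε, 1 - ε]`. -/
def Com (κ : Cardinal.{0}) (ε : ℝ) : Prop :=
  ∀ (ι : Type) (W : ι → Set ℕ), #ι ≤ κ → (∀ i, (W i).Infinite) →
    ∃ S : Set ℕ, ∃ ρ ∈ Icc ε (1 - ε), ∀ i, D (W i) S ρ

lemma exists_eps {κ : Cardinal.{0}} (hκ : ℵ₀ ≤ κ) (h : Bis κ) :
    ∃ n : ℕ, Com κ (1 / ((n : ℝ) + 2)) := by
  classical
  by_contra! hcon
  unfold Com at hcon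
  push Not at hcon
  choose ι W hι hW hno using hcon
  let J : Type := Σ n, ι n
  have hJ : #J ≤ κ := by
    show #(Σ n, ι n) ≤ κ
    rw [mk_sigma]
    refine (sum_le_sum _ (fun _ => κ) hι).trans ?_
    rw [sum_const]
    simp only [mk_nat, lift_id]
    exact (mul_le_max_of_aleph0_le_left le_rfl).trans (max_le hκ le_rfl)
  have hJJ : #(J ⊕ J × J) ≤ κ := by
    rw [mk_sum, mk_prod]
    simp only [lift_id]
    refine add_le_of_le hκ hJ ?_
    exact (mul_le_mul' hJ hJ).trans (mul_eq_self hκ).le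
  have hmix : ∀ p : J × J, ∃ C : Set ℕ, C.Infinite ∧ ∀ (S : Set ℕ) (a b c : ℝ),
      D (W p.1.1 p.1.2) S a → D (W p.2.1 p.2.2) S b → D C S c → a = b :=
    fun p => exists_mix (hW _ _) (hW _ _)
  choose C hC1 hC2 using hmix
  let W' : J ⊕ J × J → Set ℕ := fun q => Sum.elim (fun j => W j.1 j.2) C q
  have hW' : ∀ q, (W' q).Infinite := by
    rintro (j | p)
    · exact hW _ _
    · exact hC1 p
  obtain ⟨S, hS⟩ := h _ W' hJJ hW'
  have hSJ : ∀ j : J, ∃ ρ ∈ Ioo (0 : ℝ) 1, D (W j.1 j.2) S ρ := fun j => hS (Sum.inl j)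
  choose ρ hρ hρD using hSJ
  have heq : ∀ j j', ρ j = ρ j' := by
    intro j j'
    obtain ⟨c, -, hc⟩ := hS (Sum.inr (j, j'))
    exact hC2 (j, j') S _ _ c (hρD j) (hρD j') hc
  by_cases hne : Nonempty J
  · obtain ⟨j0⟩ := hne
    obtain ⟨h0, h1⟩ := hρ j0
    obtain ⟨n, hn⟩ := exists_nat_gt (1 / min (ρ j0) (1 - ρ j0))
    have hmin : 0 < min (ρ j0) (1 - ρ j0) := lt_min h0 (by linarith)
    have h2 : 1 / ((n : ℝ) + 2) ≤ min (ρ j0) (1 - ρ j0) := by
      rw [div_le_iff₀ (by positivity)]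
      rw [div_lt_iff₀ hmin] at hn
      nlinarith
    obtain ⟨i, hi⟩ := hno n S (ρ j0) ⟨h2.trans (min_le_left _ _), by
      linarith [h2.trans (min_le_right _ _)]⟩
    apply hi
    have h3 := hρD ⟨n, i⟩
    rwa [heq ⟨n, i⟩ j0] at h3
  · have h2 : (1 : ℝ) / ((0 : ℕ) + 2) = 1 / 2 := by norm_num
    obtain ⟨i, -⟩ := hno 0 ∅ (1 / 2) ⟨by rw [h2], by rw [h2]; norm_num⟩
    exact hne ⟨⟨0, i⟩⟩

/-- A stage of the greedy algorithm. -/
structure Stage {ι : Type} (W : ι → Set ℕ) (t : ℝ) where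
  /-- the set of undecided points -/
  E : Set ℕ
  /-- the set of points already chosen -/
  P : Set ℕ
  /-- the density of the chosen points -/
  a : ℝ
  /-- the density of the undecided points -/
  m : ℝ
  disj : Disjoint P E
  hP : ∀ i, D (W i) P a
  hE : ∀ i, D (W i) E m
  ha : a ≤ t
  ham : t ≤ a + m
  hm : 0 < m

lemma exists_next {ι : Type} {W : ι → Set ℕ} {t : ℝ} {κ : Cardinal.{0}} {ε : ℝ} (hε : 0 < ε)
    (hc : Com κ ε) (hι : #ι ≤ κ) (hW : ∀ i, (W i).Infinite) (s : Stage W t) :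
    ∃ s' : Stage W t, s.P ⊆ s'.P ∧ s'.P ∪ s'.E ⊆ s.P ∪ s.E ∧ s'.m ≤ (1 - ε) * s.m := by
  obtain ⟨S, ρ, hρ, hS⟩ := hc ι (fun i => s.E ∩ W i) hι
    fun i => infinite_inter (hW i) (s.hE i) s.hm.ne'
  have hES : ∀ i, D (W i) (s.E ∩ S) (s.m * ρ) :=
    fun i => D.inter (hW i) s.hm.ne' (s.hE i) (hS i)
  have hm := s.hm
  have hEd : ∀ i, D (W i) (s.E \ (s.E ∩ S)) (s.m - s.m * ρ) := fun i =>
    (s.hE i).diff (hES i) inter_subset_left
  by_cases h : s.a + s.m * ρ ≤ t
  · refine ⟨⟨s.E \ (s.E ∩ S), s.P ∪ (s.E ∩ S), s.a + s.m * ρ, s.m - s.m * ρ, ?_, fun i => ?_, hEd, h,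
      ?_, ?_⟩, subset_union_left, ?_, ?_⟩
    · rw [disjoint_union_left]
      exact ⟨s.disj.mono_right sdiff_subset, disjoint_sdiff_right⟩
    · exact (s.hP i).union (hES i) (s.disj.mono_right inter_subset_left)
    · linarith [s.ham]
    · have := hρ.2
      nlinarith
    · rw [union_assoc, union_sdiff_cancel inter_subset_left]
    · show s.m - s.m * ρ ≤ (1 - ε) * s.m
      nlinarith [hρ.1]
  · push Not at h
    refine ⟨⟨s.E ∩ S, s.P, s.a, s.m * ρ, s.disj.mono_right inter_subset_left, s.hP, hES, s.ha,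
      h.le, mul_pos hm (hε.trans_le hρ.1)⟩, Subset.rfl,
      union_subset_union_right _ inter_subset_left, ?_⟩
    show s.m * ρ ≤ (1 - ε) * s.m
    nlinarith [hρ.2]

lemma exists_density {κ : Cardinal.{0}} {ε t : ℝ} (hε : 0 < ε) (hε1 : ε ≤ 1) (hc : Com κ ε)
    (ht : t ∈ Ioo (0 : ℝ) 1)
    {ι : Type} {W : ι → Set ℕ} (hι : #ι ≤ κ) (hW : ∀ i, (W i).Infinite) :
    ∃ S : Set ℕ, ∀ i, D (W i) S t := by
  choose nxt hn1 hn2 hn3 using fun s : Stage W t => exists_next hε hc hι hW s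
  let s0 : Stage W t := ⟨Set.univ, ∅, 0, 1, by simp, fun i => D.empty _, fun i => D.self (hW i),
    ht.1.le, by linarith [ht.2], one_pos⟩
  let s : ℕ → Stage W t := fun k => nxt^[k] s0
  have hs : ∀ k, s (k + 1) = nxt (s k) := fun k => Function.iterate_succ_apply' nxt k s0
  have hP : Monotone fun k => (s k).P := monotone_nat_of_le_succ fun k => by
    show (s k).P ⊆ (s (k + 1)).P
    rw [hs]; exact hn1 _
  have hPE : Antitone fun k => (s k).P ∪ (s k).E := antitone_nat_of_succ_le fun k => by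
    show (s (k + 1)).P ∪ (s (k + 1)).E ⊆ (s k).P ∪ (s k).E
    rw [hs]; exact hn2 _
  have hm : ∀ k, (s k).m ≤ (1 - ε) ^ k := by
    intro k
    induction k with
    | zero => exact le_of_eq (by simp [s, s0])
    | succ k ih =>
      rw [hs, pow_succ']
      exact (hn3 _).trans (mul_le_mul_of_nonneg_left ih (by linarith))
  have hlim : Tendsto (fun k : ℕ => (1 - ε) ^ k) atTop (𝓝 0) :=
    tendsto_pow_atTop_nhds_zero_of_lt_one (by linarith) (by linarith)
  refine ⟨⋃ k, (s k).P, fun i => ?_⟩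
  have hsub1 : ∀ k, (s k).P ⊆ ⋃ k, (s k).P := fun k => subset_iUnion (fun k => (s k).P) k
  have hsub2 : ∀ k, (⋃ k, (s k).P) ⊆ (s k).P ∪ (s k).E := by
    intro k
    refine iUnion_subset fun l => ?_
    rcases le_total k l with h | h
    · exact subset_union_left.trans (hPE h)
    · exact (hP h).trans subset_union_left
  have hmono : ∀ {X Y : Set ℕ}, X ⊆ Y → ∀ n, ratio (W i) X n ≤ ratio (W i) Y n := by
    intro X Y hXY n
    rw [ratio_eq, ratio_eq]
    gcongr
    exact cnt_mono (inter_subset_inter_left _ hXY) n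
  rw [D, Metric.tendsto_atTop]
  intro δ hδ
  obtain ⟨k, hk⟩ := (hlim.eventually (gt_mem_nhds (half_pos hδ))).exists
  have hmk : (s k).m < δ / 2 := (hm k).trans_lt hk
  have hlow := (s k).hP i
  have hup := ((s k).hP i).union ((s k).hE i) (s k).disj
  rw [D, Metric.tendsto_atTop] at hlow hup
  obtain ⟨N1, hN1⟩ := hlow (δ / 2) (half_pos hδ)
  obtain ⟨N2, hN2⟩ := hup (δ / 2) (half_pos hδ)
  refine ⟨max N1 N2, fun n hn => ?_⟩
  have h1 := hN1 n ((le_max_left _ _).trans hn)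
  have h2 := hN2 n ((le_max_right _ _).trans hn)
  have h3 := hmono (hsub1 k) n
  have h4 := hmono (hsub2 k) n
  rw [Real.dist_eq, abs_lt] at h1 h2 ⊢
  have := (s k).ha
  have := (s k).ham
  constructor <;> linarith

/-- Finitely many infinite sets are split by one set with density `t`. -/
lemma exists_density_finite {t : ℝ} (ht : t ∈ Ioo (0 : ℝ) 1) {ι : Type} [Finite ι]
    {W : ι → Set ℕ} (hW : ∀ i, (W i).Infinite) : ∃ S : Set ℕ, ∀ i, D (W i) S t := by
  classical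
  have := Fintype.ofFinite ι
  let c : ℕ → Finset ι := fun n => Finset.univ.filter fun i => n ∈ W i
  let cl : Finset ι → Set ℕ := fun a => {m | c m = a}
  let S : Set ℕ := {n | ⌊(cnt (cl (c n)) n : ℝ) * t⌋₊ < ⌊((cnt (cl (c n)) n : ℝ) + 1) * t⌋₊}
  have hcl : ∀ a n, cnt (S ∩ cl a) n = ⌊(cnt (cl a) n : ℝ) * t⌋₊ := by
    intro a n
    induction n with
    | zero => simp
    | succ n ih =>
      rw [cnt_succ, cnt_succ (cl a)]
      by_cases h : n ∈ cl a
      · have hca : c n = a := h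
        rw [if_pos h, ih]
        by_cases h2 : n ∈ S
        · have h3 : ⌊(cnt (cl a) n : ℝ) * t⌋₊ < ⌊((cnt (cl a) n : ℝ) + 1) * t⌋₊ := hca ▸ h2
          have h4 : ⌊((cnt (cl a) n : ℝ) + 1) * t⌋₊ ≤ ⌊(cnt (cl a) n : ℝ) * t⌋₊ + 1 := by
            rw [← Nat.floor_add_one (by have := ht.1; positivity)]
            apply Nat.floor_le_floor
            nlinarith [ht.2]
          rw [if_pos ⟨h2, h⟩]
          push_cast
          omega
        · have h3 : ¬ ⌊(cnt (cl a) n : ℝ) * t⌋₊ < ⌊((cnt (cl a) n : ℝ) + 1) * t⌋₊ := hca ▸ h2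
          have h4 : ⌊(cnt (cl a) n : ℝ) * t⌋₊ ≤ ⌊((cnt (cl a) n : ℝ) + 1) * t⌋₊ := by
            apply Nat.floor_le_floor
            nlinarith [ht.1]
          rw [if_neg fun h5 => h2 h5.1]
          push_cast
          omega
      · rw [if_neg h, if_neg fun h5 => h h5.2, ih]
        simp
  have hpart : ∀ (X : Set ℕ) (i : ι) (n : ℕ),
      cnt (X ∩ W i) n = ∑ a ∈ Finset.univ.filter (fun a : Finset ι => i ∈ a), cnt (X ∩ cl a) n := by
    intro X i n
    induction n with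
    | zero => simp
    | succ n ih =>
      simp only [cnt_succ]
      rw [Finset.sum_add_distrib, ← ih]
      congr 1
      by_cases h : n ∈ X ∩ W i
      · rw [if_pos h, Finset.sum_eq_single (c n)]
        · rw [if_pos ⟨h.1, rfl⟩]
        · intro a _ ha
          rw [if_neg fun h2 => ha h2.2.symm]
        · intro h2
          have h3 : i ∈ c n := Finset.mem_filter.2 ⟨Finset.mem_univ _, h.2⟩
          exact absurd (show c n ∈ Finset.univ.filter (fun a : Finset ι => i ∈ a) from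
            Finset.mem_filter.2 ⟨Finset.mem_univ _, h3⟩) h2
      · rw [if_neg h, Finset.sum_eq_zero]
        intro a ha
        rw [if_neg]
        rintro ⟨h1, h2⟩
        apply h
        refine ⟨h1, ?_⟩
        have h3 : i ∈ c n := by
          rw [show c n = a from h2]
          exact (Finset.mem_filter.1 ha).2
        exact (Finset.mem_filter.1 h3).2
  refine ⟨S, fun i => ?_⟩
  let K : ℝ := (Finset.univ.filter (fun a : Finset ι => i ∈ a)).card
  have hbd : ∀ n, |(cnt (S ∩ W i) n : ℝ) - t * (cnt (W i) n : ℝ)| ≤ K := by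
    intro n
    have h1 := hpart S i n
    have h2 := hpart Set.univ i n
    rw [univ_inter] at h2
    rw [h1, h2]
    push_cast
    rw [Finset.mul_sum, ← Finset.sum_sub_distrib]
    refine (Finset.abs_sum_le_sum_abs _ _).trans ?_
    refine (Finset.sum_le_sum (g := fun _ => (1 : ℝ)) fun a _ => ?_).trans ?_
    · rw [hcl, univ_inter, abs_le]
      have h3 := Nat.floor_le (show 0 ≤ (cnt (cl a) n : ℝ) * t by have := ht.1; positivity)
      have h4 := Nat.lt_floor_add_one ((cnt (cl a) n : ℝ) * t)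
      constructor <;> linarith
    · rw [Finset.sum_const, nsmul_eq_mul, mul_one]
  have h5 : Tendsto (fun n => ratio (W i) S n - t) atTop (𝓝 0) := by
    have h6 : Tendsto (fun n => K / (cnt (W i) n : ℝ)) atTop (𝓝 0) :=
      Tendsto.div_atTop tendsto_const_nhds (tendsto_natCast_atTop_atTop.comp (tendsto_cnt (hW i)))
    refine squeeze_zero_norm' ?_ h6
    filter_upwards [eventually_cnt_pos (hW i)] with n hn
    have h7 : (0 : ℝ) < cnt (W i) n := by exact_mod_cast hn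
    rw [Real.norm_eq_abs, ratio_eq]
    have h8 : (cnt (S ∩ W i) n : ℝ) / (cnt (W i) n : ℝ) - t =
        ((cnt (S ∩ W i) n : ℝ) - t * (cnt (W i) n : ℝ)) / (cnt (W i) n : ℝ) := by
      field_simp
    rw [h8, abs_div, abs_of_pos h7]
    gcongr
    exact hbd n
  have h9 := h5.add_const t
  simpa [D] using h9

lemma not_mem_of_reap_lt {X : Set (Option ℝ)} {ι : Type} {W : ι → Set ℕ}
    (hι : #ι < reap X) (hW : ∀ i, (W i).Infinite) :
    ∃ S : Set ℕ, S.Infinite ∧ Sᶜ.Infinite ∧ ∀ i, dens (W i) S ∈ X := by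
  by_contra! hcon
  refine absurd (csInf_le' (s := {c | ∃ R : Set (Set ℕ), #R = c ∧ (∀ B ∈ R, B.Infinite) ∧
    ∀ S : Set ℕ, S.Infinite → Sᶜ.Infinite → ∃ B ∈ R, dens B S ∉ X}) ⟨range W, rfl, ?_, ?_⟩)
    (not_le.2 (mk_range_le.trans_lt hι))
  · rintro _ ⟨i, rfl⟩
    exact hW i
  · intro S hS hS'
    obtain ⟨i, hi⟩ := hcon S hS hS'
    exact ⟨_, ⟨i, rfl⟩, hi⟩

lemma reap_mem {X : Set (Option ℝ)} (hX : some 1 ∉ X) :
    ∃ R : Set (Set ℕ), #R = reap X ∧ (∀ B ∈ R, B.Infinite) ∧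
      ∀ S : Set ℕ, S.Infinite → Sᶜ.Infinite → ∃ B ∈ R, dens B S ∉ X := by
  refine csInf_mem (s := {c | ∃ R : Set (Set ℕ), #R = c ∧ (∀ B ∈ R, B.Infinite) ∧
    ∀ S : Set ℕ, S.Infinite → Sᶜ.Infinite → ∃ B ∈ R, dens B S ∉ X})
    ⟨_, {B | B.Infinite}, rfl, fun B hB => hB, fun S hS _ => ⟨S, hS, ?_⟩⟩
  have h1 : dens S S = some 1 := by
    rw [dens_eq_some]
    refine tendsto_const_nhds.congr' ?_
    filter_upwards [eventually_cnt_pos hS] with n hn
    rw [ratio_eq, inter_self, div_self]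
    exact_mod_cast hn.ne'
  rwa [h1]

lemma reap_mono {X Y : Set (Option ℝ)} (h : X ⊆ Y) (hY : some 1 ∉ Y) : reap X ≤ reap Y := by
  obtain ⟨R, hR, hR1, hR2⟩ := reap_mem hY
  rw [← hR]
  refine csInf_le' ⟨R, rfl, hR1, fun S hS hS' => ?_⟩
  obtain ⟨B, hB, hB'⟩ := hR2 S hS hS'
  exact ⟨B, hB, fun h' => hB' (h h')⟩

/-- The main step. -/
theorem reap_le {t : ℝ} (ht : t ∈ Ioo (0 : ℝ) 1) :
    reap (some '' Ioo (0 : ℝ) 1) ≤ reap {some t} := by
  by_contra! hlt
  obtain ⟨R, hR, hR1, hR2⟩ := reap_mem (X := {some t}) (by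
    intro h
    have : (1 : ℝ) = t := Option.some_injective _ h
    exact absurd ht.2 (by rw [← this]; exact lt_irrefl _))
  have hne : ¬ ∃ S : Set ℕ, D Set.univ S t ∧ ∀ B : R, D B.1 S t := by
    rintro ⟨S, hS, hB⟩
    obtain ⟨h1, h2⟩ := infinite_of_D infinite_univ hS ht
    obtain ⟨B, hB1, hB2⟩ := hR2 S h1 h2
    exact hB2 (dens_eq_some.2 (hB ⟨B, hB1⟩))
  let W : Option R → Set ℕ := fun o => o.elim Set.univ fun B => B.1
  have hW : ∀ o, (W o).Infinite := by
    rintro (_ | B)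
    · exact infinite_univ
    · exact hR1 _ B.2
  have hne' : ¬ ∃ S : Set ℕ, ∀ o, D (W o) S t := fun ⟨S, hS⟩ =>
    hne ⟨S, hS none, fun B => hS (some B)⟩
  have hinf : Infinite R := by
    by_contra hfin
    rw [not_infinite_iff_finite] at hfin
    exact hne' (exists_density_finite ht hW)
  have hκ : ℵ₀ ≤ #R := infinite_iff.1 hinf
  have hopt : #(Option R) = #R := by
    rw [mk_option]
    exact add_eq_left hκ (one_le_aleph0.trans hκ)
  have hbis : Bis #R := by
    intro ι V hι hV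
    obtain ⟨S, -, -, hS⟩ := not_mem_of_reap_lt (hι.trans_lt (hR ▸ hlt)) hV
    refine ⟨S, fun i => ?_⟩
    obtain ⟨ρ, hρ, hρ'⟩ := hS i
    exact ⟨ρ, hρ, dens_eq_some.1 hρ'.symm⟩
  obtain ⟨n, hn⟩ := exists_eps hκ hbis
  refine hne' (exists_density (ε := 1 / ((n : ℝ) + 2)) (by positivity) ?_ hn ht hopt.le hW)
  rw [div_le_one (by positivity)]
  linarith [(Nat.cast_nonneg n : (0 : ℝ) ≤ n)]

/-- All reaping numbers for nonempty subsets of `(0, 1)` are equal. -/
theorem reap_eq {X : Set (Option ℝ)} (hX : X ⊆ some '' Ioo (0 : ℝ) 1) (hne : X.Nonempty) :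
    reap X = reap (some '' Ioo (0 : ℝ) 1) := by
  have h1 : ∀ {Y : Set (Option ℝ)}, Y ⊆ some '' Ioo (0 : ℝ) 1 → some 1 ∉ Y := by
    intro Y hY h
    obtain ⟨t, ht, h2⟩ := hY h
    have := Option.some_injective _ h2
    subst this
    exact lt_irrefl _ ht.2
  refine le_antisymm (reap_mono hX (h1 Subset.rfl)) ?_
  obtain ⟨o, ho⟩ := hne
  obtain ⟨t, ht, rfl⟩ := hX ho
  exact (reap_le ht).trans (reap_mono (singleton_subset_iff.2 ho) (h1 hX))

end Pool.Agent.R825.Reaping
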