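import Mathlib

/-!
# Sigma-algebras that contain a selector of each partition into nontrivial pieces

For a well-ordered set `T` let the ideal `J` consist of the sets with a regressive countable-to-one
function. Each family of disjoint sets with at least two elements has a selector in `J`: choose
elements which are not the least ones of their sets. If each proper initial segment of `T` is
smaller than `T` and `T` is uncountable, then there are `#T` pairwise disjoint sets outside `J`, by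
means of Ulam matrices on the blocks of elements whose initial segments have a given cardinality.
-/

namespace Pool.Agent.R825.Selectors

open Cardinal Set MeasureTheory

universe u

section Order

set_option linter.unusedSectionVars false

variable {T : Type u} [LinearOrder T] [WellFoundedLT T]

/-- The set `A` has a regressive function with countable fibres. -/
def Small (A : Set T) : Prop :=
  ∃ f : T → T, (∀ a ∈ A, f a < a) ∧ ∀ b, {a | a ∈ A ∧ f a = b}.Countable

/-- The set `A` has a regressive function with fibres of size at most `l`. -/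
def SmallL (l : Cardinal.{u}) (A : Set T) : Prop :=
  ∃ f : T → T, (∀ a ∈ A, f a < a) ∧ ∀ b, #{a | a ∈ A ∧ f a = b} ≤ l

theorem Small.mono {A B : Set T} (h : A ⊆ B) (hB : Small B) : Small A := by
  obtain ⟨f, h1, h2⟩ := hB
  refine ⟨f, fun a ha => h1 a (h ha), fun b => (h2 b).mono ?_⟩
  rintro a ⟨ha, hab⟩
  exact ⟨h ha, hab⟩

theorem small_iUnion {A : ℕ → Set T} (hA : ∀ n, Small (A n)) : Small (⋃ n, A n) := by
  classical
  choose f h1 h2 using hA
  refine ⟨fun a => if h : ∃ n, a ∈ A n then f h.choose a else a, ?_, ?_⟩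
  · intro a ha
    have h : ∃ n, a ∈ A n := by simpa using ha
    simp only [h, dite_true]
    exact h1 _ a h.choose_spec
  · intro b
    refine (countable_iUnion fun n => h2 n b).mono ?_
    rintro a ⟨ha, hab⟩
    have h : ∃ n, a ∈ A n := by simpa using ha
    simp only [h, dite_true] at hab
    exact mem_iUnion.2 ⟨h.choose, h.choose_spec, hab⟩

theorem Small.smallL {l : Cardinal.{u}} (hl : ℵ₀ ≤ l) {A : Set T} (h : Small A) :
    SmallL l A := by
  obtain ⟨f, h1, h2⟩ := h
  refine ⟨f, h1, fun b => le_trans ?_ hl⟩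
  exact Cardinal.mk_le_aleph0_iff.2 (h2 b)

theorem smallL_iUnion {l : Cardinal.{u}} (hl : ℵ₀ ≤ l) {ι : Type u} (hι : #ι ≤ l)
    {A : ι → Set T} (hA : ∀ n, SmallL l (A n)) : SmallL l (⋃ n, A n) := by
  classical
  choose f h1 h2 using hA
  refine ⟨fun a => if h : ∃ n, a ∈ A n then f h.choose a else a, ?_, ?_⟩
  · intro a ha
    have h : ∃ n, a ∈ A n := by simpa using ha
    simp only [h, dite_true]
    exact h1 _ a h.choose_spec
  · intro b
    have hsub : {a | a ∈ (⋃ n, A n) ∧ (if h : ∃ n, a ∈ A n then f h.choose a else a) = b} ⊆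
        ⋃ n, {a | a ∈ A n ∧ f n a = b} := by
      rintro a ⟨ha, hab⟩
      have h : ∃ n, a ∈ A n := by simpa using ha
      simp only [h, dite_true] at hab
      exact mem_iUnion.2 ⟨h.choose, h.choose_spec, hab⟩
    refine (mk_le_mk_of_subset hsub).trans ?_
    refine (mk_iUnion_le _).trans ?_
    refine (mul_le_mul' hι (ciSup_le' fun n => h2 n b)).trans ?_
    exact (mul_eq_self hl).le

theorem mk_le_of_forall {l : Cardinal.{u}} {S : Set T} (h : ∀ a ∈ S, #(Iio a) < l) :
    #S ≤ l := by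
  by_contra hlt
  have h1 : l.ord < Ordinal.type (α := S) (· < ·) := by
    by_contra h2
    apply hlt
    have h3 := Ordinal.card_le_card (not_lt.1 h2)
    rwa [Ordinal.card_type, card_ord] at h3
  obtain ⟨a, ha⟩ := Ordinal.typein_surj _ h1
  have h4 := congrArg Ordinal.card ha
  rw [Ordinal.card_typein, card_ord] at h4
  have h5 : #{y : S // y < a} ≤ #(Iio (a : T)) := by
    refine mk_le_of_injective (f := fun y => (⟨y.1, y.2⟩ : Iio (a : T))) ?_
    intro x y hxy
    simpa [Subtype.ext_iff] using hxy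
  exact absurd (h5.trans_lt (h a a.2)) (by rw [h4]; exact lt_irrefl _)

/-- The block of the elements whose initial segment has cardinality `l`. -/
def Block (T : Type u) [LinearOrder T] (l : Cardinal.{u}) : Set T := {t | #(Iio t) = l}

theorem mk_block_le (l : Cardinal.{u}) : #(Block T l) ≤ Order.succ l :=
  mk_le_of_forall fun a ha => by
    rw [show #(Iio a) = l from ha]
    exact Order.lt_succ l

theorem lt_mk_block {l : Cardinal.{u}} (hl : ℵ₀ ≤ l) (hlT : l < #T) : l < #(Block T l) := by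
  have hL : l < #{t : T | #(Iio t) ≤ l} := by
    by_contra hle
    have hle := not_lt.1 hle
    have hne : {t : T | #(Iio t) ≤ l}ᶜ.Nonempty := by
      by_contra hemp
      rw [not_nonempty_iff_eq_empty, compl_empty_iff] at hemp
      rw [hemp, mk_univ] at hle
      exact absurd hlT (not_lt.2 hle)
    obtain ⟨t, ht, hmin⟩ := WellFounded.has_min (wellFounded_lt (α := T)) _ hne
    apply ht
    have hsub : Iio t ⊆ {t : T | #(Iio t) ≤ l} := by
      intro s hs
      by_contra hs'
      exact hmin s hs' hs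
    exact (mk_le_mk_of_subset hsub).trans hle
  have hL0 : #{t : T | #(Iio t) < l} ≤ l := mk_le_of_forall fun a ha => ha
  by_contra hK
  have hK := not_lt.1 hK
  have hunion : {t : T | #(Iio t) ≤ l} ⊆ {t : T | #(Iio t) < l} ∪ Block T l := by
    intro t ht
    rcases lt_or_eq_of_le (show #(Iio t) ≤ l from ht) with h | h
    · exact Or.inl h
    · exact Or.inr h
  have := (mk_le_mk_of_subset hunion).trans ((mk_union_le _ _).trans (add_le_add hL0 hK))
  rw [add_eq_self hl] at this
  exact absurd hL (not_lt.2 this)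

theorem exists_bound {l : Cardinal.{u}} (hl : ℵ₀ ≤ l) (hlT : l < #T) {E : Set T}
    (hE : #E ≤ l) (hEK : ∀ e ∈ E, #(Iio e) ≤ l) : ∃ t ∈ Block T l, ∀ e ∈ E, e < t := by
  have h1 : #(⋃ e : E, Iic (e : T)) ≤ l := by
    refine (mk_iUnion_le _).trans ?_
    refine (mul_le_mul' hE (ciSup_le' (a := l) fun e => ?_)).trans (mul_eq_self hl).le
    · have : Iic (e : T) = Iio (e : T) ∪ {(e : T)} := by
        ext x; simp [le_iff_lt_or_eq]
      rw [this]
      refine (mk_union_le _ _).trans ?_
      rw [mk_singleton]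
      exact (add_le_add (hEK e e.2) (one_le_aleph0.trans hl)).trans (add_eq_self hl).le
  have h2 : ¬ Block T l ⊆ ⋃ e : E, Iic (e : T) := fun h =>
    absurd (lt_mk_block hl hlT) (not_lt.2 ((mk_le_mk_of_subset h).trans h1))
  obtain ⟨t, ht, hn⟩ := not_subset.1 h2
  refine ⟨t, ht, fun e he => ?_⟩
  by_contra hle
  exact hn (mem_iUnion.2 ⟨⟨e, he⟩, not_lt.1 hle⟩)

theorem tail_not_smallL {l : Cardinal.{u}} (hl : ℵ₀ ≤ l) (hlT : l < #T) {b : T}
    (hb : b ∈ Block T l) : ¬ SmallL l {a | a ∈ Block T l ∧ b < a} := by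
  rintro ⟨f, h1, h2⟩
  set A : Set T := {a | a ∈ Block T l ∧ b < a} with hA
  have hstep : ∀ t ∈ Block T l, ∃ s ∈ Block T l, t < s ∧ ∀ a ∈ A, f a ≤ t → a < s := by
    intro t ht
    have hcard : #{a | a ∈ A ∧ f a ≤ t} ≤ l := by
      have hsub : {a | a ∈ A ∧ f a ≤ t} ⊆ ⋃ d : Iic t, {a | a ∈ A ∧ f a = d} := by
        rintro a ⟨ha, hat⟩
        exact mem_iUnion.2 ⟨⟨f a, hat⟩, ha, rfl⟩
      refine (mk_le_mk_of_subset hsub).trans ((mk_iUnion_le _).trans ?_)
      have hIic : #(Iic t) ≤ l := by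
        have : Iic t = Iio t ∪ {t} := by
          ext x; simp [le_iff_lt_or_eq]
        rw [this]
        refine (mk_union_le _ _).trans ?_
        rw [mk_singleton, show #(Iio t) = l from ht]
        exact (add_le_add le_rfl (one_le_aleph0.trans hl)).trans (add_eq_self hl).le
      exact (mul_le_mul' hIic (ciSup_le' fun d : Iic t => h2 d)).trans (mul_eq_self hl).le
    obtain ⟨s, hs, hlt⟩ := exists_bound hl hlT (E := {a | a ∈ A ∧ f a ≤ t} ∪ {t}) (by
        refine (mk_union_le _ _).trans ?_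
        rw [mk_singleton]
        exact (add_le_add hcard (one_le_aleph0.trans hl)).trans (add_eq_self hl).le) (by
        rintro e (he | he)
        · exact (show #(Iio e) = l from he.1.1).le
        · rw [mem_singleton_iff.1 he]; exact (show #(Iio t) = l from ht).le)
    exact ⟨s, hs, hlt t (Or.inr rfl), fun a ha hat => hlt a (Or.inl ⟨ha, hat⟩)⟩
  choose! g hg1 hg2 hg3 using hstep
  obtain ⟨t0, ht0, hbt0⟩ := exists_bound hl hlT (E := {b}) (by
    rw [mk_singleton]; exact one_le_aleph0.trans hl) (by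
    rintro e rfl; exact (show #(Iio _) = l from hb).le)
  let t : ℕ → T := fun n => g^[n] t0
  have htB : ∀ n, t n ∈ Block T l := by
    intro n
    induction n with
    | zero => exact ht0
    | succ n ih =>
      simp only [t, Function.iterate_succ_apply']
      exact hg1 _ ih
  have htlt : ∀ n, t n < t (n + 1) := by
    intro n
    simp only [t, Function.iterate_succ_apply']
    exact hg2 _ (htB n)
  obtain ⟨w, hw, hwt⟩ := exists_bound hl hlT (E := range t) (((countable_range t).le_aleph0).trans hl)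
    (by rintro e ⟨n, rfl⟩; exact (show #(Iio _) = l from htB n).le)
  have hne : {s | ∀ n, t n < s}.Nonempty := ⟨w, fun n => hwt _ ⟨n, rfl⟩⟩
  obtain ⟨c, hc, hmin⟩ := WellFounded.has_min (wellFounded_lt (α := T)) _ hne
  have hcw : c ≤ w := not_lt.1 (hmin w fun n => hwt _ ⟨n, rfl⟩)
  have hcB : c ∈ Block T l := by
    apply le_antisymm
    · exact (mk_le_mk_of_subset (Iio_subset_Iio hcw)).trans (show #(Iio w) = l from hw).le
    · exact (show #(Iio (t 0)) = l from htB 0).ge.trans
        (mk_le_mk_of_subset (Iio_subset_Iio (hc 0).le))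
  have hbc : b < c := (hbt0 b rfl).trans (hc 0)
  have hfc : f c < c := h1 c ⟨hcB, hbc⟩
  have : ¬ ∀ n, t n < f c := fun h => hmin _ h hfc
  push Not at this
  obtain ⟨n, hn⟩ := this
  have h5 := hg3 (t n) (htB n) c ⟨hcB, hbc⟩ hn
  have h6 : t (n + 1) = g (t n) := by simp only [t, Function.iterate_succ_apply']
  rw [← h6] at h5
  exact absurd (hc (n + 1)) (not_lt.2 h5.le)

/-- Ulam matrices: each block of an infinite cardinal `l < #T` contains more than `l` pairwise
disjoint sets which are not small. -/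
theorem exists_family {l : Cardinal.{u}} (hl : ℵ₀ ≤ l) (hlT : l < #T) :
    ∃ (G : Set T) (D : T → Set T), Order.succ l ≤ #G ∧ (∀ b ∈ G, D b ⊆ Block T l) ∧
      (∀ b ∈ G, ¬ Small (D b)) ∧ ∀ b ∈ G, ∀ c ∈ G, b ≠ c → Disjoint (D b) (D c) := by
  classical
  have he : ∀ a : Block T l, Nonempty (Iio (a : T) ≃ l.out) := fun a =>
    Cardinal.eq.1 (by rw [show #(Iio (a : T)) = l from a.2, mk_out])
  let e : ∀ a : Block T l, (Iio (a : T) ≃ l.out) := fun a => (he a).some
  -- the Ulam matrix
  let U : T → l.out → Set T := fun b x =>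
    {a | ∃ ha : a ∈ Block T l, ∃ hb : b < a, e ⟨a, ha⟩ ⟨b, hb⟩ = x}
  have hcov : ∀ b ∈ Block T l, ∃ x, ¬ SmallL l (U b x) := by
    intro b hb
    by_contra hall
    push Not at hall
    apply tail_not_smallL hl hlT hb
    have h1 := smallL_iUnion hl (ι := l.out) (mk_out l).le hall
    obtain ⟨f, hf1, hf2⟩ := h1
    have hsub : {a | a ∈ Block T l ∧ b < a} ⊆ ⋃ x, U b x := by
      rintro a ⟨ha, hba⟩
      exact mem_iUnion.2 ⟨_, ha, hba, rfl⟩
    refine ⟨f, fun a ha => hf1 a (hsub ha), fun c => le_trans (mk_le_mk_of_subset ?_) (hf2 c)⟩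
    rintro a ⟨ha, hac⟩
    exact ⟨hsub ha, hac⟩
  have hne : Nonempty l.out := by
    rw [← mk_ne_zero_iff, mk_out]
    exact (aleph0_pos.trans_le hl).ne'
  choose! x hx using hcov
  have hpig : ∃ y : l.out, l < #{b | b ∈ Block T l ∧ x b = y} := by
    by_contra hall
    push Not at hall
    have hsub : Block T l ⊆ ⋃ y : l.out, {b | b ∈ Block T l ∧ x b = y} := fun b hb =>
      mem_iUnion.2 ⟨x b, hb, rfl⟩
    have h1 := (mk_le_mk_of_subset hsub).trans (mk_iUnion_le _)
    have h2 := h1.trans (mul_le_mul' (mk_out l).le (ciSup_le' hall))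
    rw [mul_eq_self hl] at h2
    exact absurd (lt_mk_block hl hlT) (not_lt.2 h2)
  obtain ⟨y, hy⟩ := hpig
  refine ⟨{b | b ∈ Block T l ∧ x b = y}, fun b => U b y, Order.succ_le_of_lt hy, ?_, ?_, ?_⟩
  · rintro b - a ⟨ha, -⟩
    exact ha
  · rintro b ⟨hb, hby⟩ hsm
    exact hx b hb (hby ▸ hsm.smallL hl)
  · rintro b ⟨hb, hby⟩ c ⟨hc, hcy⟩ hbc
    refine disjoint_left.2 ?_
    rintro a ⟨ha, hba, h1⟩ ⟨ha', hca, h2⟩
    have := (e ⟨a, ha⟩).injective (h1.trans h2.symm)
    exact hbc (congrArg Subtype.val this)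

/-- If all proper initial segments of the uncountable well-ordered set `T` are smaller than `T`,
then there are `#T` pairwise disjoint sets which are not small. -/
theorem exists_disjoint (hT : ∀ t : T, #(Iio t) < #T) (hunc : ℵ₀ < #T) :
    ∃ D : T → Set T, (∀ t, ¬ Small (D t)) ∧ ∀ s t, s ≠ t → Disjoint (D s) (D t) := by
  classical
  have hinf : #{t : T | ℵ₀ ≤ #(Iio t)} = #T := by
    have h0 : #{t : T | #(Iio t) < ℵ₀} ≤ ℵ₀ := mk_le_of_forall fun a ha => ha
    have : Infinite T := Cardinal.infinite_iff.2 hunc.le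
    have h1 := mk_compl_of_infinite {t : T | #(Iio t) < ℵ₀} (h0.trans_lt hunc)
    have h2 : {t : T | ℵ₀ ≤ #(Iio t)} = {t : T | #(Iio t) < ℵ₀}ᶜ := by
      ext t
      simp only [mem_ofPred_eq, mem_compl_iff, not_lt]
    rw [h2, h1]
  have hblock : ∀ l : Cardinal.{u}, ∃ (g : T → T) (D : T → Set T), ℵ₀ ≤ l → l < #T →
      (InjOn g (Block T l)) ∧ (∀ b ∈ Block T l, D (g b) ⊆ Block T l) ∧
      (∀ b ∈ Block T l, ¬ Small (D (g b))) ∧
      ∀ b ∈ Block T l, ∀ c ∈ Block T l, g b ≠ g c → Disjoint (D (g b)) (D (g c)) := by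
    intro l
    by_cases hl : ℵ₀ ≤ l ∧ l < #T
    · obtain ⟨G, D, h1, h2, h3, h4⟩ := exists_family hl.1 hl.2
      obtain ⟨φ⟩ := (mk_block_le (T := T) l).trans h1
      refine ⟨fun t => if h : t ∈ Block T l then (φ ⟨t, h⟩ : T) else t, D, fun _ _ => ?_⟩
      have hg : ∀ b (hb : b ∈ Block T l),
          (if h : b ∈ Block T l then (φ ⟨b, h⟩ : T) else b) = φ ⟨b, hb⟩ := fun b hb => by
        simp [hb]
      refine ⟨?_, ?_, ?_, ?_⟩
      · intro b hb c hc hbc
        simp only [hg b hb, hg c hc] at hbc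
        have := φ.injective (Subtype.ext hbc)
        simpa using this
      · intro b hb
        simp only [hg b hb]
        exact h2 _ (φ ⟨b, hb⟩).2
      · intro b hb
        simp only [hg b hb]
        exact h3 _ (φ ⟨b, hb⟩).2
      · intro b hb c hc hbc
        simp only [hg b hb, hg c hc] at hbc ⊢
        exact h4 _ (φ ⟨b, hb⟩).2 _ (φ ⟨c, hc⟩).2 hbc
    · exact ⟨id, fun _ => ∅, fun h1 h2 => absurd ⟨h1, h2⟩ hl⟩
  choose g D h using hblock
  obtain ⟨φ⟩ := Cardinal.eq.1 hinf.symm
  refine ⟨fun t => D #(Iio (φ t : T)) (g #(Iio (φ t : T)) (φ t)), ?_, ?_⟩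
  · intro t
    exact (h _ (φ t).2 (hT _)).2.2.1 _ rfl
  · intro s t hst
    have hne : (φ s : T) ≠ φ t := fun h' => hst (φ.injective (Subtype.ext h'))
    by_cases hl : #(Iio (φ s : T)) = #(Iio (φ t : T))
    · have h1 := h _ (φ t).2 (hT _)
      simp only [hl]
      exact h1.2.2.2 _ hl _ rfl fun h' => hne (h1.1 hl rfl h')
    · refine Disjoint.mono ((h _ (φ s).2 (hT _)).2.1 _ rfl) ((h _ (φ t).2 (hT _)).2.1 _ rfl) ?_
      refine disjoint_left.2 fun a ha ha' => hl ?_
      exact (show #(Iio a) = _ from ha).symm.trans ha'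

end Order

/-- A sigma-algebra on an uncountable set with at most as many members as the set has elements can be
enlarged to a sigma-algebra which contains a selector of each family of disjoint nontrivial sets
and which is not the power set. -/
theorem exists_sigma_algebra {α : Type u} (hα : ℵ₀ < #α) (m : MeasurableSpace α)
    (hm : #{s : Set α // MeasurableSet[m] s} ≤ #α) :
    ∃ m' : MeasurableSpace α, m ≤ m' ∧
      (∀ P : Set (Set α), P.PairwiseDisjoint id → (∀ p ∈ P, p.Nontrivial) →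
        ∃ S : Set α, MeasurableSet[m'] S ∧ ∀ p ∈ P, ∃! x, x ∈ S ∩ p) ∧
      ∃ X : Set α, ¬ MeasurableSet[m'] X := by
  classical
  -- a well-order of type `(#α).ord`
  obtain ⟨φ⟩ : Nonempty (α ≃ (#α).ord.ToType) := Cardinal.eq.1 (mk_ord_toType _).symm
  have hT : ∀ t : (#α).ord.ToType, #(Iio t) < #(#α).ord.ToType := fun t =>
    mk_Iio_lt t (by rw [mk_ord_toType, Ordinal.type_toType])
  obtain ⟨D, hD1, hD2⟩ := exists_disjoint hT (by rwa [mk_ord_toType])
  have hcompl : ∀ A B : Set α, symmDiff Aᶜ Bᶜ = symmDiff A B := fun A B => by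
    ext x; simp only [mem_symmDiff, mem_compl_iff, not_not]; tauto
  let m' : MeasurableSpace α :=
    { MeasurableSet' := fun A => ∃ B, MeasurableSet[m] B ∧ Small (φ '' symmDiff A B)
      measurableSet_empty := ⟨∅, @MeasurableSet.empty α m, by
        refine ⟨id, by simp, by simp⟩⟩
      measurableSet_compl := by
        rintro A ⟨B, hB, hs⟩
        exact ⟨Bᶜ, hB.compl, by rwa [hcompl]⟩
      measurableSet_iUnion := by
        intro A hA
        choose B hB hs using hA
        refine ⟨⋃ n, B n, MeasurableSet.iUnion hB, (small_iUnion hs).mono ?_⟩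
        rw [← image_iUnion]
        apply image_mono
        rintro x (⟨h1, h2⟩ | ⟨h1, h2⟩)
        · obtain ⟨n, hn⟩ := mem_iUnion.1 h1
          exact mem_iUnion.2 ⟨n, Or.inl ⟨hn, fun h => h2 (mem_iUnion.2 ⟨n, h⟩)⟩⟩
        · obtain ⟨n, hn⟩ := mem_iUnion.1 h1
          exact mem_iUnion.2 ⟨n, Or.inr ⟨hn, fun h => h2 (mem_iUnion.2 ⟨n, h⟩)⟩⟩ }
  have hm' : ∀ A, MeasurableSet[m'] A ↔ ∃ B, MeasurableSet[m] B ∧ Small (φ '' symmDiff A B) :=
    fun A => Iff.rfl
  refine ⟨m', ?_, ?_, ?_⟩
  · intro A hA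
    refine (hm' A).2 ⟨A, hA, ?_⟩
    rw [symmDiff_self]
    exact ⟨id, by simp, by simp⟩
  · intro P hdis hnt
    -- the selector of elements which are not the least ones
    have hch : ∀ p : P, ∃ x ∈ (p : Set α), ∃ y ∈ (p : Set α), φ y < φ x := by
      intro p
      obtain ⟨a, ha, b, hb, hab⟩ := hnt p p.2
      rcases lt_trichotomy (φ a) (φ b) with h | h | h
      · exact ⟨b, hb, a, ha, h⟩
      · exact absurd (φ.injective h) hab
      · exact ⟨a, ha, b, hb, h⟩
    choose x hx y hy hlt using hch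
    have huniq : ∀ p q : P, ∀ z, z ∈ (p : Set α) → z ∈ (q : Set α) → p = q := by
      intro p q z hz hz'
      by_contra hpq
      exact disjoint_left.1 (hdis p.2 q.2 fun h => hpq (Subtype.ext h)) hz hz'
    refine ⟨range x, (hm' (range x)).2 ⟨∅, @MeasurableSet.empty α m, ?_⟩, ?_⟩
    · have hsd : symmDiff (range x) ∅ = range x := by simp
      rw [hsd]
      have hxinj : ∀ p q : P, φ (x p) = φ (x q) → p = q := fun p q h =>
        huniq _ _ (x p) (hx p) (by rw [φ.injective h]; exact hx q)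
      let F : (#α).ord.ToType → (#α).ord.ToType := fun t =>
        if h : ∃ p, φ (x p) = t then φ (y h.choose) else t
      have hF : ∀ p, F (φ (x p)) = φ (y p) := by
        intro p
        have h : ∃ q, φ (x q) = φ (x p) := ⟨p, rfl⟩
        simp only [F, h, dite_true]
        exact congrArg (fun q => φ (y q)) (hxinj _ _ h.choose_spec)
      refine ⟨F, ?_, ?_⟩
      · rintro t ⟨-, ⟨p, rfl⟩, rfl⟩
        rw [hF]
        exact hlt p
      · intro b
        apply Set.Subsingleton.countable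
        rintro t ⟨⟨-, ⟨p, rfl⟩, rfl⟩, hp⟩ s ⟨⟨-, ⟨q, rfl⟩, rfl⟩, hq⟩
        rw [hF] at hp hq
        have h1 : y p = y q := φ.injective (hp.trans hq.symm)
        rw [huniq p q (y p) (hy p) (h1 ▸ hy q)]
    · intro p hp
      refine ⟨x ⟨p, hp⟩, ⟨⟨⟨p, hp⟩, rfl⟩, hx ⟨p, hp⟩⟩, ?_⟩
      rintro z ⟨⟨q, rfl⟩, hz⟩
      rw [huniq ⟨p, hp⟩ q _ hz (hx q)]
  · -- a set which is not in the sigma-algebra
    obtain ⟨ψ⟩ : Nonempty ({s : Set α // MeasurableSet[m] s} ↪ (#α).ord.ToType) := by
      rw [← Cardinal.le_def, mk_ord_toType]; exact hm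
    refine ⟨{a | ∃ B : {s : Set α // MeasurableSet[m] s}, φ a ∈ D (ψ B) ∧ a ∉ (B : Set α)}, ?_⟩
    intro hX
    obtain ⟨B, hB, hs⟩ := (hm' _).1 hX
    apply hD1 (ψ ⟨B, hB⟩)
    refine hs.mono ?_
    intro t ht
    refine ⟨φ.symm t, ?_, by simp⟩
    by_cases htB : φ.symm t ∈ B
    · refine Or.inr ⟨htB, ?_⟩
      rintro ⟨C, hC1, hC2⟩
      by_cases hCB : C = ⟨B, hB⟩
      · rw [hCB] at hC2
        exact hC2 htB
      · rw [Equiv.apply_symm_apply] at hC1
        exact disjoint_left.1 (hD2 _ _ fun h => hCB (ψ.injective h)) hC1 ht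
    · refine Or.inl ⟨⟨⟨B, hB⟩, ?_, htB⟩, htB⟩
      rwa [Equiv.apply_symm_apply]

end Pool.Agent.R825.Selectors
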