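import Mathlib

/-!
# The weak extension property of Boolean algebras implies weak distributivity

Let `B` be a Boolean `m`-algebra which is not weakly `m`-distributive, as witnessed by elements
`a t s` (`t ∈ T`, `s ∈ S`) and `b ≠ 0`. Let `Z` be the compact space of all maps `T × S → 2` and let
`Q` be the set of all `z ∈ Z` such that for some `t` all values `z t s` are zero. The clopen subsets
of `Z` are mapped to `B` in such a way that the set of all `z` with `z t s = 1` is mapped to
`a t s`. By compactness the map into the part of `B` below `b` depends only on the traces of the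
clopen sets on `Q` and satisfies the condition on meets of at most `m` elements. It does not extend
to the `m`-field of subsets of `Q` which is generated by the traces, because `Q` is the union of `#T`
many sets each of which is the intersection of `#S` many traces.
-/

namespace Pool.Agent.R825.WeakExt

open Cardinal Set Order

universe u v w

/-- `B` is a Boolean `m`-algebra: each family of at most `m` elements has a join and a meet. -/
def MComplete (m : Cardinal.{v}) (B : Type u) [BooleanAlgebra B] : Prop :=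
  ∀ (ι : Type v) (a : ι → B), #ι ≤ m →
    (∃ x, IsLUB (range a) x) ∧ ∃ x, IsGLB (range a) x

/-- The subalgebra `A₀` of `A` `m`-generates `A`: each subalgebra which contains `A₀` and is closed
under joins and meets of families of at most `m` elements is all of `A`. -/
def MGenerates (m : Cardinal.{v}) {A : Type u} [BooleanAlgebra A]
    (A₀ : BooleanSubalgebra A) : Prop :=
  ∀ L : BooleanSubalgebra A, A₀ ≤ L →
    (∀ (ι : Type v) (a : ι → A) (x : A), #ι ≤ m → (∀ i, a i ∈ L) →
      IsLUB (range a) x ∨ IsGLB (range a) x → x ∈ L) → L = ⊤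

/-- The Boolean homomorphism `g` preserves joins and meets of families of at most `m` elements. -/
def MHom (m : Cardinal.{v}) {A : Type u} {B : Type w} [BooleanAlgebra A] [BooleanAlgebra B]
    (g : BoundedLatticeHom A B) : Prop :=
  ∀ (ι : Type v) (a : ι → A) (x : A), #ι ≤ m →
    (IsLUB (range a) x → IsLUB (range fun i => g (a i)) (g x)) ∧
    (IsGLB (range a) x → IsGLB (range fun i => g (a i)) (g x))

/-- Condition (a'): if a family of at most `m` elements of `A₀` has meet `0` in `A`, then the images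
of its members have meet `0` in `B`. -/
def CondA (m : Cardinal.{v}) {A : Type u} {B : Type w} [BooleanAlgebra A] [BooleanAlgebra B]
    {A₀ : BooleanSubalgebra A} (f : BoundedLatticeHom A₀ B) : Prop :=
  ∀ (ι : Type v) (a : ι → A₀), #ι ≤ m → IsGLB (range fun i => (a i : A)) ⊥ →
    IsGLB (range fun i => f (a i)) ⊥

/-- The weak `m`-extension property: for each Boolean `m`-algebra `A` and each subalgebra `A₀` which
`m`-generates `A`, each homomorphism from `A₀` to `B` with condition (a') extends to an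
`m`-homomorphism from `A` to `B`. -/
def WeakExtension (m : Cardinal.{v}) (B : Type u) [BooleanAlgebra B] : Prop :=
  ∀ (A : Type v) [BooleanAlgebra A], MComplete m A → ∀ A₀ : BooleanSubalgebra A,
    MGenerates m A₀ → ∀ f : BoundedLatticeHom A₀ B, CondA m f →
      ∃ g : BoundedLatticeHom A B, MHom m g ∧ ∀ a : A₀, g a = f a

/-- Weak `m`-distributivity: if `a t s` (`t ∈ T`, `s ∈ S`, where `#T, #S ≤ m`) are elements such that
for each `t` the elements `a t s` have join `1`, then no nonzero `b` is disjoint from all the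
elements `⋀ t, ⋁ s ∈ Φ t, a t s`, where `Φ t` are nonempty finite subsets of `S`. -/
def WeaklyDistributive (m : Cardinal.{v}) (B : Type u) [BooleanAlgebra B] : Prop :=
  ∀ (T S : Type v) (a : T → S → B), #T ≤ m → #S ≤ m → (∀ t, IsLUB (range (a t)) ⊤) →
    ∀ b : B, (∀ Φ : T → Finset S, (∀ t, (Φ t).Nonempty) →
      ∀ x, IsGLB (range fun t => (Φ t).sup (a t)) x → Disjoint b x) → b = ⊥

section Stone

variable {B : Type u} [BooleanAlgebra B]

theorem le_of_primes {c d : B} (h : ∀ P : Ideal B, P.IsPrime → d ∈ P → c ∈ P) : c ≤ d := by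
  by_contra hcd
  have hdis : Disjoint ((PFilter.principal c : PFilter B) : Set B) (Ideal.principal d : Set B) := by
    refine Set.disjoint_left.2 fun x hx hx' => hcd ?_
    exact (PFilter.mem_principal.1 hx).trans (Ideal.mem_principal.1 hx')
  obtain ⟨J, hJ, hJ1, hJ2⟩ := DistribLattice.prime_ideal_of_disjoint_filter_ideal hdis
  exact Set.disjoint_left.1 hJ2 (PFilter.mem_principal.2 le_rfl)
    (h J hJ (hJ1 (Ideal.mem_principal.2 le_rfl)))

variable {T S : Type v} (a : T → S → B)

open Classical in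
/-- The point of `Z` given by a prime ideal. -/
noncomputable def pt (P : Ideal B) : T → S → Bool := fun t s => decide (a t s ∉ P)

/-- The clopen set `C` represents the element `c`. -/
def Rep (C : Set (T → S → Bool)) (c : B) : Prop :=
  IsClopen C ∧ ∀ P : Ideal B, P.IsPrime → (c ∉ P ↔ pt a P ∈ C)

variable {a}

theorem Rep.sup {C D : Set (T → S → Bool)} {c d : B} (hC : Rep a C c) (hD : Rep a D d) :
    Rep a (C ∪ D) (c ⊔ d) := by
  refine ⟨hC.1.union hD.1, fun P hP => ?_⟩
  rw [mem_union, ← hC.2 P hP, ← hD.2 P hP, Ideal.sup_mem_iff]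
  tauto

theorem Rep.inf {C D : Set (T → S → Bool)} {c d : B} (hC : Rep a C c) (hD : Rep a D d) :
    Rep a (C ∩ D) (c ⊓ d) := by
  refine ⟨hC.1.inter hD.1, fun P hP => ?_⟩
  rw [mem_inter_iff, ← hC.2 P hP, ← hD.2 P hP]
  constructor
  · intro h
    exact ⟨fun h1 => h (P.lower inf_le_left h1), fun h1 => h (P.lower inf_le_right h1)⟩
  · rintro ⟨h1, h2⟩ h
    rcases hP.mem_or_mem h with h | h
    · exact h1 h
    · exact h2 h

theorem Rep.compl {C : Set (T → S → Bool)} {c : B} (hC : Rep a C c) :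
    Rep a Cᶜ cᶜ := by
  refine ⟨hC.1.compl, fun P hP => ?_⟩
  rw [mem_compl_iff, ← hC.2 P hP, not_not]
  constructor
  · intro h
    rcases hP.mem_or_compl_mem (x := c) with h1 | h1
    · exact h1
    · exact absurd h1 h
  · intro h1 h2
    apply hP.toIsProper.ne_univ
    have : (⊤ : B) ∈ P := by
      rw [← sup_compl_eq_top (x := c)]
      exact Ideal.sup_mem h1 h2
    exact Set.eq_univ_of_forall fun x => P.lower le_top this

theorem rep_bot : Rep a ∅ ⊥ :=
  ⟨isClopen_empty, fun P _ => by simp⟩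

theorem rep_top : Rep a Set.univ ⊤ := by
  simpa using (rep_bot (a := a)).compl

theorem rep_cyl (t : T) (s : S) : Rep a {z | z t s = true} (a t s) := by
  refine ⟨?_, fun P _ => by simp [pt]⟩
  have h : Continuous fun z : T → S → Bool => z t s :=
    (continuous_apply s).comp (continuous_apply t)
  exact (isClopen_discrete {true}).preimage h

/-- The compactness argument. -/
theorem key {m : Cardinal.{v}} (hB : MComplete m B) (hT : #T ≤ m) [Nonempty S] {b : B}
    (hb : ∀ Φ : T → Finset S, (∀ t, (Φ t).Nonempty) →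
      ∀ x, IsGLB (range fun t => (Φ t).sup (a t)) x → Disjoint b x)
    {ι : Type w} (C : ι → Set (T → S → Bool)) (c : ι → B) (hrep : ∀ i, Rep a (C i) (c i))
    (hQ : ∀ z : T → S → Bool, (∃ t, ∀ s, z t s = false) → ∃ i, z ∉ C i)
    {d : B} (hd : ∀ i, d ≤ c i) (hdb : d ≤ b) : d = ⊥ := by
  classical
  have hfin : ∀ t, ∃ Φ : Finset S, d ≤ Φ.sup (a t) := by
    intro t
    let K : ι ⊕ S → Set (T → S → Bool) := fun j =>
      Sum.elim C (fun s => {z | z t s = true}ᶜ) j
    have hK : ∀ j, IsClosed (K j) := by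
      rintro (i | s)
      · exact (hrep i).1.isClosed
      · exact (rep_cyl (a := a) t s).1.compl.isClosed
    have hempty : (Set.univ : Set (T → S → Bool)) ∩ ⋂ j, K j = ∅ := by
      rw [univ_inter]
      refine Set.eq_empty_of_forall_notMem fun z hz => ?_
      rw [mem_iInter] at hz
      obtain ⟨i, hi⟩ := hQ z ⟨t, fun s => by simpa [K] using hz (Sum.inr s)⟩
      exact hi (hz (Sum.inl i))
    obtain ⟨F, hF⟩ := isCompact_univ.elim_finite_subfamily_closed K hK hempty
    refine ⟨F.preimage Sum.inr Sum.inr_injective.injOn, le_of_primes fun P hP hsup => ?_⟩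
    by_contra hdP
    have : pt a P ∈ (Set.univ : Set (T → S → Bool)) ∩ ⋂ j ∈ F, K j := by
      refine ⟨trivial, mem_iInter₂.2 ?_⟩
      rintro (i | s) hj
      · exact ((hrep i).2 P hP).1 fun h => hdP (P.lower (hd i) h)
      · have h1 : a t s ∈ P := P.lower
          (Finset.le_sup (f := a t) (Finset.mem_preimage.2 hj)) hsup
        simpa [K, pt] using h1
    rw [hF] at this
    exact this
  choose Φ hΦ using hfin
  obtain ⟨s0⟩ := ‹Nonempty S›
  let Ψ : T → Finset S := fun t => insert s0 (Φ t)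
  obtain ⟨x, hx⟩ := (hB T (fun t => (Ψ t).sup (a t)) hT).2
  have h1 := hb Ψ (fun t => Finset.insert_nonempty _ _) x hx
  have h2 : d ≤ x := hx.2 (by
    rintro _ ⟨t, rfl⟩
    exact (hΦ t).trans (Finset.sup_mono (Finset.subset_insert _ _)))
  exact le_bot_iff.1 (h1 hdb h2)

end Stone

section Field

variable {B : Type u} [BooleanAlgebra B] {T S : Type v} (a : T → S → B)

/-- The set `Q`. -/
def QQ (T S : Type v) : Set (T → S → Bool) := {z | ∃ t, ∀ s, z t s = false}

/-- The algebra of the traces on `Q` of the clopen sets which represent elements of `B`. -/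
def Tr : BooleanSubalgebra (Set (QQ T S)) where
  carrier := {U | ∃ C c, Rep a C c ∧ U = Subtype.val ⁻¹' C}
  supClosed' := by
    rintro _ ⟨C, c, hC, rfl⟩ _ ⟨D, d, hD, rfl⟩
    exact ⟨C ∪ D, c ⊔ d, hC.sup hD, rfl⟩
  infClosed' := by
    rintro _ ⟨C, c, hC, rfl⟩ _ ⟨D, d, hD, rfl⟩
    exact ⟨C ∩ D, c ⊓ d, hC.inf hD, rfl⟩
  compl_mem' := by
    rintro _ ⟨C, c, hC, rfl⟩
    exact ⟨Cᶜ, cᶜ, hC.compl, rfl⟩
  bot_mem' := ⟨∅, ⊥, rep_bot, rfl⟩

/-- The algebra is closed under unions of at most `m` sets. -/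
def UnionClosed {X : Type v} (m : Cardinal.{v}) (L : BooleanSubalgebra (Set X)) : Prop :=
  ∀ (ι : Type v) (U : ι → Set X), #ι ≤ m → (∀ i, U i ∈ L) → (⋃ i, U i) ∈ L

/-- The `m`-field of sets generated by the traces. -/
def FF (m : Cardinal.{v}) : BooleanSubalgebra (Set (QQ T S)) :=
  sInf {L | Tr a ≤ L ∧ UnionClosed m L}

theorem tr_le (m : Cardinal.{v}) : Tr a ≤ FF a m := by
  intro U hU
  rw [FF, BooleanSubalgebra.mem_sInf]
  exact fun L hL => hL.1 hU

theorem unionClosed_ff (m : Cardinal.{v}) : UnionClosed m (FF a m) := by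
  intro ι U hι hU
  rw [FF, BooleanSubalgebra.mem_sInf]
  exact fun L hL => hL.2 ι U hι fun i => by
    have := hU i
    rw [FF, BooleanSubalgebra.mem_sInf] at this
    exact this L hL

theorem iInter_mem {m : Cardinal.{v}} {ι : Type v} (hι : #ι ≤ m) (U : ι → FF a m) :
    (⋂ i, (U i : Set (QQ T S))) ∈ FF a m := by
  have h1 := unionClosed_ff a m ι (fun i => ((U i)ᶜ : FF a m)) hι fun i => ((U i)ᶜ).2
  have h2 := BooleanSubalgebra.compl_mem h1
  simpa [Set.compl_iUnion] using h2

theorem isLUB_iUnion {m : Cardinal.{v}} {ι : Type v} (hι : #ι ≤ m) (U : ι → FF a m) :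
    IsLUB (range U) (⟨⋃ i, (U i : Set (QQ T S)),
      unionClosed_ff a m ι _ hι fun i => (U i).2⟩ : FF a m) := by
  constructor
  · rintro _ ⟨i, rfl⟩
    exact Set.subset_iUnion (fun i => (U i : Set (QQ T S))) i
  · intro V hV
    exact Set.iUnion_subset fun i => hV ⟨i, rfl⟩

theorem isGLB_iInter {m : Cardinal.{v}} {ι : Type v} (hι : #ι ≤ m) (U : ι → FF a m) :
    IsGLB (range U) (⟨⋂ i, (U i : Set (QQ T S)), iInter_mem a hι U⟩ : FF a m) := by
  constructor
  · rintro _ ⟨i, rfl⟩
    exact Set.iInter_subset (fun i => (U i : Set (QQ T S))) i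
  · intro V hV
    exact Set.subset_iInter fun i => hV ⟨i, rfl⟩

theorem mComplete_ff (m : Cardinal.{v}) : MComplete m (FF a m) :=
  fun _ U hι => ⟨⟨_, isLUB_iUnion a hι U⟩, ⟨_, isGLB_iInter a hι U⟩⟩

/-- The subalgebra of the traces. -/
def A0 (m : Cardinal.{v}) : BooleanSubalgebra (FF a m) := (Tr a).comap (FF a m).subtype

theorem mem_A0 {m : Cardinal.{v}} {U : FF a m} : U ∈ A0 a m ↔ (U : Set (QQ T S)) ∈ Tr a := Iff.rfl

theorem mGenerates (m : Cardinal.{v}) : MGenerates m (A0 a m) := by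
  intro L hL hcl
  let L' : BooleanSubalgebra (Set (QQ T S)) :=
    { carrier := {U | ∃ h : U ∈ FF a m, (⟨U, h⟩ : FF a m) ∈ L}
      supClosed' := by
        rintro U ⟨h1, h2⟩ V ⟨h3, h4⟩
        exact ⟨BooleanSubalgebra.sup_mem h1 h3, BooleanSubalgebra.sup_mem h2 h4⟩
      infClosed' := by
        rintro U ⟨h1, h2⟩ V ⟨h3, h4⟩
        exact ⟨BooleanSubalgebra.inf_mem h1 h3, BooleanSubalgebra.inf_mem h2 h4⟩
      compl_mem' := by
        rintro U ⟨h1, h2⟩
        exact ⟨BooleanSubalgebra.compl_mem h1, BooleanSubalgebra.compl_mem h2⟩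
      bot_mem' := ⟨BooleanSubalgebra.bot_mem, BooleanSubalgebra.bot_mem⟩ }
  have hL' : FF a m ≤ L' := by
    refine sInf_le ⟨?_, ?_⟩
    · intro U hU
      exact ⟨tr_le a m hU, hL (show (⟨U, tr_le a m hU⟩ : FF a m) ∈ A0 a m from hU)⟩
    · intro ι U hι hU
      have hU1 : ∀ i, U i ∈ FF a m := fun i => (hU i).choose
      refine ⟨unionClosed_ff a m ι U hι hU1, ?_⟩
      exact hcl ι (fun i => ⟨U i, hU1 i⟩) _ hι (fun i => (hU i).choose_spec)
        (Or.inl (isLUB_iUnion a hι fun i => ⟨U i, hU1 i⟩))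
  rw [eq_top_iff]
  rintro ⟨U, hU⟩ -
  exact (hL' hU).choose_spec

end Field

section Main

variable {B : Type u} [BooleanAlgebra B] {T S : Type v} {a : T → S → B}

/-- The traces determine the elements below `b`. -/
theorem inf_eq {m : Cardinal.{v}} (hB : MComplete m B) (hT : #T ≤ m) [Nonempty S] {b : B}
    (hb : ∀ Φ : T → Finset S, (∀ t, (Φ t).Nonempty) →
      ∀ x, IsGLB (range fun t => (Φ t).sup (a t)) x → Disjoint b x)
    {C D : Set (T → S → Bool)} {c d : B} (hC : Rep a C c) (hD : Rep a D d)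
    (hCD : (Subtype.val ⁻¹' C : Set (QQ T S)) = Subtype.val ⁻¹' D) : c ⊓ b = d ⊓ b := by
  have main : ∀ {C D : Set (T → S → Bool)} {c d : B}, Rep a C c → Rep a D d →
      (Subtype.val ⁻¹' C : Set (QQ T S)) = Subtype.val ⁻¹' D → c ⊓ b ≤ d ⊓ b := by
    intro C D c d hC hD hCD
    have h1 : (c ⊓ dᶜ) ⊓ b = ⊥ := by
      refine key hB hT hb (ι := Unit) (fun _ => C ∩ Dᶜ) (fun _ => c ⊓ dᶜ)
        (fun _ => hC.inf hD.compl) ?_ (fun _ => inf_le_left) inf_le_right
      intro z hz
      refine ⟨(), fun h => h.2 ?_⟩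
      have : (⟨z, hz⟩ : QQ T S) ∈ (Subtype.val ⁻¹' D : Set (QQ T S)) := hCD ▸ h.1
      exact this
    refine le_inf ?_ inf_le_right
    rw [← disjoint_compl_right_iff, disjoint_iff, ← h1]
    ac_rfl
  exact le_antisymm (main hC hD hCD) (main hD hC hCD.symm)

open Classical in
/-- The homomorphism on the algebra of traces. -/
noncomputable def ff (m : Cardinal.{v}) (b : B) (q : QQ T S) (U : A0 a m) : B :=
  (U.2.choose_spec.choose ⊓ b) ⊔ (if q ∈ ((U : FF a m) : Set (QQ T S)) then bᶜ else ⊥)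

open Classical in
theorem ff_eq {m : Cardinal.{v}} (hB : MComplete m B) (hT : #T ≤ m) [Nonempty S] {b : B}
    (hb : ∀ Φ : T → Finset S, (∀ t, (Φ t).Nonempty) →
      ∀ x, IsGLB (range fun t => (Φ t).sup (a t)) x → Disjoint b x)
    (q : QQ T S) (U : A0 a m) {C : Set (T → S → Bool)} {c : B} (hC : Rep a C c)
    (hU : ((U : FF a m) : Set (QQ T S)) = Subtype.val ⁻¹' C) :
    ff m b q U = (c ⊓ b) ⊔ (if q ∈ ((U : FF a m) : Set (QQ T S)) then bᶜ else ⊥) := by
  have h := U.2.choose_spec.choose_spec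
  rw [ff, inf_eq hB hT hb h.1 hC (h.2.symm.trans hU)]

theorem weaklyDistributive_of_weakExtension (m : Cardinal.{v}) (hB : MComplete m B)
    (h : WeakExtension m B) : WeaklyDistributive m B := by
  classical
  intro T S a hT hS ha b hb
  by_cases hTe : IsEmpty T
  · have h1 := hb (fun _ => ∅) (fun t => isEmptyElim t) ⊤
      ⟨fun x hx => by obtain ⟨t, _⟩ := hx; exact isEmptyElim t, fun x _ => le_top⟩
    simpa using h1
  rw [not_isEmpty_iff] at hTe
  obtain ⟨t0⟩ := hTe
  by_cases hSe : IsEmpty S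
  · have h1 : (⊤ : B) ≤ ⊥ := (ha t0).2 (by rintro _ ⟨s, rfl⟩; exact isEmptyElim s)
    exact le_bot_iff.1 (le_top.trans h1)
  rw [not_isEmpty_iff] at hSe
  let q : QQ T S := ⟨fun _ _ => false, t0, fun _ => rfl⟩
  have hff : ∀ (U : A0 a m) (C : Set (T → S → Bool)) (c : B), Rep a C c →
      ((U : FF a m) : Set (QQ T S)) = Subtype.val ⁻¹' C →
      ff m b q U = (c ⊓ b) ⊔ (if q ∈ ((U : FF a m) : Set (QQ T S)) then bᶜ else ⊥) :=
    fun U C c hC hU => ff_eq hB hT hb q U hC hU
  have hrep : ∀ U : A0 a m, ∃ C c, Rep a C c ∧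
      ((U : FF a m) : Set (QQ T S)) = Subtype.val ⁻¹' C := fun U => U.2
  let f : BoundedLatticeHom (A0 a m) B :=
    { toFun := ff m b q
      map_sup' := by
        intro U V
        obtain ⟨C, c, hC, hU⟩ := hrep U
        obtain ⟨D, d, hD, hV⟩ := hrep V
        rw [hff U C c hC hU, hff V D d hD hV, hff (U ⊔ V) (C ∪ D) (c ⊔ d) (hC.sup hD) (by
          rw [BooleanSubalgebra.val_sup, BooleanSubalgebra.val_sup, hU, hV]; rfl)]
        rw [BooleanSubalgebra.val_sup, BooleanSubalgebra.val_sup, inf_sup_right]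
        by_cases h1 : q ∈ ((U : FF a m) : Set (QQ T S)) <;>
          by_cases h2 : q ∈ ((V : FF a m) : Set (QQ T S)) <;>
          simp [h1, h2, sup_assoc, sup_left_comm, sup_comm]
      map_inf' := by
        intro U V
        obtain ⟨C, c, hC, hU⟩ := hrep U
        obtain ⟨D, d, hD, hV⟩ := hrep V
        rw [hff U C c hC hU, hff V D d hD hV, hff (U ⊓ V) (C ∩ D) (c ⊓ d) (hC.inf hD) (by
          rw [BooleanSubalgebra.val_inf, BooleanSubalgebra.val_inf, hU, hV]; rfl)]
        rw [BooleanSubalgebra.val_inf, BooleanSubalgebra.val_inf]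
        have e1 : c ⊓ d ⊓ b = (c ⊓ b) ⊓ (d ⊓ b) := by
          rw [inf_inf_inf_comm, inf_idem]
        have e2 : ∀ x : B, (x ⊓ b) ⊓ bᶜ = ⊥ := fun x => by
          rw [inf_assoc, inf_compl_self, inf_bot_eq]
        have e3 : ∀ x : B, bᶜ ⊓ (x ⊓ b) = ⊥ := fun x => by rw [inf_comm, e2]
        by_cases h1 : q ∈ ((U : FF a m) : Set (QQ T S)) <;>
          by_cases h2 : q ∈ ((V : FF a m) : Set (QQ T S)) <;>
          simp [h1, h2, e1, inf_sup_right, inf_sup_left, e2, e3]
      map_top' := by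
        rw [hff ⊤ Set.univ ⊤ rep_top rfl]
        simp
      map_bot' := by
        rw [hff ⊥ ∅ ⊥ rep_bot rfl]
        simp }
  have hf : ∀ U, f U = ff m b q U := fun U => rfl
  -- condition (a')
  have hcond : CondA m f := by
    intro ι U hι hU
    have hint : (⋂ i, (((U i : A0 a m) : FF a m) : Set (QQ T S))) = ∅ := by
      have h1 : (⟨⋂ i, (((U i : A0 a m) : FF a m) : Set (QQ T S)),
          iInter_mem a hι fun i => ((U i : A0 a m) : FF a m)⟩ : FF a m) ≤ ⊥ := by
        refine hU.2 ?_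
        rintro _ ⟨i, rfl⟩
        exact Set.iInter_subset (fun i => (((U i : A0 a m) : FF a m) : Set (QQ T S))) i
      exact Set.subset_empty_iff.1 h1
    refine ⟨fun x _ => bot_le, fun d hd => ?_⟩
    choose C c hC hUC using fun i => hrep (U i)
    have hdi : ∀ i, d ≤ (c i ⊓ b) ⊔
        (if q ∈ (((U i : A0 a m) : FF a m) : Set (QQ T S)) then bᶜ else ⊥) := by
      intro i
      rw [← hff (U i) (C i) (c i) (hC i) (hUC i)]
      exact hd ⟨i, rfl⟩
    have hdb : d ⊓ b = ⊥ := by
      refine key hB hT hb C c hC ?_ (fun i => ?_) inf_le_right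
      · intro z hz
        have hz' : (⟨z, hz⟩ : QQ T S) ∉ ⋂ i, (((U i : A0 a m) : FF a m) : Set (QQ T S)) := by
          rw [hint]; exact fun h => h
        rw [Set.mem_iInter] at hz'
        push Not at hz'
        obtain ⟨i, hi⟩ := hz'
        rw [hUC i] at hi
        exact ⟨i, hi⟩
      · have h2 : d ⊓ b ≤ ((c i ⊓ b) ⊔ bᶜ) ⊓ b := by
          refine inf_le_inf_right _ ((hdi i).trans (sup_le_sup_left ?_ _))
          split_ifs
          · exact le_rfl
          · exact bot_le
        refine h2.trans ?_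
        rw [inf_sup_right, inf_comm bᶜ b, inf_compl_self, sup_bot_eq]
        exact inf_le_left.trans inf_le_left
    have hq : q ∉ ⋂ i, (((U i : A0 a m) : FF a m) : Set (QQ T S)) := by
      rw [hint]; exact fun h => h
    rw [Set.mem_iInter] at hq
    push Not at hq
    obtain ⟨i, hi⟩ := hq
    have h3 := hdi i
    rw [if_neg hi, sup_bot_eq] at h3
    rw [← hdb]
    exact le_inf le_rfl (h3.trans inf_le_right)
  obtain ⟨g, hg, hgf⟩ := h (FF a m) (mComplete_ff a m) (A0 a m) (mGenerates a m) f hcond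
  -- the traces of the sets of all `z` with `z t s = 0`
  have hE : ∀ t s, (Subtype.val ⁻¹' {z : T → S → Bool | z t s = true}ᶜ : Set (QQ T S)) ∈ Tr a :=
    fun t s => ⟨_, _, (rep_cyl t s).compl, rfl⟩
  let E : T → S → FF a m := fun t s => ⟨_, tr_le a m (hE t s)⟩
  have hgE : ∀ t s, g (E t s) ≤ ((a t s)ᶜ ⊓ b) ⊔ bᶜ := by
    intro t s
    have h1 := hgf ⟨E t s, hE t s⟩
    rw [hf, hff _ _ _ (rep_cyl t s).compl rfl] at h1
    change g (E t s) = _ at h1
    rw [h1]
    refine sup_le_sup_left ?_ _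
    split_ifs
    · exact le_rfl
    · exact bot_le
  let V : T → FF a m := fun t => ⟨⋂ s, (E t s : Set (QQ T S)), iInter_mem a hS (E t)⟩
  have hV : ∀ t, g (V t) ≤ bᶜ := by
    intro t
    have h1 := ((hg S (E t) (V t) hS).2 (isGLB_iInter a hS (E t))).1
    have h2 : ∀ s, a t s ≤ (g (V t) ⊓ b)ᶜ := by
      intro s
      rw [le_compl_comm]
      have h3 : g (V t) ≤ ((a t s)ᶜ ⊓ b) ⊔ bᶜ := (h1 ⟨s, rfl⟩).trans (hgE t s)
      refine (inf_le_inf_right b h3).trans ?_
      rw [inf_sup_right, inf_comm bᶜ b, inf_compl_self, sup_bot_eq]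
      exact inf_le_left.trans inf_le_left
    have h3 : ⊤ ≤ (g (V t) ⊓ b)ᶜ := (ha t).2 (by rintro _ ⟨s, rfl⟩; exact h2 s)
    rw [top_le_iff, compl_eq_top] at h3
    rw [← disjoint_compl_right_iff, compl_compl, disjoint_iff]
    exact h3
  have hlub : IsLUB (range V) ⊤ := by
    have h1 := isLUB_iUnion a hT V
    convert h1 using 1
    apply Subtype.ext
    refine (Set.eq_univ_of_forall ?_).symm
    rintro ⟨z, t, ht⟩
    refine Set.mem_iUnion.2 ⟨t, Set.mem_iInter.2 fun s => ?_⟩
    simp [E, ht s]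
  have h4 : g ⊤ ≤ bᶜ := ((hg T V ⊤ hT).1 hlub).2 (by rintro _ ⟨t, rfl⟩; exact hV t)
  rw [map_top, top_le_iff, compl_eq_top] at h4
  exact h4

end Main

end Pool.Agent.R825.WeakExt
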